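import Pool.Agent.Helper43.NF.Cert.C01
import Pool.Agent.Helper43.NF.Cert.C02
import Pool.Agent.Helper43.NF.Cert.C03
import Pool.Agent.Helper43.NF.Cert.C04
import Pool.Agent.Helper43.NF.Cert.C05
import Pool.Agent.Helper43.NF.Cert.C06
import Pool.Agent.Helper43.NF.Cert.C07
import Pool.Agent.Helper43.NF.Cert.C08
import Pool.Agent.Helper43.NF.Cert.C09
import Pool.Agent.Helper43.NF.Cert.C10
import Pool.Agent.Helper43.NF.Cert.C11
import Pool.Agent.Helper43.NF.Cert.C12
import Pool.Agent.Helper43.NF.Cert.C13
import Pool.Agent.Helper43.NF.Cert.C14
import Pool.Agent.Helper43.NF.Cert.C15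
import Pool.Agent.Helper43.NF.Cert.C16
import Pool.Agent.Helper43.NF.Cert.C17
import Pool.Agent.Helper43.NF.Cert.C18
import Pool.Agent.Helper43.NF.Cert.C19
import Pool.Agent.Helper43.NF.Cert.C20
import Pool.Agent.Helper43.NF.Cert.C21
import Pool.Agent.Helper43.NF.Cert.C22
import Pool.Agent.Helper43.NF.Cert.C23
import Pool.Agent.Helper43.NF.Cert.C24
import Pool.Agent.Helper43.NF.Cert.C25

set_option autoImplicit false

namespace Pool.Agent.NF

/-! boxes -/

theorem small1 : Box 1 15 1 1 :=
  (Box.split k1_box (Box.split k2_box (Box.split k3_box (Box.split k4_box (Box.split k5_box (Box.split k6_box (Box.split k7_box (Box.split k8_box (Box.split k9_box (Box.split (Box.split k10_box k11_box) (Box.split (Box.split k12_box k13_box) (Box.split k14_box k15_box))))))))))))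

theorem small2 : Box 2 32 2 2 :=
  (Box.split k16_box (Box.split k17_box (Box.split k18_box (Box.split k19_box (Box.split k20_box (Box.split k21_box (Box.split k22_box (Box.split k23_box (Box.split (Box.split k24_box k25_box) (Box.split k26_box (Box.split (Box.split k27_box k28_box) (Box.split k29_box (Box.split k30_box (Box.split (Box.split k31_box k32_box) (Box.split k33_box (Box.split k34_box (Box.split k35_box k36_box)))))))))))))))))

theorem small3 : Box 3 24 3 3 :=
  (Box.split k37_box (Box.split k38_box (Box.split k39_box (Box.split k40_box (Box.split k41_box (Box.split k42_box (Box.split k43_box (Box.split (Box.split k44_box k45_box) (Box.split k46_box (Box.split (Box.split k47_box k48_box) (Box.split k49_box (Box.split k50_box (Box.split k51_box k52_box)))))))))))))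

theorem small4 : Box 4 28 4 4 :=
  (Box.split k53_box (Box.split k54_box (Box.split k55_box (Box.split k56_box (Box.split k57_box (Box.split k58_box (Box.split (Box.split k59_box k60_box) (Box.split (Box.split k61_box k62_box) (Box.split k63_box (Box.split k64_box (Box.split k65_box (Box.split (Box.split k66_box k67_box) (Box.split k68_box k69_box)))))))))))))

theorem small5 : Box 5 36 5 5 :=
  (Box.split k70_box (Box.split k71_box (Box.split k72_box (Box.split k73_box (Box.split k74_box (Box.split (Box.split k75_box k76_box) (Box.split (Box.split k77_box k78_box) (Box.split k79_box (Box.split (Box.split k80_box k81_box) (Box.split k82_box (Box.split k83_box (Box.split k84_box (Box.split k85_box (Box.split k86_box (Box.split k87_box k88_box)))))))))))))))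

theorem small6 : Box 6 43 6 6 :=
  (Box.split k89_box (Box.split k90_box (Box.split k91_box (Box.split k92_box (Box.split (Box.split k93_box k94_box) (Box.split (Box.split k95_box k96_box) (Box.split (Box.split k97_box k98_box) (Box.split k99_box (Box.split k100_box (Box.split k101_box (Box.split k102_box (Box.split k103_box (Box.split k104_box (Box.split k105_box (Box.split k106_box k107_box)))))))))))))))

theorem small7 : Box 7 50 7 7 :=
  (Box.split k108_box (Box.split k109_box (Box.split k110_box (Box.split (Box.split k111_box k112_box) (Box.split k113_box (Box.split (Box.split k114_box k115_box) (Box.split k116_box (Box.split k117_box (Box.split (Box.split k118_box k119_box) (Box.split k120_box (Box.split k121_box (Box.split k122_box (Box.split k123_box (Box.split k124_box (Box.split k125_box (Box.split k126_box k127_box))))))))))))))))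

theorem small8 : Box 8 58 8 8 :=
  (Box.split k128_box (Box.split k129_box (Box.split (Box.split k130_box k131_box) (Box.split k132_box (Box.split k133_box (Box.split k134_box (Box.split k135_box (Box.split k136_box (Box.split k137_box (Box.split k138_box (Box.split k139_box (Box.split k140_box (Box.split k141_box (Box.split k142_box (Box.split k143_box (Box.split k144_box k145_box))))))))))))))))

theorem small9 : Box 9 65 9 9 :=
  (Box.split k146_box (Box.split (Box.split k147_box k148_box) (Box.split (Box.split k149_box k150_box) (Box.split (Box.split k151_box k152_box) (Box.split k153_box (Box.split k154_box (Box.split (Box.split k155_box k156_box) (Box.split k157_box (Box.split k158_box (Box.split k159_box (Box.split k160_box (Box.split k161_box (Box.split k162_box (Box.split k163_box (Box.split k164_box (Box.split k165_box k166_box))))))))))))))))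

theorem small10 : Box 10 73 10 10 :=
  (Box.split k167_box (Box.split k168_box (Box.split k169_box (Box.split k170_box (Box.split k171_box (Box.split k172_box (Box.split (Box.split k173_box k174_box) (Box.split k175_box (Box.split k176_box (Box.split k177_box (Box.split k178_box (Box.split k179_box (Box.split k180_box (Box.split k181_box (Box.split k182_box (Box.split k183_box k184_box))))))))))))))))

theorem small11 : Box 11 80 11 11 :=
  (Box.split k185_box (Box.split k186_box (Box.split (Box.split k187_box k188_box) (Box.split k189_box (Box.split k190_box (Box.split (Box.split k191_box k192_box) (Box.split k193_box (Box.split k194_box (Box.split (Box.split k195_box k196_box) (Box.split k197_box (Box.split k198_box (Box.split k199_box (Box.split k200_box (Box.split k201_box (Box.split k202_box (Box.split k203_box (Box.split k204_box k205_box)))))))))))))))))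

theorem small12 : Box 12 88 12 12 :=
  (Box.split k206_box (Box.split k207_box (Box.split k208_box (Box.split k209_box (Box.split k210_box (Box.split k211_box (Box.split k212_box (Box.split k213_box (Box.split k214_box (Box.split (Box.split k215_box k216_box) (Box.split k217_box (Box.split k218_box (Box.split k219_box (Box.split k220_box (Box.split k221_box (Box.split k222_box (Box.split k223_box k224_box)))))))))))))))))

theorem small13 : Box 13 95 13 13 :=
  (Box.split k225_box (Box.split k226_box (Box.split k227_box (Box.split k228_box (Box.split k229_box (Box.split k230_box (Box.split k231_box (Box.split k232_box (Box.split k233_box (Box.split k234_box (Box.split k235_box (Box.split k236_box (Box.split k237_box (Box.split k238_box (Box.split k239_box (Box.split k240_box (Box.split k241_box k242_box)))))))))))))))))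

theorem small14 : Box 14 102 14 14 :=
  (Box.split k243_box (Box.split k244_box (Box.split k245_box (Box.split k246_box (Box.split k247_box (Box.split k248_box (Box.split k249_box (Box.split k250_box (Box.split k251_box (Box.split k252_box (Box.split k253_box (Box.split k254_box (Box.split k255_box (Box.split k256_box (Box.split k257_box (Box.split k258_box (Box.split k259_box k260_box)))))))))))))))))

theorem small15 : Box 15 110 15 15 :=
  (Box.split k261_box (Box.split k262_box (Box.split k263_box (Box.split (Box.split k264_box k265_box) (Box.split k266_box (Box.split k267_box (Box.split k268_box (Box.split k269_box (Box.split k270_box (Box.split k271_box (Box.split k272_box (Box.split k273_box (Box.split k274_box (Box.split k275_box (Box.split k276_box (Box.split k277_box (Box.split k278_box (Box.split k279_box k280_box))))))))))))))))))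

theorem small16 : Box 16 117 16 16 :=
  (Box.split k281_box (Box.split k282_box (Box.split (Box.split k283_box k284_box) (Box.split k285_box (Box.split k286_box (Box.split k287_box (Box.split k288_box (Box.split k289_box (Box.split k290_box (Box.split k291_box (Box.split k292_box (Box.split k293_box (Box.split k294_box (Box.split k295_box (Box.split k296_box (Box.split k297_box (Box.split k298_box (Box.split k299_box k300_box))))))))))))))))))

theorem small17 : Box 17 125 17 17 :=
  (Box.split k301_box (Box.split k302_box (Box.split k303_box (Box.split k304_box (Box.split k305_box (Box.split k306_box (Box.split k307_box (Box.split k308_box (Box.split k309_box (Box.split k310_box (Box.split k311_box (Box.split k312_box (Box.split k313_box (Box.split k314_box (Box.split k315_box (Box.split k316_box (Box.split k317_box (Box.split k318_box k319_box))))))))))))))))))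

theorem small18 : Box 18 132 18 18 :=
  (Box.split k320_box (Box.split k321_box (Box.split k322_box (Box.split k323_box (Box.split k324_box (Box.split k325_box (Box.split k326_box (Box.split k327_box (Box.split k328_box (Box.split k329_box (Box.split k330_box (Box.split k331_box (Box.split k332_box (Box.split k333_box (Box.split k334_box (Box.split k335_box (Box.split k336_box (Box.split k337_box k338_box))))))))))))))))))

theorem cone38 : Cone 25600 45133 38 47 :=
  (Cone.splitR k339_cone (Cone.splitR (Cone.splitN k340_cone k341_cone) (Cone.splitR k342_cone (Cone.splitR (Cone.splitN (Cone.vac (n₁ := 28672) (by decide +kernel)) k343_cone) (Cone.splitR k344_cone (Cone.splitR (Cone.vac (n₁ := 30720) (by decide +kernel)) (Cone.splitR (Cone.vac (n₁ := 31744) (by decide +kernel)) (Cone.splitR (Cone.vac (n₁ := 32768) (by decide +kernel)) (Cone.splitR (Cone.vac (n₁ := 33792) (by decide +kernel)) (Cone.splitR (Cone.vac (n₁ := 34816) (by decide +kernel)) (Cone.splitR (Cone.vac (n₁ := 35840) (by decide +kernel)) (Cone.splitR (Cone.vac (n₁ := 36864) (by decide +kernel)) (Cone.splitR (Cone.vac (n₁ := 37888) (by decide +kernel))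 (Cone.splitR (Cone.vac (n₁ := 38912) (by decide +kernel)) (Cone.splitR (Cone.vac (n₁ := 39936) (by decide +kernel)) (Cone.splitR (Cone.vac (n₁ := 40960) (by decide +kernel)) (Cone.splitR (Cone.vac (n₁ := 41984) (by decide +kernel)) (Cone.splitR (Cone.vac (n₁ := 43008) (by decide +kernel)) (Cone.splitR (Cone.vac (n₁ := 44032) (by decide +kernel)) (Cone.vac (n₁ := 45056) (by decide +kernel)))))))))))))))))))))

theorem cone48 : Cone 25600 45133 48 60 :=
  (Cone.splitR k345_cone (Cone.splitR k346_cone (Cone.splitR k347_cone (Cone.splitR k348_cone (Cone.splitR k349_cone (Cone.splitR k350_cone (Cone.splitR k351_cone (Cone.splitR k352_cone (Cone.splitR (Cone.splitN (Cone.vac (n₁ := 33792) (by decide +kernel)) k353_cone) (Cone.splitR k354_cone (Cone.splitR (Cone.vac (n₁ := 35840) (by decide +kernel)) (Cone.splitR (Cone.vac (n₁ := 36864) (by decide +kernel)) (Cone.splitR (Cone.vac (n₁ := 37888) (by decide +kernel)) (Cone.splitR (Cone.vac (n₁ := 38912) (by decide +kernel)) (Cone.splitR (Cone.vac (n₁ := 39936) (by decide +kernel)) (Cone.splitR (Cone.vac (n₁ := 40960) (by decide +kernel)) (Cone.splitR (Cone.vac (n₁ := 41984) (by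 decide +kernel)) (Cone.splitR (Cone.vac (n₁ := 43008) (by decide +kernel)) (Cone.splitR (Cone.vac (n₁ := 44032) (by decide +kernel)) (Cone.vac (n₁ := 45056) (by decide +kernel)))))))))))))))))))))

theorem cone61 : Cone 25600 45133 61 76 :=
  (Cone.splitR k355_cone (Cone.splitR k356_cone (Cone.splitR k357_cone (Cone.splitR k358_cone (Cone.splitR k359_cone (Cone.splitR k360_cone (Cone.splitR k361_cone (Cone.splitR k362_cone (Cone.splitR k363_cone (Cone.splitR k364_cone (Cone.splitR k365_cone (Cone.splitR k366_cone (Cone.splitR (Cone.splitN (Cone.vac (n₁ := 37888) (by decide +kernel)) k367_cone) (Cone.splitR (Cone.vac (n₁ := 38912) (by decide +kernel)) (Cone.splitR (Cone.vac (n₁ := 39936) (by decide +kernel)) (Cone.splitR (Cone.vac (n₁ := 40960) (by decide +kernel)) (Cone.splitR (Cone.vac (n₁ := 41984) (by decide +kernel)) (Cone.splitR (Cone.vac (n₁ := 43008) (by decide +kernel)) (Cone.splitR (Cone.vac (n₁ := 44032) (by decide +kernel)) (Cone.vac (n₁ := 45056) (by decide +kernel)))))))))))))))))))))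

theorem cone77 : Cone 25600 45133 77 96 :=
  (Cone.splitR k368_cone (Cone.splitR k369_cone (Cone.splitR k370_cone (Cone.splitR k371_cone (Cone.splitR k372_cone (Cone.splitR k373_cone (Cone.splitR k374_cone (Cone.splitR k375_cone (Cone.splitR k376_cone (Cone.splitR k377_cone (Cone.splitR k378_cone (Cone.splitR k379_cone (Cone.splitR (Cone.splitN k380_cone k381_cone) (Cone.splitR k382_cone (Cone.splitR k383_cone (Cone.splitR (Cone.splitN (Cone.vac (n₁ := 40960) (by decide +kernel)) k384_cone) (Cone.splitR (Cone.vac (n₁ := 41984) (by decide +kernel)) (Cone.splitR (Cone.vac (n₁ := 43008) (by decide +kernel)) (Cone.splitR (Cone.vac (n₁ := 44032) (by decide +kernel)) (Cone.vac (n₁ := 45056) (by decide +kernel)))))))))))))))))))))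

theorem cone97 : Cone 25600 45133 97 121 :=
  (Cone.splitR k385_cone (Cone.splitR k386_cone (Cone.splitR k387_cone (Cone.splitR k388_cone (Cone.splitR k389_cone (Cone.splitR k390_cone (Cone.splitR k391_cone (Cone.splitR k392_cone (Cone.splitR k393_cone (Cone.splitR k394_cone (Cone.splitR k395_cone (Cone.splitR k396_cone (Cone.splitR (Cone.splitN k397_cone k398_cone) (Cone.splitR k399_cone (Cone.splitR k400_cone (Cone.splitR k401_cone (Cone.splitR (Cone.splitN (Cone.splitR k402_cone (Cone.vac (n₁ := 42496) (by decide +kernel))) (Cone.splitR k403_cone k404_cone)) (Cone.splitR k405_cone (Cone.splitR (Cone.vac (n₁ := 44032) (by decide +kernel)) (Cone.vac (n₁ := 45056) (by decide +kernel)))))))))))))))))))))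

theorem cone122 : Cone 25600 45133 122 149 :=
  (Cone.splitR k406_cone (Cone.splitR k407_cone (Cone.splitR k408_cone (Cone.splitR k409_cone (Cone.splitR k410_cone (Cone.splitR k411_cone (Cone.splitR k412_cone (Cone.splitR k413_cone (Cone.splitR k414_cone (Cone.splitR k415_cone (Cone.splitR k416_cone (Cone.splitR k417_cone (Cone.splitR (Cone.splitN k418_cone k419_cone) (Cone.splitR k420_cone (Cone.splitR k421_cone (Cone.splitR k422_cone (Cone.splitR (Cone.splitN (Cone.splitR k423_cone k424_cone) (Cone.splitR k425_cone k426_cone)) (Cone.splitR k427_cone (Cone.splitR (Cone.splitN (Cone.vac (n₁ := 44032) (by decide +kernel)) (Cone.splitR k428_cone k429_cone)) (Cone.vac (n₁ := 45056) (by decide +kernel)))))))))))))))))))))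

theorem cone150 : Cone' 25600 45133 150 :=
  (Cone'.splitR k430_cone (Cone'.splitR k431_cone (Cone'.splitR k432_cone (Cone'.splitR k433_cone (Cone'.splitR k434_cone (Cone'.splitR k435_cone (Cone'.splitR k436_cone (Cone'.splitR k437_cone (Cone'.splitR k438_cone (Cone'.splitR k439_cone (Cone'.splitR k440_cone (Cone'.splitR k441_cone (Cone'.splitR (Cone'.splitR k442_cone k443_cone) (Cone'.splitR k444_cone (Cone'.splitR k445_cone (Cone'.splitR (Cone'.splitR k446_cone k447_cone) (Cone'.splitR (Cone'.splitR k448_cone k449_cone) (Cone'.splitR k450_cone (Cone'.splitR (Cone'.splitR k451_cone k452_cone) k453_cone)))))))))))))))))))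

end Pool.Agent.NF
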