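import Mathlib
import Pool.Agent.Helper43.NF.All

/-!
# The gap argument
-/

set_option autoImplicit false

namespace Pool.Agent.NF

open Finset intervalIntegral Pool.Agent.Helper73.KS

/-! ### bounds for the Bernstein densities -/

lemma gpow {u : ℝ} (hu : 0 ≤ u) : ∀ n : ℕ, 0 ≤ n * u ^ (n + 1) - (n + 1) * u ^ n + 1 := by
  intro n
  induction n with
  | zero => simp
  | succ n ih =>
    have h1 : 0 ≤ (u - 1) * (u ^ (n + 1) - 1) := by
      rcases le_total 1 u with h | h
      · exact mul_nonneg (by linarith) (by have := one_le_pow₀ h (n := n + 1); linarith)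
      · exact mul_nonneg_of_nonpos_of_nonpos (by linarith)
          (by have := pow_le_one₀ hu h (n := n + 1); linarith)
    have h2 : ((n + 1 : ℕ) : ℝ) * u ^ (n + 1 + 1) - (((n + 1 : ℕ) : ℝ) + 1) * u ^ (n + 1) + 1 =
        u * (n * u ^ (n + 1) - (n + 1) * u ^ n + 1) + (u - 1) * (u ^ (n + 1) - 1) := by
      push_cast
      ring
    rw [h2]
    exact add_nonneg (mul_nonneg hu ih) h1

lemma bern2 {x : ℝ} (hx : 0 ≤ x) : ∀ m : ℕ, 1 + m * x + m * (m - 1) / 2 * x ^ 2 ≤ (1 + x) ^ m := by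
  intro m
  induction m with
  | zero => simp
  | succ m ih =>
    have h1 : (1 + m * x + m * (m - 1) / 2 * x ^ 2) * (1 + x) ≤ (1 + x) ^ (m + 1) := by
      rw [pow_succ]
      exact mul_le_mul_of_nonneg_right ih (by linarith)
    have h2 : (0:ℝ) ≤ m * (m - 1) / 2 * x ^ 3 := by
      rcases Nat.eq_zero_or_pos m with h | h
      · rw [h]; simp
      · have : (1:ℝ) ≤ m := by exact_mod_cast h
        have h3 : 0 ≤ (m : ℝ) - 1 := by linarith
        positivity
    refine le_trans ?_ h1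
    push_cast
    nlinarith

lemma edge_const {n : ℕ} (hn : 2 ≤ n) : ((n : ℝ) / (n + 1)) ^ n ≤ 4 / 9 := by
  have hn' : (2:ℝ) ≤ n := by exact_mod_cast hn
  have h1 := bern2 (x := 1 / (n : ℝ)) (by positivity) n
  have h2 : (9 / 4 : ℝ) ≤ (1 + 1 / (n : ℝ)) ^ n := by
    refine le_trans ?_ h1
    have e : 1 + (n : ℝ) * (1 / n) + n * (n - 1) / 2 * (1 / (n : ℝ)) ^ 2 =
        5 / 2 - 1 / (2 * n) := by
      field_simp
      ring
    rw [e]
    have : 1 / (2 * (n : ℝ)) ≤ 1 / (2 * 2) := by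
      apply one_div_le_one_div_of_le <;> linarith
    linarith
  have h3 : ((n : ℝ) / (n + 1)) ^ n * (1 + 1 / (n : ℝ)) ^ n = 1 := by
    rw [← mul_pow]
    have : (n : ℝ) / (n + 1) * (1 + 1 / (n : ℝ)) = 1 := by field_simp
    rw [this, one_pow]
  have h4 : 0 ≤ ((n : ℝ) / (n + 1)) ^ n := by positivity
  nlinarith

lemma edge {n : ℕ} (hn : 2 ≤ n) {t : ℝ} (h1 : t ≤ 1) :
    ((n : ℝ) + 1) * t * (1 - t) ^ n ≤ 4 / 9 := by
  have hn' : (2:ℝ) ≤ n := by exact_mod_cast hn
  have h2 := gpow (u := (1 - t) * (n + 1) / n)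
    (div_nonneg (mul_nonneg (by linarith) (by linarith)) (by linarith)) n
  set u := (1 - t) * (n + 1) / n with hu
  have e1 : 1 - t = u * (n / (n + 1)) := by rw [hu]; field_simp
  have e2 : ((n : ℝ) + 1) * t = (n + 1) - n * u := by rw [hu]; field_simp; ring
  rw [e2, e1, mul_pow]
  have h3 : 0 ≤ ((n : ℝ) / (n + 1)) ^ n := by positivity
  have h4 : ((n : ℝ) + 1 - n * u) * u ^ n ≤ 1 := by
    have : n * u ^ (n + 1) = n * u * u ^ n := by ring
    nlinarith
  calc ((n : ℝ) + 1 - n * u) * (u ^ n * ((n : ℝ) / (n + 1)) ^ n)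
      = (((n : ℝ) + 1 - n * u) * u ^ n) * ((n : ℝ) / (n + 1)) ^ n := by ring
    _ ≤ 1 * ((n : ℝ) / (n + 1)) ^ n := mul_le_mul_of_nonneg_right h4 h3
    _ ≤ 4 / 9 := by rw [one_mul]; exact edge_const hn

lemma bin_bound : ∀ n k : ℕ, 3 ≤ n → 1 ≤ k → k + 1 ≤ n → ∀ t : ℝ, 0 ≤ t → t ≤ 1 →
    (n.choose k : ℝ) * t ^ k * (1 - t) ^ (n - k) ≤ 4 / 9 := by
  intro n
  induction n with
  | zero => intro k h; omega
  | succ n ih =>
    intro k hn hk1 hk2 t h0 h1
    rcases Nat.eq_or_lt_of_le hk1 with h | h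
    · rw [← h, Nat.choose_one_right, pow_one, Nat.add_sub_cancel]
      push_cast
      exact edge (by omega) h1
    rcases Nat.eq_or_lt_of_le hk2 with h' | h'
    · have e : n + 1 - k = 1 := by omega
      have e2 : (n + 1).choose k = n + 1 := by
        rw [show k = n by omega]
        exact Nat.choose_succ_self_right n
      rw [e, e2, pow_one, show k = n by omega]
      have := edge (n := n) (by omega) (t := 1 - t) (by linarith)
      rw [sub_sub_cancel] at this
      push_cast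
      linarith
    · obtain ⟨k, rfl⟩ : ∃ k', k = k' + 1 := ⟨k - 1, by omega⟩
      have a1 := ih (k + 1) (by omega) (by omega) (by omega) t h0 h1
      have a2 := ih k (by omega) (by omega) (by omega) t h0 h1
      have e : (((n + 1).choose (k + 1) : ℕ) : ℝ) * t ^ (k + 1) * (1 - t) ^ (n + 1 - (k + 1)) =
          (1 - t) * ((n.choose (k + 1) : ℝ) * t ^ (k + 1) * (1 - t) ^ (n - (k + 1))) +
            t * ((n.choose k : ℝ) * t ^ k * (1 - t) ^ (n - k)) := by
        rw [Nat.choose_succ_succ]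
        have e1 : n + 1 - (k + 1) = (n - (k + 1)) + 1 := by omega
        have e2 : n - k = (n - (k + 1)) + 1 := by omega
        rw [e1, e2]
        push_cast
        ring
      rw [e]
      have b1 := mul_le_mul_of_nonneg_left a1 (show 0 ≤ 1 - t by linarith)
      have b2 := mul_le_mul_of_nonneg_left a2 h0
      linarith

lemma bet_bound {b p : ℕ} (hb : 4 ≤ b) (h1 : 1 ≤ p) (h2 : p + 2 ≤ b) {t : ℝ} (h0 : 0 ≤ t)
    (h1' : t ≤ 1) : bet (b - 1) p t ≤ 4 / 9 * b := by
  unfold bet
  have h := bin_bound (b - 1) p (by omega) h1 (by omega) t h0 h1'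
  have e : (((b - 1 : ℕ) : ℝ) + 1) = b := by
    have : ((b - 1 : ℕ) : ℝ) = b - 1 := by rw [Nat.cast_sub (by omega)]; simp
    rw [this]; ring
  rw [e]
  have hb' : (0:ℝ) ≤ b := Nat.cast_nonneg b
  nlinarith

/-! ### the steps of the comparison function -/

/-- the density bound for a law -/
def Dn (b oy : ℕ) (y : ℕ × List ℕ) (Λ : ℝ) (den : ℕ) : Prop := ∀ t : ℝ, 0 ≤ t → t ≤ 1 →
  ∑ j ∈ range y.2.length, ((nth 0 j y.2 : ℕ) : ℝ) * bet (b - 1) (oy + y.1 + j) t ≤ Λ * den

/-- the comparison function of a law: probability that the `I`-th of `a` points is before -/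
noncomputable def Ph (a b oy : ℕ) (y : ℕ × List ℕ) (I : ℕ) : ℝ :=
  ∑ j ∈ range y.2.length, ((nth 0 j y.2 : ℕ) : ℝ) * P a b I (oy + y.1 + j + 1)

lemma Ph_int {a b oy : ℕ} {y : ℕ × List ℕ} (hy : oy + (y.1 + y.2.length) ≤ b) (I : ℕ) :
    Ph a b oy y I = ∫ t in (0:ℝ)..1, tl a I t *
      ∑ j ∈ range y.2.length, ((nth 0 j y.2 : ℕ) : ℝ) * bet (b - 1) (oy + y.1 + j) t := by
  unfold Ph
  have e : ∀ t : ℝ, tl a I t *
      ∑ j ∈ range y.2.length, ((nth 0 j y.2 : ℕ) : ℝ) * bet (b - 1) (oy + y.1 + j) t =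
      ∑ j ∈ range y.2.length, ((nth 0 j y.2 : ℕ) : ℝ) * (tl a I t * bet (b - 1) (oy + y.1 + j) t) := by
    intro t
    rw [Finset.mul_sum]
    exact Finset.sum_congr rfl fun j _ => by ring
  simp only [e]
  rw [intervalIntegral.integral_finsetSum]
  · refine Finset.sum_congr rfl fun j hj => ?_
    have hj' := Finset.mem_range.1 hj
    rw [intervalIntegral.integral_const_mul, int_tl (by omega)]
    rw [show b - 1 + 1 = b by omega]
  · intro j _
    exact Continuous.intervalIntegrable (by fun_prop) _ _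

lemma Ph_top (a b oy : ℕ) (y : ℕ × List ℕ) : Ph a b oy y (a + 1) = 0 := by
  unfold Ph
  refine Finset.sum_eq_zero fun j _ => ?_
  have : P a b (a + 1) (oy + y.1 + j + 1) = 0 := by
    unfold P Pn
    simp
  rw [this, mul_zero]

lemma Ph_zero {a b oy : ℕ} {y : ℕ × List ℕ} (hy : oy + (y.1 + y.2.length) ≤ b) {den : ℕ}
    (hs : ∑ k ∈ range y.2.length, nth 0 k y.2 = den) : Ph a b oy y 0 = den := by
  unfold Ph
  rw [← hs]
  push_cast
  refine Finset.sum_congr rfl fun j hj => ?_
  have hj' := Finset.mem_range.1 hj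
  rw [P_zero (by omega) (by omega), mul_one]

lemma Ph_step {a b oy : ℕ} {y : ℕ × List ℕ} (hy : oy + (y.1 + y.2.length) ≤ b) {Λ : ℝ} {den : ℕ}
    (hD : Dn b oy y Λ den) {I : ℕ} (hI : I ≤ a) :
    Ph a b oy y (I + 1) ≤ Ph a b oy y I ∧
      Ph a b oy y I - Ph a b oy y (I + 1) ≤ Λ / (a + 1) * den := by
  rw [Ph_int hy I, Ph_int hy (I + 1)]
  set g : ℝ → ℝ := fun t =>
    ∑ j ∈ range y.2.length, ((nth 0 j y.2 : ℕ) : ℝ) * bet (b - 1) (oy + y.1 + j) t with hg
  have hgc : Continuous g := by rw [hg]; fun_prop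
  have hg0 : ∀ t, 0 ≤ t → t ≤ 1 → 0 ≤ g t := fun t h0 h1 =>
    Finset.sum_nonneg fun j _ => mul_nonneg (Nat.cast_nonneg _) (bet_nonneg h0 h1)
  have hi : ∀ K : ℕ, IntervalIntegrable (fun t => tl a K t * g t) MeasureTheory.volume 0 1 :=
    fun K => Continuous.intervalIntegrable (by fun_prop) _ _
  have e : (∫ t in (0:ℝ)..1, tl a I t * g t) - (∫ t in (0:ℝ)..1, tl a (I + 1) t * g t) =
      ∫ t in (0:ℝ)..1, bet a I t / (a + 1) * g t := by
    rw [← intervalIntegral.integral_sub (hi I) (hi (I + 1))]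
    refine intervalIntegral.integral_congr fun t _ => ?_
    change tl a I t * g t - tl a (I + 1) t * g t = bet a I t / (a + 1) * g t
    rw [tl_succ hI]
    unfold bet
    have : (a : ℝ) + 1 ≠ 0 := by positivity
    field_simp
    ring
  have ha : (0:ℝ) < a + 1 := by positivity
  constructor
  · have h1 : 0 ≤ ∫ t in (0:ℝ)..1, bet a I t / (a + 1) * g t :=
      intervalIntegral.integral_nonneg zero_le_one fun t ht =>
        mul_nonneg (div_nonneg (bet_nonneg ht.1 ht.2) ha.le) (hg0 t ht.1 ht.2)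
    linarith
  · rw [e]
    have h1 : ∫ t in (0:ℝ)..1, bet a I t / (a + 1) * g t ≤
        ∫ t in (0:ℝ)..1, (Λ / (a + 1) * den) * bet a I t := by
      refine intervalIntegral.integral_mono_on zero_le_one
        (Continuous.intervalIntegrable (by fun_prop) _ _)
        (Continuous.intervalIntegrable (by fun_prop) _ _) fun t ht => ?_
      have h2 := hD t ht.1 ht.2
      have h3 := mul_le_mul_of_nonneg_left h2 (div_nonneg (bet_nonneg (n := a) (i := I) ht.1 ht.2) ha.le)
      refine h3.trans (le_of_eq ?_)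
      ring
    rw [intervalIntegral.integral_const_mul, bet_int hI, mul_one] at h1
    exact h1

/-! ### the walk through the blocks -/

/-- tail weights of a law -/
noncomputable def Tl (x : ℕ × List ℕ) (p : ℕ) : ℕ :=
  ∑ i ∈ range x.2.length, if p < x.1 + i + 1 then nth 0 i x.2 else 0

/-- sums over an initial segment, for the kernel -/
noncomputable def rsum (n : ℕ) (f : ℕ → ℕ) : ℕ := @Nat.rec (fun _ => ℕ) 0 (fun m ih => ih + f m) n

lemma rsum_eq (n : ℕ) (f : ℕ → ℕ) : rsum n f = ∑ i ∈ range n, f i := by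
  induction n with
  | zero => rfl
  | succ n ih =>
    change rsum n f + f n = _
    rw [ih, Finset.sum_range_succ]

/-- tail weights, for the kernel -/
noncomputable def tlk (w : List ℕ) : ℕ → ℕ → ℕ :=
  @List.rec ℕ (fun _ => ℕ → ℕ → ℕ) (fun _ _ => 0)
    (fun a _ ih lo p => (@Bool.casesOn (fun _ => ℕ) (Nat.ble (p + 1) (lo + 1)) 0 a) +
      ih (lo + 1) p) w

lemma tlk_eq : ∀ (w : List ℕ) (lo p : ℕ), tlk w lo p = Tl (lo, w) p := by
  intro w
  induction w with
  | nil => intro lo p; rfl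
  | cons a w ih =>
    intro lo p
    have e : tlk (a :: w) lo p = (@Bool.casesOn (fun _ => ℕ) (Nat.ble (p + 1) (lo + 1)) 0 a) +
      tlk w (lo + 1) p := rfl
    rw [e, ih]
    unfold Tl
    rw [List.length_cons, Finset.sum_range_succ']
    have e2 : (@Bool.casesOn (fun _ => ℕ) (Nat.ble (p + 1) (lo + 1)) 0 a) =
        if p < lo + 0 + 1 then nth 0 0 (a :: w) else 0 := by
      cases h : Nat.ble (p + 1) (lo + 1) with
      | true =>
        have h' := Nat.le_of_ble_eq_true h
        rw [if_pos (by omega)]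
        rfl
      | false =>
        have h' : ¬ (p + 1 ≤ lo + 1) := fun hh => by
          rw [Nat.ble_eq_true_of_le hh] at h
          exact absurd h (by simp)
        rw [if_neg (by omega)]
    rw [e2, add_comm]
    congr 1
    refine Finset.sum_congr rfl fun i _ => ?_
    rw [nth_succ]
    have : (p < lo + 1 + i + 1) ↔ (p < lo + (i + 1) + 1) := by omega
    simp only [this]

/-- consecutive pairs -/
noncomputable def chn (f : (ℕ × List ℕ) → (ℕ × List ℕ) → Bool) (l : List (ℕ × List ℕ)) :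
    (ℕ × List ℕ) → Bool :=
  @List.rec (ℕ × List ℕ) (fun _ => (ℕ × List ℕ) → Bool) (fun _ => true)
    (fun a _ ih b => f b a && ih a) l

/-- last law -/
noncomputable def lst (l : List (ℕ × List ℕ)) : (ℕ × List ℕ) → (ℕ × List ℕ) :=
  @List.rec (ℕ × List ℕ) (fun _ => (ℕ × List ℕ) → (ℕ × List ℕ)) (fun b => b)
    (fun a _ ih _ => ih a) l

/-- the numerical conditions for a block -/
noncomputable def gapOK (l : Ltr) : Bool :=
  Nat.ble (10 * rsum l.sz (fun p => tlk (nth (0, []) 0 l.laws).2 (nth (0, []) 0 l.laws).1 p))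
      (18 * l.den) &&
    (chn (fun x y => Nat.ble (10 * rsum l.sz (fun p => tlk y.2 y.1 p - tlk x.2 x.1 p))
      (26 * l.den)) (drp 1 l.laws) (nth (0, []) 0 l.laws) &&
    Nat.ble (10 * rsum l.sz (fun p => l.den - tlk (lst (drp 1 l.laws) (nth (0, []) 0 l.laws)).2
      (lst (drp 1 l.laws) (nth (0, []) 0 l.laws)).1 p)) (8 * l.den))

theorem LS_gap : allL gapOK LS = true := by decide +kernel

lemma dsum_le {n : ℕ} {D : ℕ → ℝ} {s : ℝ} (h0 : ∀ p < n, 0 ≤ D p) (h1 : ∀ p < n, D p ≤ s)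
    (T₁ T₂ : ℕ → ℕ) : ∑ p ∈ range n, D p * T₂ p - ∑ p ∈ range n, D p * T₁ p ≤
      s * ((∑ p ∈ range n, (T₂ p - T₁ p) : ℕ) : ℝ) := by
  rw [← Finset.sum_sub_distrib]
  push_cast
  rw [Finset.mul_sum]
  refine Finset.sum_le_sum fun p hp => ?_
  have hp' := Finset.mem_range.1 hp
  have a0 := h0 p hp'
  have a1 := h1 p hp'
  have e : (T₂ p : ℝ) - T₁ p ≤ ((T₂ p - T₁ p : ℕ) : ℝ) := by
    rcases Nat.le_total (T₁ p) (T₂ p) with h | h
    · rw [Nat.cast_sub h]
    · rw [Nat.sub_eq_zero_of_le h]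
      have : (T₂ p : ℝ) ≤ T₁ p := by exact_mod_cast h
      push_cast
      linarith
  have e2 : (0:ℝ) ≤ ((T₂ p - T₁ p : ℕ) : ℝ) := Nat.cast_nonneg _
  calc D p * T₂ p - D p * T₁ p = D p * ((T₂ p : ℝ) - T₁ p) := by ring
    _ ≤ D p * ((T₂ p - T₁ p : ℕ) : ℝ) := mul_le_mul_of_nonneg_left e a0
    _ ≤ s * ((T₂ p - T₁ p : ℕ) : ℝ) := mul_le_mul_of_nonneg_right a1 e2

/-- the value of a law at a comparison function -/
noncomputable def Vl (Ψ : ℕ → ℝ) (o : ℕ) (x : ℕ × List ℕ) : ℝ :=
  ∑ i ∈ range x.2.length, ((nth 0 i x.2 : ℕ) : ℝ) * Ψ (o + x.1 + i + 1)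

lemma tele (Ψ : ℕ → ℝ) (o : ℕ) : ∀ k n : ℕ, k ≤ n → Ψ (o + k) = Ψ o -
    ∑ p ∈ range n, (Ψ (o + p) - Ψ (o + p + 1)) * (if p < k then 1 else 0) := by
  intro k n hk
  have h1 : ∑ p ∈ range n, (Ψ (o + p) - Ψ (o + p + 1)) * (if p < k then (1:ℝ) else 0) =
      ∑ p ∈ range k, (Ψ (o + p) - Ψ (o + p + 1)) := by
    obtain ⟨d, rfl⟩ : ∃ d, n = k + d := ⟨n - k, by omega⟩
    rw [Finset.sum_range_add]
    have : ∑ x ∈ range d, (Ψ (o + (k + x)) - Ψ (o + (k + x) + 1)) *
        (if k + x < k then (1:ℝ) else 0) = 0 := by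
      refine Finset.sum_eq_zero fun x _ => ?_
      rw [if_neg (by omega), mul_zero]
    rw [this, add_zero]
    refine Finset.sum_congr rfl fun x hx => ?_
    rw [if_pos (Finset.mem_range.1 hx), mul_one]
  rw [h1]
  have h2 := Finset.sum_range_sub' (fun p => Ψ (o + p)) k
  simp only [Nat.add_zero] at h2
  have h3 : ∑ p ∈ range k, (Ψ (o + p) - Ψ (o + p + 1)) = Ψ o - Ψ (o + k) := h2
  rw [h3]
  ring

lemma Vl_eq (Ψ : ℕ → ℝ) (o : ℕ) {x : ℕ × List ℕ} {n : ℕ} (hx : x.1 + x.2.length ≤ n) {den : ℕ}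
    (hs : ∑ k ∈ range x.2.length, nth 0 k x.2 = den) :
    Vl Ψ o x = den * Ψ o - ∑ p ∈ range n, (Ψ (o + p) - Ψ (o + p + 1)) * Tl x p := by
  unfold Vl Tl
  have e1 : ∀ i ∈ range x.2.length, ((nth 0 i x.2 : ℕ) : ℝ) * Ψ (o + x.1 + i + 1) =
      ((nth 0 i x.2 : ℕ) : ℝ) * Ψ o - ∑ p ∈ range n, (Ψ (o + p) - Ψ (o + p + 1)) *
        (if p < x.1 + i + 1 then ((nth 0 i x.2 : ℕ) : ℝ) else 0) := by
    intro i hi
    have hi' := Finset.mem_range.1 hi
    rw [show o + x.1 + i + 1 = o + (x.1 + i + 1) by ring, tele Ψ o (x.1 + i + 1) n (by omega),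
      mul_sub, Finset.mul_sum]
    congr 1
    refine Finset.sum_congr rfl fun p _ => ?_
    split_ifs <;> ring
  rw [Finset.sum_congr rfl e1, Finset.sum_sub_distrib, ← Finset.sum_mul, Finset.sum_comm]
  rw [← hs]
  push_cast
  congr 1
  refine Finset.sum_congr rfl fun p _ => ?_
  rw [Finset.mul_sum]

/-- walking through one block -/
lemma block_step {l : Ltr} (hl : gapOK l = true) (hne : 1 ≤ l.laws.length) (hden : 1 ≤ l.den)
    (hlaw : ∀ x ∈ l.laws, x.1 + x.2.length ≤ l.sz ∧ ∑ k ∈ range x.2.length, nth 0 k x.2 = l.den)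
    {Ψ : ℕ → ℝ} {o : ℕ} {σ D : ℝ} (hD : 0 < D) (hσ : σ ≤ 7 / 117)
    (h0 : ∀ p < l.sz, 0 ≤ Ψ (o + p) - Ψ (o + p + 1))
    (h1 : ∀ p < l.sz, Ψ (o + p) - Ψ (o + p + 1) ≤ σ * D)
    (hU : ∀ x ∈ l.laws, ¬ (19 / 45 * (l.den * D) ≤ Vl Ψ o x ∧ Vl Ψ o x ≤ 26 / 45 * (l.den * D)))
    (hs : (26 / 45 - 4 / 5 * σ) * D < Ψ o) : (26 / 45 - 4 / 5 * σ) * D < Ψ (o + l.sz) := by
  obtain ⟨sz, den, wd, bn, bd, laws⟩ := l
  simp only at hne hden hlaw h0 h1 hU ⊢
  cases laws with
  | nil => simp at hne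
  | cons x₀ rest =>
  unfold gapOK at hl
  simp only [Bool.and_eq_true, nth_zero] at hl
  obtain ⟨g1, g2, g3⟩ := hl
  have g1' := Nat.le_of_ble_eq_true g1
  have g3' := Nat.le_of_ble_eq_true g3
  clear g1 g3
  simp only [rsum_eq, tlk_eq] at g1' g3'
  change chn _ rest x₀ = true at g2
  change 10 * ∑ i ∈ range sz, (den - Tl ((lst rest x₀).1, (lst rest x₀).2) i) ≤ 8 * den at g3'
  have hden' : (0:ℝ) < den := by exact_mod_cast hden
  have hD' : 0 < (den : ℝ) * D := mul_pos hden' hD
  set Δ : ℕ → ℝ := fun p => Ψ (o + p) - Ψ (o + p + 1) with hΔ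
  have key : ∀ x ∈ x₀ :: rest, 19 / 45 * (den * D) ≤ Vl Ψ o x → 26 / 45 * (den * D) < Vl Ψ o x := by
    intro x hx h2
    by_contra h3
    push Not at h3
    exact hU x hx ⟨h2, h3⟩
  -- first law
  have f1 : 26 / 45 * (den * D) < Vl Ψ o x₀ := by
    refine key x₀ List.mem_cons_self ?_
    obtain ⟨a1, a2⟩ := hlaw x₀ List.mem_cons_self
    rw [Vl_eq Ψ o a1 a2]
    have h2 := dsum_le (n := sz) (D := Δ) h0 h1 (fun _ => 0) (Tl x₀)
    simp only [Nat.sub_zero, Nat.cast_zero, mul_zero, Finset.sum_const_zero, sub_zero] at h2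
    have h3 : (10 * ((∑ p ∈ range sz, Tl x₀ p : ℕ) : ℝ)) ≤ 18 * den := by exact_mod_cast g1'
    have hσ0 : 0 ≤ σ * D ∨ σ * D < 0 := le_or_gt _ _
    rcases hσ0 with hσ0 | hσ0
    · have h4 : σ * D * ((∑ p ∈ range sz, Tl x₀ p : ℕ) : ℝ) ≤ σ * D * (9 / 5 * den) :=
        mul_le_mul_of_nonneg_left (by linarith) hσ0
      have h5 : den * ((26 / 45 - 4 / 5 * σ) * D) < den * Ψ o := mul_lt_mul_of_pos_left hs hden'
      have h6 : σ * (den * D) ≤ 7 / 117 * (den * D) := mul_le_mul_of_nonneg_right hσ hD'.le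
      change 19 / 45 * (den * D) ≤ den * Ψ o - ∑ p ∈ range sz, Δ p * Tl x₀ p
      nlinarith
    · exfalso
      rcases Nat.eq_zero_or_pos sz with hz | hz
      · have a3 := a1
        have hlen : x₀.2.length = 0 := by omega
        rw [hlen, Finset.sum_range_zero] at a2
        omega
      · have := h0 0 hz
        have := h1 0 hz
        linarith
  -- the chain
  have f2 : ∀ (ls : List (ℕ × List ℕ)) (x : ℕ × List ℕ), (∀ y ∈ ls, y ∈ x₀ :: rest) →
      x ∈ x₀ :: rest → chn (fun x y => Nat.ble (10 * rsum sz (fun p => tlk y.2 y.1 p -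
        tlk x.2 x.1 p)) (26 * den)) ls x = true → 26 / 45 * (den * D) < Vl Ψ o x →
      lst ls x ∈ x₀ :: rest ∧ 26 / 45 * (den * D) < Vl Ψ o (lst ls x) := by
    intro ls
    induction ls with
    | nil => intro x _ hx _ h2; exact ⟨hx, h2⟩
    | cons y ls ih =>
      intro x hls hx hc h2
      have hc' : (Nat.ble (10 * rsum sz (fun p => tlk y.2 y.1 p - tlk x.2 x.1 p)) (26 * den) &&
        chn (fun x y => Nat.ble (10 * rsum sz (fun p => tlk y.2 y.1 p -
        tlk x.2 x.1 p)) (26 * den)) ls y) = true := hc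
      rw [Bool.and_eq_true] at hc'
      obtain ⟨c1, c2⟩ := hc'
      have c1' := Nat.le_of_ble_eq_true c1
      simp only [rsum_eq, tlk_eq] at c1'
      have hy := hls y List.mem_cons_self
      refine ih y (fun z hz => hls z (List.mem_cons_of_mem _ hz)) hy c2 ?_
      refine key y hy ?_
      obtain ⟨a1, a2⟩ := hlaw x hx
      obtain ⟨b1, b2⟩ := hlaw y hy
      rw [Vl_eq Ψ o a1 a2] at h2
      rw [Vl_eq Ψ o b1 b2]
      have h3 := dsum_le (n := sz) (D := Δ) h0 h1 (Tl x) (Tl y)
      have h4 : (10 * ((∑ p ∈ range sz, (Tl y p - Tl x p) : ℕ) : ℝ)) ≤ 26 * den := by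
        exact_mod_cast c1'
      rcases le_or_gt 0 (σ * D) with hσ0 | hσ0
      · have h5 : σ * D * ((∑ p ∈ range sz, (Tl y p - Tl x p) : ℕ) : ℝ) ≤
            σ * D * (13 / 5 * den) := mul_le_mul_of_nonneg_left (by linarith) hσ0
        have h6 : σ * (den * D) ≤ 7 / 117 * (den * D) := mul_le_mul_of_nonneg_right hσ hD'.le
        change 26 / 45 * (den * D) < den * Ψ o - ∑ p ∈ range sz, Δ p * Tl x p at h2
        change 19 / 45 * (den * D) ≤ den * Ψ o - ∑ p ∈ range sz, Δ p * Tl y p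
        nlinarith
      · exfalso
        rcases Nat.eq_zero_or_pos sz with hz | hz
        · have hlen : x.2.length = 0 := by omega
          rw [hlen, Finset.sum_range_zero] at a2
          omega
        · have := h0 0 hz
          have := h1 0 hz
          linarith
  obtain ⟨f3, f4⟩ := f2 rest x₀ (fun y hy => List.mem_cons_of_mem _ hy) List.mem_cons_self g2 f1
  obtain ⟨a1, a2⟩ := hlaw _ f3
  rw [Vl_eq Ψ o a1 a2] at f4
  have h2 := dsum_le (n := sz) (D := Δ) h0 h1 (Tl (lst rest x₀)) (fun _ => den)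
  have h3 : (10 * ((∑ p ∈ range sz, (den - Tl (lst rest x₀) p) : ℕ) : ℝ)) ≤ 8 * den := by
    exact_mod_cast g3'
  have h4 := tele Ψ o sz sz le_rfl
  have h5 : ∑ p ∈ range sz, (Ψ (o + p) - Ψ (o + p + 1)) * (if p < sz then (1:ℝ) else 0) =
      ∑ p ∈ range sz, Δ p := by
    refine Finset.sum_congr rfl fun p hp => ?_
    rw [if_pos (Finset.mem_range.1 hp), mul_one]
  rw [h5] at h4
  have h6 : ∑ p ∈ range sz, Δ p * (den : ℝ) = den * ∑ p ∈ range sz, Δ p := by
    rw [Finset.mul_sum]
    exact Finset.sum_congr rfl fun p _ => by ring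
  rw [h6] at h2
  have hgoal : den * ((26 / 45 - 4 / 5 * σ) * D) < den * Ψ (o + sz) := by
    rcases le_or_gt 0 (σ * D) with hσ0 | hσ0
    · have h7 : σ * D * ((∑ p ∈ range sz, (den - Tl (lst rest x₀) p) : ℕ) : ℝ) ≤
          σ * D * (4 / 5 * den) := mul_le_mul_of_nonneg_left (by linarith) hσ0
      change 26 / 45 * (den * D) < den * Ψ o - ∑ p ∈ range sz, Δ p * Tl (lst rest x₀) p at f4
      rw [h4]
      nlinarith
    · exfalso
      rcases Nat.eq_zero_or_pos sz with hz | hz
      · have hlen : (lst rest x₀).2.length = 0 := by omega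
        rw [hlen, Finset.sum_range_zero] at a2
        omega
      · have := h0 0 hz
        have := h1 0 hz
        linarith
  exact lt_of_mul_lt_mul_left hgoal hden'.le

theorem LS_ne : allL (fun l => Nat.ble 1 (lenL l.laws)) LS = true := by decide +kernel

lemma laws_ne (i : ℕ) : 1 ≤ (ltr i).laws.length := by
  have h := allL_mem LS_ne _ (ltr_mem i)
  rw [← lenL_eq]
  exact Nat.le_of_ble_eq_true h

/-- **The gap argument.** -/
theorem gap_walk {a b : ℕ} {u v : List ℕ} (hUB : UB a b u v) (hu : wsz u = a) (hv : wsz v = b)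
    {j o' : ℕ} (hoc : Oc v j o') {y : ℕ × List ℕ} (hy : y ∈ (ltr j).laws) {Λ : ℝ}
    (hD : Dn b o' y Λ (ltr j).den) (hΛ : 117 * Λ ≤ 7 * (a + 1)) : False := by
  obtain ⟨j1, j2, j3, j4⟩ := ltr_facts j
  obtain ⟨y1, y2⟩ := j4 y hy
  have hjle := hoc.le
  have hyb : o' + (y.1 + y.2.length) ≤ b := by omega
  set D : ℝ := ((ltr j).den : ℝ) with hDd
  have hD0 : 0 < D := by rw [hDd]; exact_mod_cast j2
  set σ : ℝ := Λ / (a + 1) with hσd
  have ha : (0:ℝ) < a + 1 := by positivity
  have hσ : σ ≤ 7 / 117 := by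
    rw [hσd, div_le_iff₀ ha]
    linarith
  set Ψ : ℕ → ℝ := Ph a b o' y with hΨ
  have hstep : ∀ I ≤ a, 0 ≤ Ψ I - Ψ (I + 1) ∧ Ψ I - Ψ (I + 1) ≤ σ * D := by
    intro I hI
    obtain ⟨s1, s2⟩ := Ph_step (a := a) hyb hD hI
    exact ⟨by rw [hΨ]; linarith, s2⟩
  have h0 : Ψ 0 = D := Ph_zero hyb y2
  have h1 : Ψ (a + 1) = 0 := Ph_top a b o' y
  have hσ0 : 0 ≤ σ := by
    have := hstep 0 (Nat.zero_le a)
    by_contra hc
    push Not at hc
    have := mul_neg_of_neg_of_pos hc hD0
    linarith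
  have walk : ∀ (s p : List ℕ), u = p ++ s → (26 / 45 - 4 / 5 * σ) * D < Ψ (wsz p) →
      (26 / 45 - 4 / 5 * σ) * D < Ψ (wsz u) := by
    intro s
    induction s with
    | nil => intro p hp h; rw [hp, List.append_nil]; exact h
    | cons i s ih =>
      intro p hp h
      have hoi : Oc u i (wsz p) := ⟨p, s, hp, rfl⟩
      have hle := hoi.le
      refine ih (p ++ [i]) (by rw [hp]; simp) ?_
      have e : wsz (p ++ [i]) = wsz p + (ltr i).sz := by
        rw [wsz_append, wsz_cons, wsz_nil, Nat.add_zero]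
      rw [e]
      obtain ⟨i1, i2, i3, i4⟩ := ltr_facts i
      refine block_step (allL_mem LS_gap _ (ltr_mem i)) (laws_ne i) i2 i4 hD0 hσ
        (fun q hq => (hstep _ (by omega)).1) (fun q hq => (hstep _ (by omega)).2) ?_ h
      intro x hx
      exact hUB i (wsz p) j o' hoi hoc x hx y hy
  have hend := walk u [] rfl (by
    change _ < Ψ 0
    rw [h0]
    nlinarith)
  rw [hu] at hend
  have h2 := (hstep a le_rfl).2
  rw [h1] at h2
  nlinarith

/-! ### choice of the law -/

lemma bet00 (t : ℝ) : bet 0 0 t = 1 := by unfold bet; simp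

lemma small_letter : ∀ i < 17, i = 0 ∨ i = 1 ∨ 5 ≤ (ltr i).sz := by decide +kernel

lemma sz0 : (ltr 0).sz = 1 := rfl
lemma sz1 : (ltr 1).sz = 3 := rfl

lemma word_one {v : List ℕ} (h17 : ∀ i ∈ v, i < 17) (h : wsz v = 1) : v = [0] := by
  cases v with
  | nil => exact absurd h (by simp [wsz])
  | cons i v =>
    rw [wsz_cons] at h
    rcases small_letter i (h17 i List.mem_cons_self) with h1 | h1 | h1
    · subst h1
      rw [sz0] at h
      cases v with
      | nil => rfl
      | cons j v =>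
        rw [wsz_cons] at h
        have := (ltr_facts j).1
        omega
    · subst h1; rw [sz1] at h; omega
    · omega

lemma word_two {v : List ℕ} (h17 : ∀ i ∈ v, i < 17) (h : wsz v = 2) : v = [0, 0] := by
  cases v with
  | nil => exact absurd h (by simp [wsz])
  | cons i v =>
    rw [wsz_cons] at h
    rcases small_letter i (h17 i List.mem_cons_self) with h1 | h1 | h1
    · subst h1
      rw [sz0] at h
      rw [word_one (fun i hi => h17 i (List.mem_cons_of_mem _ hi)) (by omega)]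
    · subst h1; rw [sz1] at h; omega
    · omega

lemma word_three {v : List ℕ} (h17 : ∀ i ∈ v, i < 17) (h : wsz v = 3) :
    v = [0, 0, 0] ∨ v = [1] := by
  cases v with
  | nil => exact absurd h (by simp [wsz])
  | cons i v =>
    rw [wsz_cons] at h
    rcases small_letter i (h17 i List.mem_cons_self) with h1 | h1 | h1
    · subst h1
      rw [sz0] at h
      left
      rw [word_two (fun i hi => h17 i (List.mem_cons_of_mem _ hi)) (by omega)]
    · subst h1
      rw [sz1] at h
      right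
      cases v with
      | nil => rfl
      | cons j v =>
        rw [wsz_cons] at h
        have := (ltr_facts j).1
        omega
    · omega

/-- a law avoiding the first and the last position -/
lemma inner_law : ∀ i < 17, 2 ≤ i → ∃ y ∈ (ltr i).laws,
    1 ≤ y.1 ∧ y.1 + y.2.length + 1 ≤ (ltr i).sz := by
  decide +kernel

lemma top_law : ∀ i < 17, 1 ≤ i → ∃ y ∈ (ltr i).laws, 1 ≤ y.1 := by
  decide +kernel

lemma bot_law : ∀ i < 17, 1 ≤ i → ∃ y ∈ (ltr i).laws, y.1 + y.2.length + 1 ≤ (ltr i).sz := by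
  decide +kernel

lemma Dn_inner {b oy : ℕ} {y : ℕ × List ℕ} {den : ℕ} (hb : 4 ≤ b) (h1 : 1 ≤ oy + y.1)
    (h2 : oy + y.1 + y.2.length + 1 ≤ b)
    (hs : ∑ k ∈ range y.2.length, nth 0 k y.2 = den) : Dn b oy y (4 / 9 * b) den := by
  intro t ht0 ht1
  rw [← hs]
  push_cast
  rw [Finset.mul_sum]
  refine Finset.sum_le_sum fun j hj => ?_
  have hj' := Finset.mem_range.1 hj
  rw [mul_comm]
  exact mul_le_mul_of_nonneg_right (bet_bound hb (by omega) (by omega) ht0 ht1) (Nat.cast_nonneg _)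

/-- the sizes for which the gap argument works -/
def GapR (a b : ℕ) : Prop := (b = 1 ∧ 16 ≤ a) ∨ (b = 2 ∧ 33 ≤ a) ∨ (b = 3 ∧ 25 ≤ a) ∨
  (4 ≤ b ∧ 52 * b ≤ 7 * (a + 1))

theorem gap_false {a b : ℕ} (hG : GapR a b) {u v : List ℕ} (hUB : UB a b u v) (hu : wsz u = a)
    (hv : wsz v = b) (h17 : ∀ i ∈ v, i < 17) : False := by
  rcases hG with ⟨rfl, ha⟩ | ⟨rfl, ha⟩ | ⟨rfl, ha⟩ | ⟨hb, ha⟩
  · have hv' := word_one h17 hv
    subst hv'
    refine gap_walk (j := 0) (o' := 0) (y := (0, [1])) (Λ := 1) hUB hu hv ⟨[], [], rfl, rfl⟩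
      List.mem_cons_self ?_ ?_
    · intro t _ _
      change ∑ j ∈ range 1, ((nth 0 j [1] : ℕ) : ℝ) * bet (1 - 1) (0 + 0 + j) t ≤
        1 * ((1 : ℕ) : ℝ)
      rw [Finset.sum_range_one, nth_zero]
      simp [bet00]
    · have : (16:ℝ) ≤ a := by exact_mod_cast ha
      linarith
  · have hv' := word_two h17 hv
    subst hv'
    refine gap_walk (j := 0) (o' := 0) (y := (0, [1])) (Λ := 2) hUB hu hv ⟨[], [0], rfl, rfl⟩
      List.mem_cons_self ?_ ?_
    · intro t ht0 ht1
      change ∑ j ∈ range 1, ((nth 0 j [1] : ℕ) : ℝ) * bet (2 - 1) (0 + 0 + j) t ≤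
        2 * ((1 : ℕ) : ℝ)
      rw [Finset.sum_range_one, nth_zero]
      unfold bet
      simp
      linarith
    · have : (33:ℝ) ≤ a := by exact_mod_cast ha
      linarith
  · have ha' : (25:ℝ) ≤ a := by exact_mod_cast ha
    rcases word_three h17 hv with hv' | hv'
    · subst hv'
      refine gap_walk (j := 0) (o' := 1) (y := (0, [1])) (Λ := 3 / 2) hUB hu hv
        ⟨[0], [0], rfl, rfl⟩ List.mem_cons_self ?_ (by linarith)
      intro t ht0 ht1
      change ∑ j ∈ range 1, ((nth 0 j [1] : ℕ) : ℝ) * bet (3 - 1) (1 + 0 + j) t ≤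
        3 / 2 * ((1 : ℕ) : ℝ)
      rw [Finset.sum_range_one, nth_zero]
      unfold bet
      norm_num
      nlinarith [sq_nonneg (t - 1 / 2)]
    · subst hv'
      refine gap_walk (j := 1) (o' := 0) (y := (0, [1, 1, 1])) (Λ := 3 / 2) hUB hu hv
        ⟨[], [], rfl, rfl⟩ (List.mem_cons_of_mem _ List.mem_cons_self) ?_ (by linarith)
      intro t ht0 ht1
      change ∑ j ∈ range 3, ((nth 0 j [1, 1, 1] : ℕ) : ℝ) * bet (3 - 1) (0 + 0 + j) t ≤
        3 / 2 * ((3 : ℕ) : ℝ)
      have h1 : ∀ j ∈ range 3, ((nth 0 j [1, 1, 1] : ℕ) : ℝ) * bet (3 - 1) (0 + 0 + j) t =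
          bet 2 j t := by
        intro j hj
        have hj' := Finset.mem_range.1 hj
        interval_cases j <;> simp
      rw [Finset.sum_congr rfl h1, sum_bet 2 t]
      norm_num
  · have hbig : (117:ℝ) * (4 / 9 * b) ≤ 7 * (a + 1) := by
      have : ((52 * b : ℕ) : ℝ) ≤ ((7 * (a + 1) : ℕ) : ℝ) := by exact_mod_cast ha
      push_cast at this
      linarith
    cases v with
    | nil => rw [wsz_nil] at hv; omega
    | cons j s =>
      have hj := h17 j List.mem_cons_self
      obtain ⟨j1, j2, j3, j4⟩ := ltr_facts j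
      have hv0 := hv
      rw [wsz_cons] at hv
      cases s with
      | nil =>
        rw [wsz_nil, Nat.add_zero] at hv
        have hj2 : 2 ≤ j := by
          by_contra hc
          have : j = 0 ∨ j = 1 := by omega
          rcases this with h | h
          · subst h; rw [sz0] at hv; omega
          · subst h; rw [sz1] at hv; omega
        obtain ⟨y, hy, y1, y2⟩ := inner_law j hj hj2
        exact gap_walk (j := j) (o' := 0) (y := y) (Λ := 4 / 9 * b) hUB hu hv0
          ⟨[], [], rfl, rfl⟩ hy (Dn_inner hb (by omega) (by omega) (j4 y hy).2) hbig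
      | cons k s =>
        have hk := h17 k (List.mem_cons_of_mem _ List.mem_cons_self)
        obtain ⟨k1, k2, k3, k4⟩ := ltr_facts k
        rw [wsz_cons] at hv
        cases s with
        | nil =>
          rw [wsz_nil, Nat.add_zero] at hv
          rcases Nat.eq_zero_or_pos j with hj0 | hj0
          · subst hj0
            rw [sz0] at hv
            have hk0 : 1 ≤ k := by
              rcases Nat.eq_zero_or_pos k with h | h
              · subst h; rw [sz0] at hv; omega
              · exact h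
            obtain ⟨y, hy, y1⟩ := bot_law k hk hk0
            exact gap_walk (j := k) (o' := 1) (y := y) (Λ := 4 / 9 * b) hUB hu hv0
              ⟨[0], [], rfl, rfl⟩ hy (Dn_inner hb (by omega) (by omega) (k4 y hy).2) hbig
          · obtain ⟨y, hy, y1⟩ := top_law j hj hj0
            have y2 := (j4 y hy).1
            exact gap_walk (j := j) (o' := 0) (y := y) (Λ := 4 / 9 * b) hUB hu hv0
              ⟨[], [k], rfl, rfl⟩ hy (Dn_inner hb (by omega) (by omega) (j4 y hy).2) hbig
        | cons l s =>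
          obtain ⟨l1, -⟩ := ltr_facts l
          rw [wsz_cons] at hv
          have hne := laws_ne k
          obtain ⟨y, hy⟩ : ∃ y, y ∈ (ltr k).laws := by
            cases h : (ltr k).laws with
            | nil => rw [h] at hne; simp at hne
            | cons y ys => exact ⟨y, List.mem_cons_self⟩
          have y2 := (k4 y hy).1
          exact gap_walk (j := k) (o' := (ltr j).sz) (y := y) (Λ := 4 / 9 * b) hUB hu hv0
            ⟨[j], l :: s, rfl, by rw [wsz_cons, wsz_nil, Nat.add_zero]⟩ hy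
            (Dn_inner hb (by omega) (by omega) (k4 y hy).2) hbig

/-- **Classification of the pairs of words.** -/
theorem classify {a b : ℕ} (hb : 1 ≤ b) (hab : b ≤ a) : Cls a b := by
  intro u v hUB hu hv hu17 hv17
  by_cases hG : GapR a b
  · exact (gap_false hG hUB hu hv hv17).elim
  · have hfin : Cls a b := by
      unfold GapR at hG
      rcases Nat.lt_or_ge b 19 with h19 | h19
      · interval_cases b
        · exact small1 a 1 (by omega) (by omega) (by omega) (by omega)
        · exact small2 a 2 (by omega) (by omega) (by omega) (by omega)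
        · exact small3 a 3 (by omega) (by omega) (by omega) (by omega)
        · exact small4 a 4 (by omega) (by omega) (by omega) (by omega)
        · exact small5 a 5 (by omega) (by omega) (by omega) (by omega)
        · exact small6 a 6 (by omega) (by omega) (by omega) (by omega)
        · exact small7 a 7 (by omega) (by omega) (by omega) (by omega)
        · exact small8 a 8 (by omega) (by omega) (by omega) (by omega)
        · exact small9 a 9 (by omega) (by omega) (by omega) (by omega)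
        · exact small10 a 10 (by omega) (by omega) (by omega) (by omega)
        · exact small11 a 11 (by omega) (by omega) (by omega) (by omega)
        · exact small12 a 12 (by omega) (by omega) (by omega) (by omega)
        · exact small13 a 13 (by omega) (by omega) (by omega) (by omega)
        · exact small14 a 14 (by omega) (by omega) (by omega) (by omega)
        · exact small15 a 15 (by omega) (by omega) (by omega) (by omega)
        · exact small16 a 16 (by omega) (by omega) (by omega) (by omega)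
        · exact small17 a 17 (by omega) (by omega) (by omega) (by omega)
        · exact small18 a 18 (by omega) (by omega) (by omega) (by omega)
      · have h1 : 25600 * (a + b) ≤ 51200 * a := by omega
        have h2 : 51200 * a ≤ 45133 * (a + b) := by omega
        rcases Nat.lt_or_ge (a + b) 48 with h | h
        · exact cone38 a b h19 h1 h2 (by omega) (by omega)
        rcases Nat.lt_or_ge (a + b) 61 with h' | h'
        · exact cone48 a b h19 h1 h2 (by omega) (by omega)
        rcases Nat.lt_or_ge (a + b) 77 with h' | h'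
        · exact cone61 a b h19 h1 h2 (by omega) (by omega)
        rcases Nat.lt_or_ge (a + b) 97 with h' | h'
        · exact cone77 a b h19 h1 h2 (by omega) (by omega)
        rcases Nat.lt_or_ge (a + b) 122 with h' | h'
        · exact cone97 a b h19 h1 h2 (by omega) (by omega)
        rcases Nat.lt_or_ge (a + b) 150 with h' | h'
        · exact cone122 a b h19 h1 h2 (by omega) (by omega)
        · exact cone150 a b h19 h1 h2 h'
    exact hfin u v hUB hu hv hu17 hv17

end Pool.Agent.NF
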