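import Mathlib

/-!
# Words over seventeen blocks: data and the checker

All functions below are evaluated by the kernel, they are written with recursors and the raw
operations on natural numbers for this reason.
-/

set_option autoImplicit false

namespace Pool.Agent.NF

/-- a block: size, denominator, width, numerator and denominator of the balance constant, laws
(number of leading zeros, weights), ordered by mean height -/
structure Ltr where
  sz : ℕ
  den : ℕ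
  wd : ℕ
  bn : ℕ
  bd : ℕ
  laws : List (ℕ × List ℕ)

/-- block 0: . -/
def l0 : Ltr := ⟨nat_lit 1, nat_lit 1, nat_lit 1, nat_lit 0, nat_lit 1, [(nat_lit 0, [nat_lit 1])]⟩
/-- block 1: V -/
def l1 : Ltr := ⟨nat_lit 3, nat_lit 3, nat_lit 2, nat_lit 1, nat_lit 3, [(nat_lit 0, [nat_lit 2, nat_lit 1]), (nat_lit 0, [nat_lit 1, nat_lit 1, nat_lit 1]), (nat_lit 1, [nat_lit 1, nat_lit 2])]⟩
/-- block 2: c4+1 -/
def l2 : Ltr := ⟨nat_lit 5, nat_lit 5, nat_lit 2, nat_lit 2, nat_lit 5, [(nat_lit 0, [nat_lit 4, nat_lit 1]), (nat_lit 1, [nat_lit 3, nat_lit 2]), (nat_lit 0, [nat_lit 1, nat_lit 1, nat_lit 1, nat_lit 1, nat_lit 1]), (nat_lit 2, [nat_lit 2, nat_lit 3]), (nat_lit 3, [nat_lit 1, nat_lit 4])]⟩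
/-- block 3: c3+c2 -/
def l3 : Ltr := ⟨nat_lit 5, nat_lit 10, nat_lit 2, nat_lit 2, nat_lit 5, [(nat_lit 0, [nat_lit 6, nat_lit 3, nat_lit 1]), (nat_lit 0, [nat_lit 4, nat_lit 3, nat_lit 2, nat_lit 1]), (nat_lit 1, [nat_lit 3, nat_lit 4, nat_lit 3]), (nat_lit 1, [nat_lit 1, nat_lit 2, nat_lit 3, nat_lit 4]), (nat_lit 2, [nat_lit 1, nat_lit 3, nat_lit 6])]⟩
/-- block 4: c4+c2 -/
def l4 : Ltr := ⟨nat_lit 6, nat_lit 15, nat_lit 2, nat_lit 2, nat_lit 5, [(nat_lit 0, [nat_lit 10, nat_lit 4, nat_lit 1]), (nat_lit 0, [nat_lit 5, nat_lit 4, nat_lit 3, nat_lit 2, nat_lit 1]), (nat_lit 1, [nat_lit 6, nat_lit 6, nat_lit 3]), (nat_lit 2, [nat_lit 3, nat_lit 6, nat_lit 6]), (nat_lit 1, [nat_lit 1, nat_lit 2, nat_lit 3, nat_lit 4, nat_lit 5]), (nat_lit 3, [nat_lit 1, nat_lit 4, nat_lit 10])]⟩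
/-- block 5: VV+1 -/
def l5 : Ltr := ⟨nat_lit 7, nat_lit 21, nat_lit 3, nat_lit 8, nat_lit 21, [(nat_lit 0, [nat_lit 12, nat_lit 7, nat_lit 2]), (nat_lit 0, [nat_lit 6, nat_lit 6, nat_lit 6, nat_lit 3]), (nat_lit 1, [nat_lit 5, nat_lit 10, nat_lit 6]), (nat_lit 0, [nat_lit 3, nat_lit 3, nat_lit 3, nat_lit 3, nat_lit 3, nat_lit 3, nat_lit 3]), (nat_lit 3, [nat_lit 6, nat_lit 10, nat_lit 5]), (nat_lit 3, [nat_lit 3, nat_lit 6, nat_lit 6, nat_lit 6]), (nat_lit 4, [nat_lit 2, nat_lit 7, nat_lit 12])]⟩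
/-- block 6: 1V1+c2 -/
def l6 : Ltr := ⟨nat_lit 7, nat_lit 63, nat_lit 3, nat_lit 26, nat_lit 63, [(nat_lit 0, [nat_lit 45, nat_lit 15, nat_lit 3]), (nat_lit 0, [nat_lit 18, nat_lit 15, nat_lit 12, nat_lit 9, nat_lit 6, nat_lit 3]), (nat_lit 1, [nat_lit 20, nat_lit 22, nat_lit 15, nat_lit 6]), (nat_lit 1, [nat_lit 10, nat_lit 14, nat_lit 15, nat_lit 14, nat_lit 10]), (nat_lit 2, [nat_lit 6, nat_lit 15, nat_lit 22, nat_lit 20]), (nat_lit 1, [nat_lit 3, nat_lit 6, nat_lit 9, nat_lit 12, nat_lit 15, nat_lit 18]), (nat_lit 4, [nat_lit 3, nat_lit 15, nat_lit 45])]⟩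
/-- block 7: c4+c2+1 -/
def l7 : Ltr := ⟨nat_lit 7, nat_lit 105, nat_lit 3, nat_lit 2, nat_lit 5, [(nat_lit 0, [nat_lit 60, nat_lit 30, nat_lit 12, nat_lit 3]), (nat_lit 0, [nat_lit 30, nat_lit 25, nat_lit 20, nat_lit 15, nat_lit 10, nat_lit 5]), (nat_lit 1, [nat_lit 30, nat_lit 36, nat_lit 27, nat_lit 12]), (nat_lit 0, [nat_lit 15, nat_lit 15, nat_lit 15, nat_lit 15, nat_lit 15, nat_lit 15, nat_lit 15]), (nat_lit 2, [nat_lit 12, nat_lit 27, nat_lit 36, nat_lit 30]), (nat_lit 1, [nat_lit 5, nat_lit 10, nat_lit 15, nat_lit 20, nat_lit 25, nat_lit 30]), (nat_lit 3, [nat_lit 3, nat_lit 12, nat_lit 30, nat_lit 60])]⟩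
/-- block 8: V1+1V -/
def l8 : Ltr := ⟨nat_lit 8, nat_lit 210, nat_lit 4, nat_lit 263, nat_lit 630, [(nat_lit 0, [nat_lit 105, nat_lit 60, nat_lit 30, nat_lit 12, nat_lit 3]), (nat_lit 0, [nat_lit 70, nat_lit 55, nat_lit 40, nat_lit 26, nat_lit 14, nat_lit 5]), (nat_lit 0, [nat_lit 35, nat_lit 35, nat_lit 35, nat_lit 34, nat_lit 31, nat_lit 25, nat_lit 15]), (nat_lit 1, [nat_lit 30, nat_lit 45, nat_lit 48, nat_lit 42, nat_lit 30, nat_lit 15]), (nat_lit 1, [nat_lit 15, nat_lit 30, nat_lit 42, nat_lit 48, nat_lit 45, nat_lit 30]), (nat_lit 1, [nat_lit 15, nat_lit 25, nat_lit 31, nat_lit 34, nat_lit 35, nat_lit 35, nat_lit 35]), (nat_lit 2, [nat_lit 5, nat_lit 14, nat_lit 26, nat_lit 40, nat_lit 55, nat_lit 70]), (nat_lit 3, [nat_lit 3, nat_lit 12, nat_lit 30, nat_lit 60, nat_lit 105])]⟩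
/-- block 9: 1VV1+1 -/
def l9 : Ltr := ⟨nat_lit 9, nat_lit 27, nat_lit 3, nat_lit 11, nat_lit 27, [(nat_lit 0, [nat_lit 24, nat_lit 3]), (nat_lit 1, [nat_lit 14, nat_lit 10, nat_lit 3]), (nat_lit 1, [nat_lit 7, nat_lit 8, nat_lit 8, nat_lit 4]), (nat_lit 2, [nat_lit 6, nat_lit 13, nat_lit 8]), (nat_lit 0, [nat_lit 3, nat_lit 3, nat_lit 3, nat_lit 3, nat_lit 3, nat_lit 3, nat_lit 3, nat_lit 3, nat_lit 3]), (nat_lit 4, [nat_lit 8, nat_lit 13, nat_lit 6]), (nat_lit 4, [nat_lit 4, nat_lit 8, nat_lit 8, nat_lit 7]), (nat_lit 5, [nat_lit 3, nat_lit 10, nat_lit 14]), (nat_lit 7, [nat_lit 3, nat_lit 24])]⟩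
/-- block 10: 11V11+c2 -/
def l10 : Ltr := ⟨nat_lit 9, nat_lit 108, nat_lit 3, nat_lit 5, nat_lit 12, [(nat_lit 0, [nat_lit 84, nat_lit 21, nat_lit 3]), (nat_lit 1, [nat_lit 63, nat_lit 36, nat_lit 9]), (nat_lit 0, [nat_lit 24, nat_lit 21, nat_lit 18, nat_lit 15, nat_lit 12, nat_lit 9, nat_lit 6, nat_lit 3]), (nat_lit 2, [nat_lit 30, nat_lit 40, nat_lit 28, nat_lit 10]), (nat_lit 2, [nat_lit 15, nat_lit 25, nat_lit 28, nat_lit 25, nat_lit 15]), (nat_lit 3, [nat_lit 10, nat_lit 28, nat_lit 40, nat_lit 30]), (nat_lit 1, [nat_lit 3, nat_lit 6, nat_lit 9, nat_lit 12, nat_lit 15, nat_lit 18, nat_lit 21, nat_lit 24]), (nat_lit 5, [nat_lit 9, nat_lit 36, nat_lit 63]), (nat_lit 6, [nat_lit 3, nat_lit 21, nat_lit 84])]⟩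
/-- block 11: c7+c2 -/
def l11 : Ltr := ⟨nat_lit 9, nat_lit 36, nat_lit 2, nat_lit 5, nat_lit 12, [(nat_lit 0, [nat_lit 28, nat_lit 7, nat_lit 1]), (nat_lit 1, [nat_lit 21, nat_lit 12, nat_lit 3]), (nat_lit 0, [nat_lit 8, nat_lit 7, nat_lit 6, nat_lit 5, nat_lit 4, nat_lit 3, nat_lit 2, nat_lit 1]), (nat_lit 2, [nat_lit 15, nat_lit 15, nat_lit 6]), (nat_lit 3, [nat_lit 10, nat_lit 16, nat_lit 10]), (nat_lit 4, [nat_lit 6, nat_lit 15, nat_lit 15]), (nat_lit 1, [nat_lit 1, nat_lit 2, nat_lit 3, nat_lit 4, nat_lit 5, nat_lit 6, nat_lit 7, nat_lit 8]), (nat_lit 5, [nat_lit 3, nat_lit 12, nat_lit 21]), (nat_lit 6, [nat_lit 1, nat_lit 7, nat_lit 28])]⟩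
/-- block 12: c6+c3 -/
def l12 : Ltr := ⟨nat_lit 9, nat_lit 84, nat_lit 2, nat_lit 5, nat_lit 12, [(nat_lit 0, [nat_lit 56, nat_lit 21, nat_lit 6, nat_lit 1]), (nat_lit 0, [nat_lit 28, nat_lit 21, nat_lit 15, nat_lit 10, nat_lit 6, nat_lit 3, nat_lit 1]), (nat_lit 1, [nat_lit 35, nat_lit 30, nat_lit 15, nat_lit 4]), (nat_lit 2, [nat_lit 20, nat_lit 30, nat_lit 24, nat_lit 10]), (nat_lit 1, [nat_lit 7, nat_lit 12, nat_lit 15, nat_lit 16, nat_lit 15, nat_lit 12, nat_lit 7]), (nat_lit 3, [nat_lit 10, nat_lit 24, nat_lit 30, nat_lit 20]), (nat_lit 4, [nat_lit 4, nat_lit 15, nat_lit 30, nat_lit 35]), (nat_lit 2, [nat_lit 1, nat_lit 3, nat_lit 6, nat_lit 10, nat_lit 15, nat_lit 21, nat_lit 28]), (nat_lit 5, [nat_lit 1, nat_lit 6, nat_lit 21, nat_lit 56])]⟩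
/-- block 13: (c3+c2)^2+1 -/
def l13 : Ltr := ⟨nat_lit 11, nat_lit 110, nat_lit 3, nat_lit 9, nat_lit 22, [(nat_lit 0, [nat_lit 60, nat_lit 33, nat_lit 14, nat_lit 3]), (nat_lit 0, [nat_lit 40, nat_lit 31, nat_lit 22, nat_lit 13, nat_lit 4]), (nat_lit 1, [nat_lit 27, nat_lit 38, nat_lit 33, nat_lit 12]), (nat_lit 1, [nat_lit 9, nat_lit 18, nat_lit 27, nat_lit 36, nat_lit 20]), (nat_lit 2, [nat_lit 8, nat_lit 24, nat_lit 48, nat_lit 30]), (nat_lit 0, [nat_lit 10, nat_lit 10, nat_lit 10, nat_lit 10, nat_lit 10, nat_lit 10, nat_lit 10, nat_lit 10, nat_lit 10, nat_lit 10, nat_lit 10]), (nat_lit 5, [nat_lit 30, nat_lit 48, nat_lit 24, nat_lit 8]), (nat_lit 5, [nat_lit 20, nat_lit 36, nat_lit 27, nat_lit 18, nat_lit 9]), (nat_lit 6, [nat_lit 12, nat_lit 33, nat_lit 38, nat_lit 27]), (nat_lit 6, [nat_lit 4, nat_lit 13, nat_lit 22, nat_lit 31, nat_lit 40]), (nat_lit 7, [nat_lit 3, nat_lit 14, nat_lit 33, nat_lit 60])]⟩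
/-- block 14: V(c3+c2)V+c2 -/
def l14 : Ltr := ⟨nat_lit 13, nat_lit 2340, nat_lit 3, nat_lit 107, nat_lit 260, [(nat_lit 0, [nat_lit 1320, nat_lit 770, nat_lit 220, nat_lit 30]), (nat_lit 0, [nat_lit 660, nat_lit 660, nat_lit 660, nat_lit 300, nat_lit 60]), (nat_lit 1, [nat_lit 550, nat_lit 1100, nat_lit 570, nat_lit 120]), (nat_lit 0, [nat_lit 360, nat_lit 330, nat_lit 300, nat_lit 270, nat_lit 240, nat_lit 210, nat_lit 180, nat_lit 150, nat_lit 120, nat_lit 90, nat_lit 60, nat_lit 30]), (nat_lit 3, [nat_lit 648, nat_lit 828, nat_lit 558, nat_lit 243, nat_lit 63]), (nat_lit 3, [nat_lit 432, nat_lit 636, nat_lit 561, nat_lit 396, nat_lit 231, nat_lit 84]), (nat_lit 4, [nat_lit 252, nat_lit 567, nat_lit 702, nat_lit 567, nat_lit 252]), (nat_lit 4, [nat_lit 84, nat_lit 231, nat_lit 396, nat_lit 561, nat_lit 636, nat_lit 432]), (nat_lit 5, [nat_lit 63, nat_lit 243, nat_lit 558, nat_lit 828, nat_lit 648]), (nat_lit 1, [nat_lit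 30, nat_lit 60, nat_lit 90, nat_lit 120, nat_lit 150, nat_lit 180, nat_lit 210, nat_lit 240, nat_lit 270, nat_lit 300, nat_lit 330, nat_lit 360]), (nat_lit 8, [nat_lit 120, nat_lit 570, nat_lit 1100, nat_lit 550]), (nat_lit 8, [nat_lit 60, nat_lit 300, nat_lit 660, nat_lit 660, nat_lit 660]), (nat_lit 9, [nat_lit 30, nat_lit 220, nat_lit 770, nat_lit 1320])]⟩
/-- block 15: (c4+1)^2+1V1 -/
def l15 : Ltr := ⟨nat_lit 15, nat_lit 45045, nat_lit 4, nat_lit 178, nat_lit 429, [(nat_lit 0, [nat_lit 24024, nat_lit 12441, nat_lit 5610, nat_lit 2145, nat_lit 660, nat_lit 147, nat_lit 18]), (nat_lit 0, [nat_lit 15015, nat_lit 10725, nat_lit 7425, nat_lit 4950, nat_lit 3150, nat_lit 1890, nat_lit 1050, nat_lit 525, nat_lit 225, nat_lit 75, nat_lit 15]), (nat_lit 1, [nat_lit 11583, nat_lit 13662, nat_lit 10395, nat_lit 5940, nat_lit 2565, nat_lit 774, nat_lit 126]), (nat_lit 0, [nat_lit 6006, nat_lit 6006, nat_lit 6006, nat_lit 6006,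 nat_lit 6006, nat_lit 5628, nat_lit 4578, nat_lit 3003, nat_lit 1428, nat_lit 378]), (nat_lit 2, [nat_lit 4752, nat_lit 10098, nat_lit 11880, nat_lit 9720, nat_lit 5760, nat_lit 2331, nat_lit 504]), (nat_lit 1, [nat_lit 2860, nat_lit 4730, nat_lit 5775, nat_lit 6150, nat_lit 6000, nat_lit 5460, nat_lit 4655, nat_lit 3700, nat_lit 2700, nat_lit 1750, nat_lit 935, nat_lit 330]), (nat_lit 3, [nat_lit 1386, nat_lit 5544, nat_lit 10080, nat_lit 11760, nat_lit 9555, nat_lit 5208, nat_lit 1512]), (nat_lit 1, [nat_lit 1430, nat_lit 2530, nat_lit 3355, nat_lit 3950, nat_lit 4350, nat_lit 4580, nat_lit 4655, nat_lit 4580, nat_lit 4350, nat_lit 3950, nat_lit 3355, nat_lit 2530, nat_lit 1430]), (nat_lit 5, [nat_lit 1512, nat_lit 5208, nat_lit 9555, nat_lit 11760, nat_lit 10080, nat_lit 5544, nat_lit 1386]), (nat_lit 2, [nat_lit 330, nat_lit 935, nat_lit 1750, nat_lit 2700, nat_lit 3700, nat_lit 4655, nat_lit 5460, nat_lit 6000,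 nat_lit 6150, nat_lit 5775, nat_lit 4730, nat_lit 2860]), (nat_lit 6, [nat_lit 504, nat_lit 2331, nat_lit 5760, nat_lit 9720, nat_lit 11880, nat_lit 10098, nat_lit 4752]), (nat_lit 5, [nat_lit 378, nat_lit 1428, nat_lit 3003, nat_lit 4578, nat_lit 5628, nat_lit 6006, nat_lit 6006, nat_lit 6006, nat_lit 6006, nat_lit 6006]), (nat_lit 7, [nat_lit 126, nat_lit 774, nat_lit 2565, nat_lit 5940, nat_lit 10395, nat_lit 13662, nat_lit 11583]), (nat_lit 4, [nat_lit 15, nat_lit 75, nat_lit 225, nat_lit 525, nat_lit 1050, nat_lit 1890, nat_lit 3150, nat_lit 4950, nat_lit 7425, nat_lit 10725, nat_lit 15015]), (nat_lit 8, [nat_lit 18, nat_lit 147, nat_lit 660, nat_lit 2145, nat_lit 5610, nat_lit 12441, nat_lit 24024])]⟩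
/-- block 16: V1VV1V+c3 -/
def l16 : Ltr := ⟨nat_lit 17, nat_lit 2040, nat_lit 3, nat_lit 287, nat_lit 680, [(nat_lit 0, [nat_lit 1120, nat_lit 665, nat_lit 210, nat_lit 41, nat_lit 4]), (nat_lit 0, [nat_lit 560, nat_lit 560, nat_lit 560, nat_lit 274, nat_lit 76, nat_lit 10]), (nat_lit 1, [nat_lit 455, nat_lit 910, nat_lit 507, nat_lit 148, nat_lit 20]), (nat_lit 0, [nat_lit 360, nat_lit 315, nat_lit 273, nat_lit 234, nat_lit 198, nat_lit 165, nat_lit 135, nat_lit 108, nat_lit 84, nat_lit 63, nat_lit 45, nat_lit 30, nat_lit 18, nat_lit 9, nat_lit 3]), (nat_lit 3, [nat_lit 858, nat_lit 792, nat_lit 330, nat_lit 60]), (nat_lit 4, [nat_lit 440, nat_lit 715, nat_lit 570, nat_lit 259, nat_lit 56]), (nat_lit 4, [nat_lit 220, nat_lit 440, nat_lit 540, nat_lit 476, nat_lit 280, nat_lit 84]), (nat_lit 5, [nat_lit 165, nat_lit 510, nat_lit 693, nat_lit 504, nat_lit 168]), (nat_lit 1, [nat_lit 45, nat_lit 84, nat_lit 117, nat_lit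 144, nat_lit 165, nat_lit 180, nat_lit 189, nat_lit 192, nat_lit 189, nat_lit 180, nat_lit 165, nat_lit 144, nat_lit 117, nat_lit 84, nat_lit 45]), (nat_lit 7, [nat_lit 168, nat_lit 504, nat_lit 693, nat_lit 510, nat_lit 165]), (nat_lit 7, [nat_lit 84, nat_lit 280, nat_lit 476, nat_lit 540, nat_lit 440, nat_lit 220]), (nat_lit 8, [nat_lit 56, nat_lit 259, nat_lit 570, nat_lit 715, nat_lit 440]), (nat_lit 10, [nat_lit 60, nat_lit 330, nat_lit 792, nat_lit 858]), (nat_lit 2, [nat_lit 3, nat_lit 9, nat_lit 18, nat_lit 30, nat_lit 45, nat_lit 63, nat_lit 84, nat_lit 108, nat_lit 135, nat_lit 165, nat_lit 198, nat_lit 234, nat_lit 273, nat_lit 315, nat_lit 360]), (nat_lit 11, [nat_lit 20, nat_lit 148, nat_lit 507, nat_lit 910, nat_lit 455]), (nat_lit 11, [nat_lit 10, nat_lit 76, nat_lit 274, nat_lit 560, nat_lit 560, nat_lit 560]), (nat_lit 12, [nat_lit 4, nat_lit 41, nat_lit 210, nat_lit 665, nat_lit 1120])]⟩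

/-- the blocks -/
def LS : List Ltr := [l0, l1, l2, l3, l4, l5, l6, l7, l8, l9, l10, l11, l12, l13, l14, l15, l16]

/-- element of a list -/
noncomputable def nth {α : Type} (d : α) (n : ℕ) : List α → α :=
  @Nat.rec (fun _ => List α → α)
    (fun l => @List.casesOn α (fun _ => α) l d (fun a _ => a))
    (fun _ ih l => @List.casesOn α (fun _ => α) l d (fun _ t => ih t)) n

/-- the block with number `i` -/
noncomputable def ltr (i : ℕ) : Ltr := nth l0 i LS

/-- dropping -/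
noncomputable def drp {α : Type} (n : ℕ) : List α → List α :=
  @Nat.rec (fun _ => List α → List α) (fun l => l)
    (fun _ ih l => @List.casesOn α (fun _ => List α) l [] (fun _ t => ih t)) n

/-- mapping -/
noncomputable def mpp {α β : Type} (f : α → β) (l : List α) : List β :=
  @List.rec α (fun _ => List β) [] (fun a _ ih => f a :: ih) l

/-- base of the packed numbers -/
def BB : ℕ := nat_lit 18446744073709551616
/-- scale of the probabilities -/
def SS : ℕ := nat_lit 1476034560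

/-- strict evaluation -/
def nseq {α : Type} (n : ℕ) (f : ℕ → α) : α :=
  @Nat.rec (fun _ => α) (f (nat_lit 0)) (fun m _ => f (Nat.succ m)) n

theorem nseq_eq {α : Type} (n : ℕ) (f : ℕ → α) : nseq n f = f n := by
  unfold nseq
  cases n <;> rfl

/-- dot product -/
noncomputable def dot (x : List ℕ) : List ℕ → ℕ :=
  @List.rec ℕ (fun _ => List ℕ → ℕ) (fun _ => nat_lit 0)
    (fun a _ ih y => @List.casesOn ℕ (fun _ => ℕ) y (nat_lit 0)
      (fun b t => Nat.add (Nat.mul a b) (ih t))) x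

abbrev Tb := List (List ℕ)

/-- bilinear form -/
noncomputable def kil (c : ℕ) (y : List ℕ) (x : List ℕ) : Tb → ℕ :=
  @List.rec ℕ (fun _ => Tb → ℕ) (fun _ => nat_lit 0)
    (fun a _ ih t => @List.casesOn (List ℕ) (fun _ => ℕ) t (nat_lit 0)
      (fun r t => Nat.add (Nat.mul a (dot y (drp c r))) (ih t))) x

/-- the value of a pair of laws at a table -/
noncomputable def val (x y : ℕ × List ℕ) (t : Tb) : ℕ := kil y.1 y.2 x.2 (drp x.1 t)

/-- half regions: `box a₁ b₂` is `a₁ ≤ a`, `b ≤ b₂`; `cone n d N₁ N₂` is `n (a + b) ≤ d a`,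
`N₁ ≤ a + b ≤ N₂`; `cone' n d N₁` is `n (a + b) ≤ d a`, `N₁ ≤ a + b`. -/
inductive HR : Type
  | box : ℕ → ℕ → HR
  | cone : ℕ → ℕ → ℕ → ℕ → HR
  | cone' : ℕ → ℕ → ℕ → HR

/-- lower bound for the probability of a first step -/
noncomputable def HR.lo (h : HR) (k l : ℕ) : ℕ × ℕ :=
  @HR.casesOn (fun _ => ℕ × ℕ) h
    (fun a b => (Nat.sub a k, Nat.sub (Nat.sub (Nat.add a b) k) l))
    (fun n d N₁ N₂ => @Bool.casesOn (fun _ => ℕ × ℕ)
      (Nat.ble (Nat.mul d k) (Nat.mul n (Nat.add k l)))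
      (Nat.sub (Nat.mul n N₁) (Nat.mul d k), Nat.mul d (Nat.sub (Nat.sub N₁ k) l))
      (Nat.sub (Nat.mul n N₂) (Nat.mul d k), Nat.mul d (Nat.sub (Nat.sub N₂ k) l)))
    (fun n d N₁ => @Bool.casesOn (fun _ => ℕ × ℕ)
      (Nat.ble (Nat.mul d k) (Nat.mul n (Nat.add k l)))
      (Nat.sub (Nat.mul n N₁) (Nat.mul d k), Nat.mul d (Nat.sub (Nat.sub N₁ k) l))
      (n, d))

/-- flow through a row with lower bound for the first coordinate -/
noncomputable def flowG (h : HR) (k : ℕ) (xs : List ℕ) : ℕ → ℕ → List (ℕ × ℕ) :=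
  @List.rec ℕ (fun _ => ℕ → ℕ → List (ℕ × ℕ)) (fun _ _ => [])
    (fun x _ ih l y => nseq (Nat.add x y) fun A =>
        (nseq (Nat.div (Nat.mul A (h.lo k l).1) (h.lo k l).2) fun p =>
          nseq (Nat.div (Nat.mul A (Nat.sub (h.lo k l).2 (h.lo k l).1)) (h.lo k l).2)
            fun q => (p, q) :: ih (Nat.succ l) q)) xs

/-- flow through a row with lower bound for the second coordinate -/
noncomputable def flowH (h : HR) (k : ℕ) (xs : List ℕ) : ℕ → ℕ → List (ℕ × ℕ) :=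
  @List.rec ℕ (fun _ => ℕ → ℕ → List (ℕ × ℕ)) (fun _ _ => [])
    (fun x _ ih l y => nseq (Nat.add x y) fun A =>
        (nseq (Nat.div (Nat.mul A (Nat.sub (h.lo l k).2 (h.lo l k).1)) (h.lo l k).2) fun p =>
          nseq (Nat.div (Nat.mul A (h.lo l k).1) (h.lo l k).2)
            fun q => (p, q) :: ih (Nat.succ l) q)) xs

/-- prefix sums of the first components -/
noncomputable def psum (xs : List (ℕ × ℕ)) : ℕ → List ℕ :=
  @List.rec (ℕ × ℕ) (fun _ => ℕ → List ℕ) (fun _ => [])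
    (fun p _ ih c => nseq (Nat.add c p.1) fun s => s :: ih s) xs

/-- adding the second components -/
noncomputable def addq (xs : List (ℕ × ℕ)) : List ℕ → List ℕ :=
  @List.rec (ℕ × ℕ) (fun _ => List ℕ → List ℕ) (fun _ => [])
    (fun p _ ih v => @List.casesOn ℕ (fun _ => List ℕ) v (nseq p.2 fun s => s :: ih [])
      (fun b t => nseq (Nat.add b p.2) fun s => s :: ih t)) xs

/-- packing two rows -/
noncomputable def pack (g : List ℕ) : List ℕ → List ℕ :=
  @List.rec ℕ (fun _ => List ℕ → List ℕ) (fun _ => [])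
    (fun a _ ih v => @List.casesOn ℕ (fun _ => List ℕ) v []
      (fun b t => nseq (Nat.add a (Nat.mul BB b)) fun s => s :: ih t)) g

/-- table of packed lower bounds -/
noncomputable def tab (hG hH : HR) (m : ℕ) : ℕ → List ℕ → List ℕ → List ℕ → Tb :=
  @Nat.rec (fun _ => ℕ → List ℕ → List ℕ → List ℕ → Tb) (fun _ _ _ _ => [])
    (fun _ ih k xG xH acc =>
      (pack (psum (flowG hG k xG 0 0) 0) (addq (flowH hH k xH 0 0) acc)) ::
        ih (Nat.succ k) (mpp Prod.fst (flowG hG k xG 0 0)) (mpp Prod.fst (flowH hH k xH 0 0))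
          (addq (flowH hH k xH 0 0) acc)) m

/-- a state of the search: current table, prefix of the first word (last block first, each block
with the table at its offset), prefix of the second word, sizes -/
structure St where
  cur : Tb
  X : List (ℕ × Tb)
  Y : List (ℕ × Tb)
  sx : ℕ
  sy : ℕ

/-- unbalancedness test -/
noncomputable def good (z d : ℕ) : Bool :=
  @Bool.casesOn (fun _ => Bool)
    (Nat.ble (Nat.mul (nat_lit 19) d) (Nat.mul (nat_lit 45) (Nat.mod z BB)))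
    false (Nat.ble (Nat.mul (nat_lit 19) d) (Nat.mul (nat_lit 45) (Nat.div z BB)))

/-- test for a block `l` and the blocks `Y` of the other word -/
noncomputable def killX (l : Ltr) (Y : List (ℕ × Tb)) (c : ℕ) : Bool :=
  (fun (e : ℕ × Tb) => (fun (r : Ltr) =>
  good (val (nth (0, []) (Nat.mod c (nat_lit 32)) l.laws)
    (nth (0, []) (Nat.mod (Nat.div c (nat_lit 32)) (nat_lit 32)) r.laws) e.2)
    (Nat.mul (Nat.mul l.den r.den) SS)) (ltr e.1)) (nth (0, []) (Nat.div c (nat_lit 1024)) Y)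

/-- test for a block `l` and the blocks `X` of the other word -/
noncomputable def killY (l : Ltr) (X : List (ℕ × Tb)) (c : ℕ) : Bool :=
  (fun (e : ℕ × Tb) => (fun (r : Ltr) =>
  good (val (nth (0, []) (Nat.mod (Nat.div c (nat_lit 32)) (nat_lit 32)) r.laws)
    (nth (0, []) (Nat.mod c (nat_lit 32)) l.laws) e.2)
    (Nat.mul (Nat.mul r.den l.den) SS)) (ltr e.1)) (nth (0, []) (Nat.div c (nat_lit 1024)) X)

/-- extension of the first word: `i` is the number of the block -/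
noncomputable def St.extX (s : St) (i : ℕ) (n : ℕ) : St :=
  ⟨drp n s.cur, (i, s.cur) :: s.X, mpp (fun e => (e.1, drp n e.2)) s.Y, Nat.add s.sx n, s.sy⟩

/-- extension of the second word -/
noncomputable def St.extY (s : St) (i : ℕ) (n : ℕ) : St :=
  ⟨mpp (drp n) s.cur, mpp (fun e => (e.1, mpp (drp n) e.2)) s.X, (i, s.cur) :: s.Y,
    s.sx, Nat.add s.sy n⟩

/-- bounds for the sizes of the words (`amax = 0`: no bound) -/
structure Bd where
  amin : ℕ
  amax : ℕ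
  bmin : ℕ
  bmax : ℕ

noncomputable def okX (B : Bd) (s : St) (ls : List Ltr) : ℕ → Bool :=
  @List.rec Ltr (fun _ => ℕ → Bool) (fun _ => true)
    (fun l _ ih c => @Bool.casesOn (fun _ => Bool) (@Nat.rec (fun _ => Bool) true
      (fun m _ => @Nat.rec (fun _ => Bool)
        (@Bool.casesOn (fun _ => Bool) (Nat.ble (Nat.succ B.amax) (Nat.add s.sx l.sz)) false
          (Nat.ble 1 B.amax))
        (fun m _ => killX l s.Y m) m) (Nat.mod c (nat_lit 32768))) false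
        (ih (Nat.div c (nat_lit 32768)))) ls

noncomputable def okY (B : Bd) (s : St) (ls : List Ltr) : ℕ → Bool :=
  @List.rec Ltr (fun _ => ℕ → Bool) (fun _ => true)
    (fun l _ ih c => @Bool.casesOn (fun _ => Bool) (@Nat.rec (fun _ => Bool) true
      (fun m _ => @Nat.rec (fun _ => Bool)
        (@Bool.casesOn (fun _ => Bool) (Nat.ble (Nat.succ B.bmax) (Nat.add s.sy l.sz)) false
          (Nat.ble 1 B.bmax))
        (fun m _ => killY l s.X m) m) (Nat.mod c (nat_lit 32768))) false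
        (ih (Nat.div c (nat_lit 32768)))) ls

noncomputable def chX (s : St) (acc : List St) (ls : List Ltr) : ℕ → ℕ → List St :=
  @List.rec Ltr (fun _ => ℕ → ℕ → List St) (fun _ _ => acc)
    (fun l _ ih i c => @Nat.rec (fun _ => List St)
      (s.extX i l.sz :: ih (Nat.succ i) (Nat.div c (nat_lit 32768)))
      (fun _ _ => ih (Nat.succ i) (Nat.div c (nat_lit 32768))) (Nat.mod c (nat_lit 32768))) ls

noncomputable def chY (s : St) (acc : List St) (ls : List Ltr) : ℕ → ℕ → List St :=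
  @List.rec Ltr (fun _ => ℕ → ℕ → List St) (fun _ _ => acc)
    (fun l _ ih i c => @Nat.rec (fun _ => List St)
      (s.extY i l.sz :: ih (Nat.succ i) (Nat.div c (nat_lit 32768)))
      (fun _ _ => ih (Nat.succ i) (Nat.div c (nat_lit 32768))) (Nat.mod c (nat_lit 32768))) ls

/-- equality of lists -/
noncomputable def eqL (x : List ℕ) : List ℕ → Bool :=
  @List.rec ℕ (fun _ => List ℕ → Bool)
    (fun y => @List.casesOn ℕ (fun _ => Bool) y true (fun _ _ => false))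
    (fun a _ ih y => @List.casesOn ℕ (fun _ => Bool) y false
      (fun b t => @Bool.casesOn (fun _ => Bool) (Nat.beq a b) false (ih t))) x

/-- the pairs of words (last block first) which form a block, with the number of the block -/
def SolR : List (List ℕ × List ℕ × ℕ) :=
  [([0, 0], [0], 1), ([0, 0, 0, 0], [0], 2), ([1, 1], [0], 5), ([4], [0], 7),
    ([0, 1, 1, 0], [0], 9), ([3, 3], [0], 13), ([0, 0, 0], [0, 0], 3), ([0, 0, 0, 0], [0, 0], 4),
    ([0, 1, 0], [0, 0], 6), ([2], [0, 0], 7), ([0, 0, 0, 0, 0, 0, 0], [0, 0], 11),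
    ([0, 0, 1, 0, 0], [0, 0], 10), ([1, 3, 1], [0, 0], 14), ([0, 0, 0, 0], [1], 7),
    ([0, 0, 0, 0, 0, 0], [0, 0, 0], 12), ([1, 0, 1, 1, 0, 1], [0, 0, 0], 16),
    ([1, 0], [0, 1], 8), ([0, 1], [1, 0], 8), ([2, 2], [0, 1, 0], 15)]

noncomputable def memS (x y : List ℕ) (l : List (List ℕ × List ℕ × ℕ)) : Bool :=
  @List.rec (List ℕ × List ℕ × ℕ) (fun _ => Bool) false
    (fun p _ ih => @Bool.casesOn (fun _ => Bool)
      (@Bool.casesOn (fun _ => Bool) (eqL x p.1) false (eqL y p.2.1)) ih true) l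

/-- the search -/
noncomputable def run (B : Bd) (cs : List ℕ) : List St → Bool :=
  @List.rec ℕ (fun _ => List St → Bool)
    (fun st => @List.casesOn St (fun _ => Bool) st true (fun _ _ => false))
    (fun c _ ih st => @List.casesOn St (fun _ => Bool) st true (fun s rest =>
      @Nat.rec (fun _ => Bool)
        (@Bool.casesOn (fun _ => Bool) (Nat.ble (Nat.succ s.sx) B.amin) false
          (@Bool.casesOn (fun _ => Bool) (okX B s LS (Nat.div c (nat_lit 4))) false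
            (ih (chX s rest LS 0 (Nat.div c (nat_lit 4))))))
        (fun m _ => @Nat.rec (fun _ => Bool)
          (@Bool.casesOn (fun _ => Bool) (Nat.ble (Nat.succ s.sy) B.bmin) false
            (@Bool.casesOn (fun _ => Bool) (okY B s LS (Nat.div c (nat_lit 4))) false
              (ih (chY s rest LS 0 (Nat.div c (nat_lit 4))))))
          (fun _ _ => @Bool.casesOn (fun _ => Bool) (Nat.ble B.amax s.sx) false
            (@Bool.casesOn (fun _ => Bool) (Nat.ble B.bmax s.sy) false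
            (@Bool.casesOn (fun _ => Bool) (Nat.ble 1 B.amax) false
            (@Bool.casesOn (fun _ => Bool) (Nat.ble 1 B.bmax) false
            (@Bool.casesOn (fun _ => Bool) (memS (mpp Prod.fst s.X) (mpp Prod.fst s.Y) SolR) false
              (ih rest)))))) m) (Nat.mod c (nat_lit 4)))) cs

noncomputable def st0 (hG hH : HR) (m n : ℕ) : St :=
  ⟨tab hG hH m 0 (SS :: List.replicate (n - 1) 0) (SS :: List.replicate (n - 1) 0)
    (List.replicate n 0), [], [], 0, 0⟩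

end Pool.Agent.NF
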