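import Mathlib
import Pool.Agent.Helper73.KS.Law

/-!
# Comparison of order statistics: closed form and recursion
-/

set_option autoImplicit false

namespace Pool.Agent.NF

open Finset intervalIntegral Pool.Agent.Helper73.KS

/-- number of merged orders in which at least `I` first points precede the `J`-th second point -/
def Pn (a b I J : ℕ) : ℕ :=
  ∑ k ∈ Ico I (a + 1), (k + J - 1).choose k * (a - k + b - J).choose (a - k)

/-- probability that the `I`-th of `a` points precedes the `J`-th of `b` points -/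
noncomputable def P (a b I J : ℕ) : ℝ := (Pn a b I J : ℝ) / ((a + b).choose a : ℝ)

/-- probability that at least `I` of `a` uniform points are below `t` -/
noncomputable def tl (a I : ℕ) (t : ℝ) : ℝ :=
  ∑ k ∈ Ico I (a + 1), (a.choose k : ℝ) * t ^ k * (1 - t) ^ (a - k)

@[fun_prop]
lemma tl_cont (a I : ℕ) : Continuous (tl a I) := by unfold tl; fun_prop

lemma tl_zero (a : ℕ) (t : ℝ) : tl a 0 t = 1 := by
  have h := add_pow t (1 - t) a
  rw [add_sub_cancel, one_pow] at h
  unfold tl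
  rw [← Finset.range_eq_Ico]
  exact (Finset.sum_congr rfl fun k _ => by ring).trans h.symm

lemma tl_top {a I : ℕ} (h : a < I) (t : ℝ) : tl a I t = 0 := by
  unfold tl
  rw [Finset.Ico_eq_empty (by omega), Finset.sum_empty]

lemma tl_succ {a I : ℕ} (h : I ≤ a) (t : ℝ) :
    tl a I t = (a.choose I : ℝ) * t ^ I * (1 - t) ^ (a - I) + tl a (I + 1) t := by
  unfold tl
  rw [Finset.sum_eq_sum_Ico_succ_bot (by omega)]

lemma tl_deriv (n : ℕ) : ∀ m i : ℕ, i + m = n → ∀ t : ℝ,
    HasDerivAt (tl (n + 1) (i + 1)) (bet n i t) t := by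
  intro m
  induction m with
  | zero =>
    intro i hi t
    have h0 : tl (n + 1) (i + 1) = fun t : ℝ => t ^ (n + 1) := by
      funext s
      rw [show i = n by omega, tl_succ le_rfl, tl_top (by omega)]
      simp
    rw [h0]
    refine (hasDerivAt_pow (n + 1) t).congr_deriv ?_
    unfold bet
    rw [show i = n by omega]
    simp
  | succ m ih =>
    intro i hi t
    have h1 := ih (i + 1) (by omega) t
    have h0 : tl (n + 1) (i + 1) = fun t : ℝ =>
        ((n + 1).choose (i + 1) : ℝ) * t ^ (i + 1) * (1 - t) ^ (m + 1) +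
          tl (n + 1) (i + 1 + 1) t := by
      funext s
      rw [tl_succ (by omega)]
      have e : n + 1 - (i + 1) = m + 1 := by omega
      rw [e]
    rw [h0]
    have h2 : HasDerivAt (fun t : ℝ => ((n + 1).choose (i + 1) : ℝ) * t ^ (i + 1) *
        (1 - t) ^ (m + 1)) (((n + 1).choose (i + 1) : ℝ) * ((i + 1) * t ^ i) * (1 - t) ^ (m + 1) +
          ((n + 1).choose (i + 1) : ℝ) * t ^ (i + 1) * ((m + 1) * (1 - t) ^ m * (-1))) t := by
      have h3 := ((hasDerivAt_pow (i + 1) t).const_mul ((n + 1).choose (i + 1) : ℝ)).mul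
        (((hasDerivAt_id t).const_sub 1).pow (m + 1))
      refine (h3.congr_deriv ?_)
      simp only [Nat.cast_add, Nat.cast_one, Nat.add_sub_cancel, id, Pi.pow_apply]
    refine (h2.add h1).congr_deriv ?_
    have e1 : ((n + 1).choose (i + 1) : ℝ) * (i + 1) = (n + 1) * (n.choose i) := by
      have := Nat.add_one_mul_choose_eq n i
      have h' : (((n + 1) * n.choose i : ℕ) : ℝ) = (((n + 1).choose (i + 1) * (i + 1) : ℕ) : ℝ) := by
        exact_mod_cast this
      push_cast at h'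
      linarith
    have e2 : ((n + 1).choose (i + 1) : ℝ) * (m + 1) = (n + 1) * (n.choose (i + 1)) := by
      have h' := Nat.choose_mul_succ_eq n (i + 1)
      have e : n + 1 - (i + 1) = m + 1 := by omega
      rw [e] at h'
      have h'' : ((n.choose (i + 1) * (n + 1) : ℕ) : ℝ) =
          (((n + 1).choose (i + 1) * (m + 1) : ℕ) : ℝ) := by exact_mod_cast h'
      push_cast at h''
      linarith
    unfold bet
    have e3 : n - i = m + 1 := by omega
    have e4 : n - (i + 1) = m := by omega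
    rw [e3, e4]
    linear_combination (t ^ i * (1 - t) ^ (m + 1)) * e1 - (t ^ (i + 1) * (1 - t) ^ m) * e2

/-- the distribution function -/
lemma cdf_eq (n : ℕ) (h : ℕ → ℝ) {t : ℝ} (h0 : 0 ≤ t) (h1 : t ≤ 1) :
    cdf n h t = ∑ i ∈ range (n + 1), h i * tl (n + 1) (i + 1) t := by
  unfold cdf
  rw [clamp_of_mem h0 h1]
  have hd : ∀ s : ℝ, HasDerivAt (fun s => ∑ i ∈ range (n + 1), h i * tl (n + 1) (i + 1) s)
      (Pool.Agent.Helper73.KS.dens n h s) s := by
    intro s
    unfold Pool.Agent.Helper73.KS.dens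
    refine HasDerivAt.fun_sum fun i hi => ?_
    have hi' : i ≤ n := by have := Finset.mem_range.1 hi; omega
    exact (tl_deriv n (n - i) i (by omega) s).const_mul (h i)
  rw [intervalIntegral.integral_eq_sub_of_hasDerivAt (fun s _ => hd s)
    ((dens_cont n h).intervalIntegrable _ _)]
  have h2 : ∑ i ∈ range (n + 1), h i * tl (n + 1) (i + 1) 0 = 0 := by
    refine Finset.sum_eq_zero fun i _ => ?_
    have : tl (n + 1) (i + 1) 0 = 0 := by
      unfold tl
      refine Finset.sum_eq_zero fun k hk => ?_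
      have := (Finset.mem_Ico.1 hk).1
      rw [zero_pow (by omega)]
      ring
    rw [this, mul_zero]
  rw [h2, sub_zero]

/-- beta integral of a binomial tail -/
lemma int_tl {m j : ℕ} (hj : j ≤ m) (a I : ℕ) :
    ∫ t in (0:ℝ)..1, tl a I t * bet m j t = P a (m + 1) I (j + 1) := by
  have h0 : ∀ t : ℝ, tl a I t * bet m j t = ∑ k ∈ Ico I (a + 1),
      ((a.choose k : ℝ) * ((m + 1) * m.choose j)) * (t ^ (k + j) * (1 - t) ^ (a - k + (m - j))) := by
    intro t
    unfold tl bet
    rw [Finset.sum_mul]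
    refine Finset.sum_congr rfl fun k _ => ?_
    rw [pow_add, pow_add]
    ring
  simp only [h0]
  rw [intervalIntegral.integral_finsetSum]
  · unfold P Pn
    rw [Nat.cast_sum, Finset.sum_div]
    refine Finset.sum_congr rfl fun k hk => ?_
    have hk' : k ≤ a := by have := (Finset.mem_Ico.1 hk).2; omega
    rw [intervalIntegral.integral_const_mul, beta_int]
    have e1 : k + (j + 1) - 1 = k + j := by omega
    have e2 : a - k + (m + 1) - (j + 1) = (a - k) + (m - j) := by omega
    have e3 : k + j + (a - k + (m - j)) + 1 = a + (m + 1) := by omega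
    rw [e1, e2, e3]
    have c1 : (a.choose k : ℝ) = a.factorial / (k.factorial * (a - k).factorial) :=
      Nat.cast_choose ℝ hk'
    have c2 : (m.choose j : ℝ) = m.factorial / (j.factorial * (m - j).factorial) :=
      Nat.cast_choose ℝ hj
    have c3 : ((k + j).choose k : ℝ) = (k + j).factorial / (k.factorial * j.factorial) := by
      rw [Nat.cast_choose ℝ (by omega : k ≤ k + j), Nat.add_sub_cancel_left]
    have c4 : (((a - k) + (m - j)).choose (a - k) : ℝ) =
        ((a - k) + (m - j)).factorial / ((a - k).factorial * (m - j).factorial) := by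
      rw [Nat.cast_choose ℝ (by omega : (a - k) ≤ (a - k) + (m - j)), Nat.add_sub_cancel_left]
    have c5 : ((a + (m + 1)).choose a : ℝ) =
        (a + (m + 1)).factorial / (a.factorial * (m + 1).factorial) := by
      rw [Nat.cast_choose ℝ (by omega : a ≤ a + (m + 1)), Nat.add_sub_cancel_left]
    rw [Nat.cast_mul, c1, c2, c3, c4, c5, Nat.factorial_succ m]
    have f1 : (a.factorial : ℝ) ≠ 0 := by exact_mod_cast a.factorial_ne_zero
    have f2 : (m.factorial : ℝ) ≠ 0 := by exact_mod_cast m.factorial_ne_zero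
    have f3 : (k.factorial : ℝ) ≠ 0 := by exact_mod_cast k.factorial_ne_zero
    have f4 : (j.factorial : ℝ) ≠ 0 := by exact_mod_cast j.factorial_ne_zero
    have f5 : ((a - k).factorial : ℝ) ≠ 0 := by exact_mod_cast (a - k).factorial_ne_zero
    have f6 : ((m - j).factorial : ℝ) ≠ 0 := by exact_mod_cast (m - j).factorial_ne_zero
    have f7 : ((a + (m + 1)).factorial : ℝ) ≠ 0 := by
      exact_mod_cast (a + (m + 1)).factorial_ne_zero
    have f8 : (m : ℝ) + 1 ≠ 0 := by positivity
    push_cast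
    field_simp
  · intro k _
    exact Continuous.intervalIntegrable (by fun_prop) _ _

lemma P_zero {a b J : ℕ} (h1 : 1 ≤ J) (h2 : J ≤ b) : P a b 0 J = 1 := by
  obtain ⟨j, rfl⟩ : ∃ j, J = j + 1 := ⟨J - 1, by omega⟩
  obtain ⟨m, rfl⟩ : ∃ m, b = m + 1 := ⟨b - 1, by omega⟩
  rw [← int_tl (by omega) a 0]
  simp only [tl_zero, one_mul]
  exact bet_int (by omega)

lemma P_bot (a b I : ℕ) : P a b (I + 1) 0 = 0 := by
  unfold P Pn
  rw [Finset.sum_eq_zero, Nat.cast_zero, zero_div]
  intro k hk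
  have := (Finset.mem_Ico.1 hk).1
  rw [Nat.choose_eq_zero_of_lt (by omega), zero_mul]

lemma P_nonneg (a b I J : ℕ) : 0 ≤ P a b I J := by unfold P; positivity

lemma Pn_rec {b J : ℕ} (a I : ℕ) (hJ : J ≤ b) :
    Pn (a + 1) (b + 1) (I + 1) (J + 1) = Pn a (b + 1) I (J + 1) + Pn (a + 1) b (I + 1) J := by
  unfold Pn
  have h1 : ∑ k ∈ Ico I (a + 1), (k + (J + 1) - 1).choose k *
      (a - k + (b + 1) - (J + 1)).choose (a - k) = ∑ k ∈ Ico (I + 1) (a + 1 + 1),
      (k - 1 + (J + 1) - 1).choose (k - 1) *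
      (a - (k - 1) + (b + 1) - (J + 1)).choose (a - (k - 1)) := by
    rw [← Finset.sum_Ico_add' (fun k => (k - 1 + (J + 1) - 1).choose (k - 1) *
      (a - (k - 1) + (b + 1) - (J + 1)).choose (a - (k - 1))) I (a + 1) 1]
    simp only [Nat.add_sub_cancel]
  rw [h1, ← Finset.sum_add_distrib]
  refine Finset.sum_congr rfl fun k hk => ?_
  obtain ⟨hk1, hk2⟩ := Finset.mem_Ico.1 hk
  obtain ⟨k', rfl⟩ : ∃ k', k = k' + 1 := ⟨k - 1, by omega⟩
  have e1 : k' + 1 + (J + 1) - 1 = (k' + J) + 1 := by omega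
  have e2 : a + 1 - (k' + 1) = a - k' := by omega
  have e3 : a - k' + (b + 1) - (J + 1) = a - k' + b - J := by omega
  have e4 : k' + (J + 1) - 1 = k' + J := by omega
  have e5 : k' + 1 - 1 = k' := by omega
  have e6 : k' + 1 + J - 1 = k' + J := by omega
  rw [e5, e1, e2, e3, e4, e6, Nat.choose_succ_succ]
  ring

lemma P_rec {b J : ℕ} (a I : ℕ) (hJ : J ≤ b) :
    P (a + 1) (b + 1) (I + 1) (J + 1) = ((a + 1 : ℝ) / (a + b + 2)) * P a (b + 1) I (J + 1) +
      ((b + 1 : ℝ) / (a + b + 2)) * P (a + 1) b (I + 1) J := by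
  unfold P
  rw [Pn_rec a I hJ]
  have h1 : ((a + 1 + (b + 1)).choose (a + 1) : ℝ) * (a + 1) =
      (a + b + 2) * ((a + (b + 1)).choose a) := by
    have h := Nat.add_one_mul_choose_eq (a + (b + 1)) a
    have e : a + (b + 1) + 1 = a + 1 + (b + 1) := by ring
    rw [e] at h
    have h' : (((a + 1 + (b + 1)) * (a + (b + 1)).choose a : ℕ) : ℝ) =
        (((a + 1 + (b + 1)).choose (a + 1) * (a + 1) : ℕ) : ℝ) := by exact_mod_cast h
    push_cast at h'
    linarith
  have h2 : ((a + 1 + (b + 1)).choose (a + 1) : ℝ) * (b + 1) =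
      (a + b + 2) * ((a + 1 + b).choose (a + 1)) := by
    have h := Nat.choose_mul_succ_eq (a + 1 + b) (a + 1)
    have e : a + 1 + b + 1 - (a + 1) = b + 1 := by omega
    rw [e] at h
    have e' : a + 1 + b + 1 = a + 1 + (b + 1) := by ring
    rw [e'] at h
    have h' : (((a + 1 + b).choose (a + 1) * (a + 1 + (b + 1)) : ℕ) : ℝ) =
        (((a + 1 + (b + 1)).choose (a + 1) * (b + 1) : ℕ) : ℝ) := by exact_mod_cast h
    push_cast at h'
    linarith
  have p1 : (0:ℝ) < ((a + 1 + (b + 1)).choose (a + 1) : ℕ) := by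
    exact_mod_cast Nat.choose_pos (by omega)
  have p2 : (0:ℝ) < ((a + (b + 1)).choose a : ℕ) := by exact_mod_cast Nat.choose_pos (by omega)
  have p3 : (0:ℝ) < ((a + 1 + b).choose (a + 1) : ℕ) := by exact_mod_cast Nat.choose_pos (by omega)
  have p4 : (0:ℝ) < a + b + 2 := by positivity
  have q1 : ((a + 1 : ℝ) / (a + b + 2)) * ((Pn a (b + 1) I (J + 1) : ℝ) /
      ((a + (b + 1)).choose a : ℝ)) = (Pn a (b + 1) I (J + 1) : ℝ) /
        ((a + 1 + (b + 1)).choose (a + 1) : ℝ) := by
    rw [div_mul_div_comm, div_eq_div_iff (by positivity) p1.ne']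
    linear_combination (Pn a (b + 1) I (J + 1) : ℝ) * h1
  have q2 : ((b + 1 : ℝ) / (a + b + 2)) * ((Pn (a + 1) b (I + 1) J : ℝ) /
      ((a + 1 + b).choose (a + 1) : ℝ)) = (Pn (a + 1) b (I + 1) J : ℝ) /
        ((a + 1 + (b + 1)).choose (a + 1) : ℝ) := by
    rw [div_mul_div_comm, div_eq_div_iff (by positivity) p1.ne']
    linear_combination (Pn (a + 1) b (I + 1) J : ℝ) * h2
  rw [q1, q2, ← add_div, Nat.cast_add]

lemma P_le_one {b J : ℕ} (a I : ℕ) (h1 : 1 ≤ J) (h2 : J ≤ b) : P a b I J ≤ 1 := by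
  rw [← P_zero (a := a) h1 h2]
  unfold P
  have : Pn a b I J ≤ Pn a b 0 J := by
    unfold Pn
    refine Finset.sum_le_sum_of_subset ?_
    intro k hk
    have := Finset.mem_Ico.1 hk
    exact Finset.mem_Ico.2 ⟨Nat.zero_le _, this.2⟩
  have h3 : (Pn a b I J : ℝ) ≤ Pn a b 0 J := by exact_mod_cast this
  exact div_le_div_of_nonneg_right h3 (by positivity)

/-- monotonicity along a diagonal -/
lemma P_diag : ∀ n a b I J : ℕ, I + J = n → I ≤ a → J ≤ b →
    P (a + 1) b (I + 1) J ≤ P a (b + 1) I (J + 1) := by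
  intro n
  induction n with
  | zero =>
    intro a b I J h hI hJ
    rw [show J = 0 by omega, P_bot]
    exact P_nonneg _ _ _ _
  | succ n ih =>
    intro a b I J h hI hJ
    rcases Nat.eq_zero_or_pos J with h0 | h0
    · rw [h0, P_bot]
      exact P_nonneg _ _ _ _
    rcases Nat.eq_zero_or_pos I with h1 | h1
    · rw [h1, P_zero (by omega) (by omega)]
      exact P_le_one _ _ h0 hJ
    obtain ⟨I, rfl⟩ : ∃ k, I = k + 1 := ⟨I - 1, by omega⟩
    obtain ⟨J, rfl⟩ : ∃ k, J = k + 1 := ⟨J - 1, by omega⟩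
    obtain ⟨a, rfl⟩ : ∃ k, a = k + 1 := ⟨a - 1, by omega⟩
    obtain ⟨b, rfl⟩ : ∃ k, b = k + 1 := ⟨b - 1, by omega⟩
    rw [P_rec (a + 1) (I + 1) (by omega), P_rec (b := b + 1) a I (by omega)]
    have g1 : P (a + 1 + 1) b (I + 1 + 1) J ≤ P (a + 1) (b + 1) (I + 1) (J + 1) := by
      rcases Nat.eq_zero_or_pos J with h2 | h2
      · rw [h2, P_bot]; exact P_nonneg _ _ _ _
      · exact ih (a + 1) b (I + 1) J (by omega) (by omega) (by omega)
    have g2 : P (a + 1) (b + 1) (I + 1) (J + 1) ≤ P a (b + 1 + 1) I (J + 1 + 1) :=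
      ih a (b + 1) I (J + 1) (by omega) (by omega) (by omega)
    set x := P (a + 1 + 1) b (I + 1 + 1) J
    set y := P (a + 1) (b + 1) (I + 1) (J + 1)
    set z := P a (b + 1 + 1) I (J + 1 + 1)
    have ha : (0:ℝ) ≤ a := Nat.cast_nonneg a
    have hb : (0:ℝ) ≤ b := Nat.cast_nonneg b
    have l1 : (((a + 1 : ℕ) : ℝ) + 1) / (((a + 1 : ℕ) : ℝ) + b + 2) * y +
        ((b : ℝ) + 1) / (((a + 1 : ℕ) : ℝ) + b + 2) * x ≤ y := by
      rw [div_mul_eq_mul_div, div_mul_eq_mul_div, ← add_div, div_le_iff₀ (by positivity)]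
      push_cast
      nlinarith
    have l2 : y ≤ ((a : ℝ) + 1) / ((a : ℝ) + ((b + 1 : ℕ) : ℝ) + 2) * z +
        (((b + 1 : ℕ) : ℝ) + 1) / ((a : ℝ) + ((b + 1 : ℕ) : ℝ) + 2) * y := by
      rw [div_mul_eq_mul_div, div_mul_eq_mul_div, ← add_div, le_div_iff₀ (by positivity)]
      push_cast
      nlinarith
    exact l1.trans l2

/-- **The cross probability of two laws.** -/
theorem E_cdf (n m : ℕ) (h g : ℕ → ℝ) : E m g (cdf n h) =
    ∑ i ∈ range (n + 1), h i * ∑ j ∈ range (m + 1), g j * P (n + 1) (m + 1) (i + 1) (j + 1) := by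
  have h1 : E m g (cdf n h) = E m g (fun t => ∑ i ∈ range (n + 1), h i * tl (n + 1) (i + 1) t) := by
    unfold E
    refine intervalIntegral.integral_congr fun t ht => ?_
    rw [Set.uIcc_of_le zero_le_one] at ht
    simp only
    rw [cdf_eq n h ht.1 ht.2]
  rw [h1, E_sum m g (by fun_prop)]
  have h2 : ∀ j ∈ range (m + 1), g j * ∫ t in (0:ℝ)..1,
      (∑ i ∈ range (n + 1), h i * tl (n + 1) (i + 1) t) * bet m j t =
      ∑ i ∈ range (n + 1), h i * (g j * P (n + 1) (m + 1) (i + 1) (j + 1)) := by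
    intro j hj
    have hj' : j ≤ m := by have := Finset.mem_range.1 hj; omega
    have h3 : ∀ t : ℝ, (∑ i ∈ range (n + 1), h i * tl (n + 1) (i + 1) t) * bet m j t =
        ∑ i ∈ range (n + 1), h i * (tl (n + 1) (i + 1) t * bet m j t) := by
      intro t
      rw [Finset.sum_mul]
      exact Finset.sum_congr rfl fun i _ => by ring
    simp only [h3]
    rw [intervalIntegral.integral_finsetSum, Finset.mul_sum]
    · refine Finset.sum_congr rfl fun i _ => ?_
      rw [intervalIntegral.integral_const_mul, int_tl hj']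
      ring
    · intro i _
      exact Continuous.intervalIntegrable (by fun_prop) _ _
  rw [Finset.sum_congr rfl h2, Finset.sum_comm]
  refine Finset.sum_congr rfl fun i _ => ?_
  rw [Finset.mul_sum]

end Pool.Agent.NF
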