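import Mathlib
import Pool.Agent.Helper43.NF.Defs
import Pool.Agent.Helper43.NF.Pf

/-!
# Soundness of the tables
-/

set_option autoImplicit false

namespace Pool.Agent.NF

open Finset

section lists

variable {α β : Type}

@[simp] lemma nth_nil (d : α) (n : ℕ) : nth d n [] = d := by cases n <;> rfl
@[simp] lemma nth_zero (d a : α) (l : List α) : nth d 0 (a :: l) = a := rfl
@[simp] lemma nth_succ (d a : α) (n : ℕ) (l : List α) : nth d (n + 1) (a :: l) = nth d n l := rfl

lemma nth_drp (d : α) : ∀ (n i : ℕ) (l : List α), nth d i (drp n l) = nth d (n + i) l := by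
  intro n
  induction n with
  | zero => intro i l; rw [Nat.zero_add]; rfl
  | succ n ih =>
    intro i l
    cases l with
    | nil =>
      change nth d i [] = _
      simp
    | cons a t =>
      change nth d i (drp n t) = _
      rw [ih, show n + 1 + i = (n + i) + 1 by ring, nth_succ]

lemma nth_mpp (f : α → β) (d : α) : ∀ (l : List α) (i : ℕ),
    nth (f d) i (mpp f l) = f (nth d i l) := by
  intro l
  induction l with
  | nil => intro i; change nth (f d) i [] = _; simp
  | cons a t ih =>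
    intro i
    cases i with
    | zero => rfl
    | succ i => exact ih i

lemma mpp_eq (f : α → β) (l : List α) : mpp f l = l.map f := by
  induction l with
  | nil => rfl
  | cons a t ih =>
    change f a :: mpp f t = _
    rw [ih]; rfl

lemma nth_mem (d : α) : ∀ (l : List α) (i : ℕ), nth d i l ∈ l ∨ nth d i l = d := by
  intro l
  induction l with
  | nil => intro i; right; simp
  | cons a t ih =>
    intro i
    cases i with
    | zero => left; simp
    | succ i =>
      rcases ih i with h | h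
      · left; exact List.mem_cons_of_mem _ h
      · right; exact h

end lists

/-- half region -/
def HR.ok : HR → ℕ → ℕ → Prop
  | .box a₁ b₂, a, b => a₁ ≤ a ∧ b ≤ b₂
  | .cone n d N₁ N₂, a, b => n * (a + b) ≤ d * a ∧ N₁ ≤ a + b ∧ a + b ≤ N₂
  | .cone' n d N₁, a, b => n * (a + b) ≤ d * a ∧ N₁ ≤ a + b

lemma lo_box (a b k l : ℕ) : (HR.box a b).lo k l = (a - k, a + b - k - l) := rfl

lemma lo_cone (n d N₁ N₂ k l : ℕ) : (HR.cone n d N₁ N₂).lo k l =
    if d * k ≤ n * (k + l) then (n * N₂ - d * k, d * (N₂ - k - l))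
    else (n * N₁ - d * k, d * (N₁ - k - l)) := by
  split_ifs with h
  · have h' : Nat.ble (d * k) (n * (k + l)) = true := by rw [Nat.ble_eq]; exact h
    change @Bool.casesOn (fun _ => ℕ × ℕ) (Nat.ble (d * k) (n * (k + l))) _ _ = _
    rw [h']; rfl
  · have h' : Nat.ble (d * k) (n * (k + l)) = false := by
      rw [← Bool.not_eq_true, Nat.ble_eq]; exact h
    change @Bool.casesOn (fun _ => ℕ × ℕ) (Nat.ble (d * k) (n * (k + l))) _ _ = _
    rw [h']; rfl

lemma lo_cone' (n d N₁ k l : ℕ) : (HR.cone' n d N₁).lo k l =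
    if d * k ≤ n * (k + l) then (n, d)
    else (n * N₁ - d * k, d * (N₁ - k - l)) := by
  split_ifs with h
  · have h' : Nat.ble (d * k) (n * (k + l)) = true := by rw [Nat.ble_eq]; exact h
    change @Bool.casesOn (fun _ => ℕ × ℕ) (Nat.ble (d * k) (n * (k + l))) _ _ = _
    rw [h']
  · have h' : Nat.ble (d * k) (n * (k + l)) = false := by
      rw [← Bool.not_eq_true, Nat.ble_eq]; exact h
    change @Bool.casesOn (fun _ => ℕ × ℕ) (Nat.ble (d * k) (n * (k + l))) _ _ = _
    rw [h']; rfl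

/-- lower branch of the cone bound -/
lemma cone_low {n d N₁ k l α β : ℕ} (h : n * (k + α + (l + β)) ≤ d * (k + α))
    (hN : N₁ ≤ k + α + (l + β)) (hc : n * (k + l) < d * k) :
    (n * N₁ - d * k) * (α + β) ≤ d * (N₁ - k - l) * α := by
  rcases Nat.lt_or_ge (d * k) (n * N₁) with h1 | h1
  · have h2 : k + l < N₁ := by
      by_contra hcon
      push Not at hcon
      have : n * N₁ ≤ n * (k + l) := Nat.mul_le_mul_left _ hcon
      omega
    obtain ⟨v, rfl⟩ : ∃ v, N₁ = k + l + v := ⟨N₁ - (k + l), by omega⟩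
    have e1 : k + l + v - k - l = v := by omega
    rw [e1]
    have hv : v ≤ α + β := by omega
    zify [h1.le] at *
    nlinarith [mul_nonneg (sub_nonneg.2 hc.le) (sub_nonneg.2 hv)]
  · rw [Nat.sub_eq_zero_of_le h1]
    simp

lemma lo_ok {h : HR} {a b k l : ℕ} (hok : h.ok a b) (hk : k < a) (hl : l < b) :
    (h.lo k l).1 * ((a - k) + (b - l)) ≤ (h.lo k l).2 * (a - k) := by
  obtain ⟨α, rfl⟩ : ∃ α, a = k + α := ⟨a - k, by omega⟩
  obtain ⟨β, rfl⟩ : ∃ β, b = l + β := ⟨b - l, by omega⟩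
  rw [Nat.add_sub_cancel_left, Nat.add_sub_cancel_left]
  cases h with
  | box a₁ b₂ =>
    obtain ⟨h1, h2⟩ := hok
    rw [lo_box]
    simp only
    rcases Nat.lt_or_ge k a₁ with h3 | h3
    · obtain ⟨u, rfl⟩ : ∃ u, a₁ = k + u := ⟨a₁ - k, by omega⟩
      obtain ⟨v, rfl⟩ : ∃ v, b₂ = l + v := ⟨b₂ - l, by omega⟩
      have e1 : k + u - k = u := by omega
      have e2 : k + u + (l + v) - k - l = u + v := by omega
      rw [e1, e2]
      have h4 : u ≤ α := by omega
      have h5 : β ≤ v := by omega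
      have h6 : u * β ≤ α * v := Nat.mul_le_mul h4 h5
      nlinarith
    · rw [Nat.sub_eq_zero_of_le h3]
      simp
  | cone n d N₁ N₂ =>
    obtain ⟨h1, h2, h3⟩ := hok
    rw [lo_cone]
    split_ifs with hc
    · simp only
      obtain ⟨v, rfl⟩ : ∃ v, N₂ = k + l + v := ⟨N₂ - (k + l), by omega⟩
      have e1 : k + l + v - k - l = v := by omega
      have h4 : d * k ≤ n * (k + l + v) :=
        hc.trans (Nat.mul_le_mul_left _ (by omega))
      rw [e1]
      have hv : α + β ≤ v := by omega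
      zify [h4] at *
      nlinarith [mul_nonneg (sub_nonneg.2 hc) (sub_nonneg.2 hv)]
    · push Not at hc
      exact cone_low h1 h2 hc
  | cone' n d N₁ =>
    obtain ⟨h1, h2⟩ := hok
    rw [lo_cone']
    split_ifs with hc
    · simp only
      nlinarith
    · push Not at hc
      exact cone_low h1 h2 hc

/-- one step -/
lemma loc {A n d : ℕ} {x y F₁ F₂ : ℝ} (hx : 0 < x) (hy : 0 < y)
    (h : (n : ℝ) * (x + y) ≤ d * x) (h21 : F₂ ≤ F₁) (h2 : 0 ≤ F₂) :
    ((A * n / d : ℕ) : ℝ) * F₁ + ((A * (d - n) / d : ℕ) : ℝ) * F₂ ≤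
      A * ((x * F₁ + y * F₂) / (x + y)) := by
  have hA : (0:ℝ) ≤ A := Nat.cast_nonneg A
  have hF1 : 0 ≤ F₁ := h2.trans h21
  rcases Nat.eq_zero_or_pos d with hd | hd
  · subst hd
    simp only [Nat.div_zero, Nat.cast_zero, zero_mul, add_zero]
    positivity
  · have hd' : (0:ℝ) < d := by exact_mod_cast hd
    have hnd : n ≤ d := by
      have h1 : (n : ℝ) ≤ d := by
        by_contra hc
        push Not at hc
        nlinarith
      exact_mod_cast h1
    have c1 : ((A * n / d : ℕ) : ℝ) ≤ A * (n / d) := by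
      refine (Nat.cast_div_le).trans (le_of_eq ?_)
      push_cast; ring
    have c2 : ((A * (d - n) / d : ℕ) : ℝ) ≤ A * (1 - n / d) := by
      refine (Nat.cast_div_le).trans (le_of_eq ?_)
      push_cast [Nat.cast_sub hnd]
      field_simp
    have c3 : (n : ℝ) / d ≤ x / (x + y) := by
      rw [div_le_div_iff₀ hd' (by positivity)]
      linarith
    have c4 : ((A * n / d : ℕ) : ℝ) * F₁ ≤ A * (n / d) * F₁ := mul_le_mul_of_nonneg_right c1 hF1
    have c5 : ((A * (d - n) / d : ℕ) : ℝ) * F₂ ≤ A * (1 - n / d) * F₂ :=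
      mul_le_mul_of_nonneg_right c2 h2
    have c6 : (A : ℝ) * (n / d) * F₁ + A * (1 - n / d) * F₂ ≤
        A * ((x * F₁ + y * F₂) / (x + y)) := by
      have e : (x * F₁ + y * F₂) / (x + y) = F₂ + x / (x + y) * (F₁ - F₂) := by
        field_simp
        ring
      rw [e]
      have : (n : ℝ) / d * (F₁ - F₂) ≤ x / (x + y) * (F₁ - F₂) :=
        mul_le_mul_of_nonneg_right c3 (by linarith)
      nlinarith
    linarith

/-- abstract flow through a row -/
def flw (f : ℕ → ℕ → ℕ × ℕ) : List ℕ → ℕ → ℕ → List (ℕ × ℕ)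
  | [], _, _ => []
  | x :: t, l, y => f l (x + y) :: flw f t (l + 1) (f l (x + y)).2

lemma flowG_eq (h : HR) (k : ℕ) : ∀ (xs : List ℕ) (l y : ℕ), flowG h k xs l y =
    flw (fun l A => (A * (h.lo k l).1 / (h.lo k l).2,
      A * ((h.lo k l).2 - (h.lo k l).1) / (h.lo k l).2)) xs l y := by
  intro xs
  induction xs with
  | nil => intro l y; rfl
  | cons x t ih =>
    intro l y
    have e : flowG h k (x :: t) l y = nseq (x + y) fun A =>
      nseq (A * (h.lo k l).1 / (h.lo k l).2) fun p =>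
        nseq (A * ((h.lo k l).2 - (h.lo k l).1) / (h.lo k l).2) fun q =>
          (p, q) :: flowG h k t (l + 1) q := rfl
    rw [e, nseq_eq, nseq_eq, nseq_eq, ih]
    rfl

lemma flowH_eq (h : HR) (k : ℕ) : ∀ (xs : List ℕ) (l y : ℕ), flowH h k xs l y =
    flw (fun l A => (A * ((h.lo l k).2 - (h.lo l k).1) / (h.lo l k).2,
      A * (h.lo l k).1 / (h.lo l k).2)) xs l y := by
  intro xs
  induction xs with
  | nil => intro l y; rfl
  | cons x t ih =>
    intro l y
    have e : flowH h k (x :: t) l y = nseq (x + y) fun A =>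
      nseq (A * ((h.lo l k).2 - (h.lo l k).1) / (h.lo l k).2) fun p =>
        nseq (A * (h.lo l k).1 / (h.lo l k).2) fun q =>
          (p, q) :: flowH h k t (l + 1) q := rfl
    rw [e, nseq_eq, nseq_eq, nseq_eq, ih]
    rfl

/-- weighted sum -/
noncomputable def ws (n : ℕ) (xs : List ℕ) (F : ℕ → ℝ) : ℝ :=
  ∑ i ∈ range n, ((nth 0 i xs : ℕ) : ℝ) * F i

lemma ws_nil (n : ℕ) (F : ℕ → ℝ) : ws n [] F = 0 := by simp [ws]

lemma ws_cons (n x : ℕ) (t : List ℕ) (F : ℕ → ℝ) :
    ws (n + 1) (x :: t) F = x * F 0 + ws n t (fun i => F (i + 1)) := by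
  unfold ws
  rw [Finset.sum_range_succ']
  simp only [nth_succ, nth_zero]
  ring

lemma ws_nonneg {n : ℕ} {xs : List ℕ} {F : ℕ → ℝ} (h : ∀ i < n, 0 ≤ F i) : 0 ≤ ws n xs F :=
  Finset.sum_nonneg fun i hi => mul_nonneg (Nat.cast_nonneg _) (h i (Finset.mem_range.1 hi))

/-- the flow which leaves to the right -/
noncomputable def lastq : ℕ → List (ℕ × ℕ) → ℕ → ℕ
  | 0, _, y => y
  | n + 1, outs, _ => (nth (0, 0) n outs).2

lemma lastq_cons (n : ℕ) (p : ℕ × ℕ) (outs : List (ℕ × ℕ)) (y : ℕ) :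
    lastq (n + 1) (p :: outs) y = lastq n outs p.2 := by
  cases n <;> rfl

/-- conservation through a row -/
lemma flw_le {f : ℕ → ℕ → ℕ × ℕ} {J : ℕ} {F₀ F₁ : ℕ → ℝ}
    (hloc : ∀ l < J, ∀ A : ℕ, ((f l A).1 : ℝ) * F₁ l + ((f l A).2 : ℝ) * F₀ (l + 1) ≤ A * F₀ l)
    (h0 : ∀ l ≤ J, 0 ≤ F₀ l) : ∀ (n : ℕ) (xs : List ℕ) (l y : ℕ), l + n ≤ J →
    ws n (mpp Prod.fst (flw f xs l y)) (fun i => F₁ (l + i)) +
      (lastq n (flw f xs l y) y : ℝ) * F₀ (l + n) ≤ ws n xs (fun i => F₀ (l + i)) + y * F₀ l := by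
  intro n
  induction n with
  | zero =>
    intro xs l y _
    simp [ws, lastq]
  | succ n ih =>
    intro xs l y hl
    cases xs with
    | nil =>
      have e1 : mpp Prod.fst (flw f [] l y) = [] := rfl
      have e2 : lastq (n + 1) (flw f [] l y) y = (nth (0, 0) n []).2 := rfl
      rw [e1, e2, ws_nil, ws_nil, nth_nil]
      have := h0 l (by omega)
      simp only [Nat.cast_zero, zero_mul, zero_add]
      positivity
    | cons x t =>
      have e1 : mpp Prod.fst (flw f (x :: t) l y) =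
          (f l (x + y)).1 :: mpp Prod.fst (flw f t (l + 1) (f l (x + y)).2) := rfl
      have e2 : flw f (x :: t) l y = f l (x + y) :: flw f t (l + 1) (f l (x + y)).2 := rfl
      rw [e1, e2, ws_cons, ws_cons, lastq_cons]
      have h1 := ih t (l + 1) (f l (x + y)).2 (by omega)
      have h2 := hloc l (by omega) (x + y)
      have e3 : ∀ F : ℕ → ℝ, (fun i => F (l + (i + 1))) = fun i => F (l + 1 + i) := by
        intro F; funext i; congr 1; ring
      rw [e3 F₁, e3 F₀, show l + (n + 1) = l + 1 + n by ring]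
      push_cast at h2
      simp only [Nat.add_zero]
      linarith

lemma psum_le : ∀ (outs : List (ℕ × ℕ)) (c j : ℕ), ((nth 0 j (psum outs c) : ℕ) : ℝ) ≤
    c + ws (j + 1) (mpp Prod.fst outs) (fun _ => 1) := by
  intro outs
  induction outs with
  | nil =>
    intro c j
    have e1 : psum [] c = [] := rfl
    have e2 : mpp (Prod.fst : ℕ × ℕ → ℕ) [] = [] := rfl
    rw [e1, e2, nth_nil, ws_nil]
    simp
  | cons p t ih =>
    intro c j
    have e : psum (p :: t) c = (c + p.1) :: psum t (c + p.1) := by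
      have e' : psum (p :: t) c = nseq (c + p.1) fun s => s :: psum t s := rfl
      rw [e', nseq_eq]
    have e2 : mpp Prod.fst (p :: t) = p.1 :: mpp Prod.fst t := rfl
    rw [e, e2, ws_cons]
    cases j with
    | zero =>
      rw [nth_zero]
      simp [ws]
    | succ j =>
      rw [nth_succ]
      have := ih (c + p.1) j
      push_cast at this
      linarith

lemma addq_le : ∀ (outs : List (ℕ × ℕ)) (v : List ℕ) (j : ℕ),
    nth 0 j (addq outs v) ≤ nth 0 j v + (nth (0, 0) j outs).2 := by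
  intro outs
  induction outs with
  | nil =>
    intro v j
    change nth 0 j [] ≤ _
    simp
  | cons p t ih =>
    intro v j
    cases v with
    | nil =>
      have e : addq (p :: t) [] = p.2 :: addq t [] := by
        have e' : addq (p :: t) [] = nseq p.2 fun s => s :: addq t [] := rfl
        rw [e', nseq_eq]
      rw [e]
      cases j with
      | zero => simp
      | succ j => simpa using ih [] j
    | cons b v =>
      have e : addq (p :: t) (b :: v) = (b + p.2) :: addq t v := by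
        have e' : addq (p :: t) (b :: v) = nseq (b + p.2) fun s => s :: addq t v := rfl
        rw [e', nseq_eq]
      rw [e]
      cases j with
      | zero => simp
      | succ j => simpa using ih v j

lemma pack_ex : ∀ (G H : List ℕ) (j : ℕ), ∃ g h : ℕ, nth 0 j (pack G H) = g + BB * h ∧
    g ≤ nth 0 j G ∧ h ≤ nth 0 j H := by
  intro G
  induction G with
  | nil =>
    intro H j
    refine ⟨0, 0, ?_, Nat.zero_le _, Nat.zero_le _⟩
    change nth 0 j [] = _
    simp
  | cons a t ih =>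
    intro H j
    cases H with
    | nil =>
      refine ⟨0, 0, ?_, Nat.zero_le _, Nat.zero_le _⟩
      change nth 0 j [] = _
      simp
    | cons b v =>
      have e : pack (a :: t) (b :: v) = (a + BB * b) :: pack t v := by
        have e' : pack (a :: t) (b :: v) = nseq (a + BB * b) fun s => s :: pack t v := rfl
        rw [e', nseq_eq]
      rw [e]
      cases j with
      | zero => exact ⟨a, b, rfl, le_rfl, le_rfl⟩
      | succ j => simpa using ih v j

/-- a table with the correct lower bounds, at offset `(ox, oy)` -/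
def TabOK (a b ox oy : ℕ) (t : Tb) : Prop := ∀ i j, ox + i + 1 ≤ a → oy + j + 1 ≤ b →
  ∃ g h : ℕ, nth 0 j (nth [] i t) = g + BB * h ∧
    (g : ℝ) ≤ SS * P a b (ox + i + 1) (oy + j + 1) ∧
    (h : ℝ) ≤ SS * (1 - P a b (ox + i + 1) (oy + j + 1))

/-- the probability from the state `(k, l)` -/
noncomputable def FF (a b I J k l : ℕ) : ℝ := P (a - k) (b - l) (I - k) (J - l)

lemma FF_rec {a b I J k l : ℕ} (hk : k < I) (hI : I ≤ a) (hl : l < J) (hJ : J ≤ b) :
    FF a b I J k l = (((a - k : ℕ) : ℝ) * FF a b I J (k + 1) l +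
      ((b - l : ℕ) : ℝ) * FF a b I J k (l + 1)) / (((a - k : ℕ) : ℝ) + ((b - l : ℕ) : ℝ)) ∧
      FF a b I J k (l + 1) ≤ FF a b I J (k + 1) l ∧ 0 ≤ FF a b I J k (l + 1) ∧
      FF a b I J (k + 1) l ≤ 1 := by
  obtain ⟨x, rfl⟩ : ∃ x, a = k + 1 + x := ⟨a - (k + 1), by omega⟩
  obtain ⟨y, rfl⟩ : ∃ y, b = l + 1 + y := ⟨b - (l + 1), by omega⟩
  obtain ⟨i, rfl⟩ : ∃ i, I = k + 1 + i := ⟨I - (k + 1), by omega⟩
  obtain ⟨j, rfl⟩ : ∃ j, J = l + 1 + j := ⟨J - (l + 1), by omega⟩
  have e1 : k + 1 + x - k = x + 1 := by omega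
  have e2 : l + 1 + y - l = y + 1 := by omega
  have e3 : k + 1 + i - k = i + 1 := by omega
  have e4 : l + 1 + j - l = j + 1 := by omega
  have e5 : k + 1 + x - (k + 1) = x := by omega
  have e6 : l + 1 + y - (l + 1) = y := by omega
  have e7 : k + 1 + i - (k + 1) = i := by omega
  have e8 : l + 1 + j - (l + 1) = j := by omega
  unfold FF
  rw [e1, e2, e3, e4, e5, e6, e7, e8]
  refine ⟨?_, P_diag _ x y i j rfl (by omega) (by omega), P_nonneg _ _ _ _,
    P_le_one _ _ (by omega) (by omega)⟩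
  rw [P_rec x i (by omega)]
  have hx : (0:ℝ) ≤ x := Nat.cast_nonneg x
  have hy : (0:ℝ) ≤ y := Nat.cast_nonneg y
  push_cast
  rw [div_mul_eq_mul_div, div_mul_eq_mul_div, ← add_div]
  congr 1
  ring

lemma FF_row {a b I J : ℕ} (l : ℕ) (hl : l < J) (hJ : J ≤ b) : FF a b I J I l = 1 := by
  unfold FF
  rw [Nat.sub_self]
  exact P_zero (by omega) (by omega)

lemma FF_col {a b I J k : ℕ} (hk : k < I) : FF a b I J k J = 0 := by
  unfold FF
  rw [Nat.sub_self, show I - k = (I - k - 1) + 1 by omega]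
  exact P_bot _ _ _

lemma FF_le {a b I J k l : ℕ} (hk : k < I) (hl : l ≤ J) (hJ : J ≤ b) : FF a b I J k l ≤ 1 := by
  rcases Nat.lt_or_ge l J with h | h
  · exact P_le_one _ _ (by omega) (by omega)
  · have : l = J := by omega
    subst this
    rw [FF_col hk]
    exact zero_le_one

lemma FF_nonneg (a b I J k l : ℕ) : 0 ≤ FF a b I J k l := P_nonneg _ _ _ _

lemma step_G {h : HR} {a b I J k : ℕ} (hok : h.ok a b) (hk : k < I) (hI : I ≤ a) (hJ : J ≤ b)
    (l : ℕ) (hl : l < J) (A : ℕ) :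
    ((A * (h.lo k l).1 / (h.lo k l).2 : ℕ) : ℝ) * FF a b I J (k + 1) l +
      ((A * ((h.lo k l).2 - (h.lo k l).1) / (h.lo k l).2 : ℕ) : ℝ) * FF a b I J k (l + 1) ≤
      A * FF a b I J k l := by
  obtain ⟨h1, h2, h3, h4⟩ := FF_rec (a := a) (b := b) hk hI hl hJ
  rw [h1]
  have h5 := lo_ok hok (show k < a by omega) (show l < b by omega)
  have h6 : ((h.lo k l).1 : ℝ) * (((a - k : ℕ) : ℝ) + ((b - l : ℕ) : ℝ)) ≤
      ((h.lo k l).2 : ℝ) * ((a - k : ℕ) : ℝ) := by exact_mod_cast h5
  refine loc ?_ ?_ h6 h2 h3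
  · exact_mod_cast (show 0 < a - k by omega)
  · exact_mod_cast (show 0 < b - l by omega)

lemma step_H {h : HR} {a b I J k : ℕ} (hok : h.ok b a) (hk : k < I) (hI : I ≤ a) (hJ : J ≤ b)
    (l : ℕ) (hl : l < J) (A : ℕ) :
    ((A * ((h.lo l k).2 - (h.lo l k).1) / (h.lo l k).2 : ℕ) : ℝ) * (1 - FF a b I J (k + 1) l) +
      ((A * (h.lo l k).1 / (h.lo l k).2 : ℕ) : ℝ) * (1 - FF a b I J k (l + 1)) ≤
      A * (1 - FF a b I J k l) := by
  obtain ⟨h1, h2, h3, h4⟩ := FF_rec (a := a) (b := b) hk hI hl hJ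
  have h5 := lo_ok hok (show l < b by omega) (show k < a by omega)
  have h6 : ((h.lo l k).1 : ℝ) * (((b - l : ℕ) : ℝ) + ((a - k : ℕ) : ℝ)) ≤
      ((h.lo l k).2 : ℝ) * ((b - l : ℕ) : ℝ) := by exact_mod_cast h5
  have p1 : (0:ℝ) < ((a - k : ℕ) : ℝ) := by exact_mod_cast (show 0 < a - k by omega)
  have p2 : (0:ℝ) < ((b - l : ℕ) : ℝ) := by exact_mod_cast (show 0 < b - l by omega)
  have h7 := loc (A := A) p2 p1 h6 (F₁ := 1 - FF a b I J k (l + 1))
    (F₂ := 1 - FF a b I J (k + 1) l) (by linarith) (by linarith)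
  have e : (1:ℝ) - FF a b I J k l = (((b - l : ℕ) : ℝ) * (1 - FF a b I J k (l + 1)) +
      ((a - k : ℕ) : ℝ) * (1 - FF a b I J (k + 1) l)) / (((b - l : ℕ) : ℝ) + ((a - k : ℕ) : ℝ)) := by
    rw [h1]
    field_simp
    ring
  rw [e]
  linarith

lemma tab_sound {hG hH : HR} {a b I J : ℕ} (hokG : hG.ok a b) (hokH : hH.ok b a) (hI : I ≤ a)
    (hJ0 : 1 ≤ J) (hJ : J ≤ b) : ∀ (m k : ℕ) (xG xH acc : List ℕ) (i : ℕ), k + i + 1 = I →
    ∃ g h : ℕ, nth 0 (J - 1) (nth [] i (tab hG hH m k xG xH acc)) = g + BB * h ∧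
      (g : ℝ) ≤ ws J xG (fun l => FF a b I J k l) ∧
      (h : ℝ) ≤ ((nth 0 (J - 1) acc : ℕ) : ℝ) + ws J xH (fun l => 1 - FF a b I J k l) := by
  intro m
  induction m with
  | zero =>
    intro k xG xH acc i hi
    refine ⟨0, 0, ?_, ?_, ?_⟩
    · change nth 0 (J - 1) (nth [] i []) = _
      simp
    · rw [Nat.cast_zero]
      exact ws_nonneg fun l _ => FF_nonneg _ _ _ _ _ _
    · rw [Nat.cast_zero]
      refine add_nonneg (Nat.cast_nonneg _) (ws_nonneg fun l hl => ?_)
      have := FF_le (a := a) (I := I) (k := k) (by omega) hl.le hJ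
      linarith
  | succ m ih =>
    intro k xG xH acc i hi
    have hk : k < I := by omega
    -- conservation
    have cG := flw_le (f := fun l A => (A * (hG.lo k l).1 / (hG.lo k l).2,
      A * ((hG.lo k l).2 - (hG.lo k l).1) / (hG.lo k l).2)) (J := J)
      (F₀ := fun l => FF a b I J k l) (F₁ := fun l => FF a b I J (k + 1) l)
      (fun l hl A => step_G hokG hk hI hJ l hl A) (fun l _ => FF_nonneg _ _ _ _ _ _)
      J xG 0 0 (by omega)
    have cH := flw_le (f := fun l A => (A * ((hH.lo l k).2 - (hH.lo l k).1) / (hH.lo l k).2,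
      A * (hH.lo l k).1 / (hH.lo l k).2)) (J := J)
      (F₀ := fun l => 1 - FF a b I J k l) (F₁ := fun l => 1 - FF a b I J (k + 1) l)
      (fun l hl A => step_H hokH hk hI hJ l hl A)
      (fun l hl => by have := FF_le (a := a) hk hl hJ; linarith)
      J xH 0 0 (by omega)
    rw [← flowG_eq] at cG
    rw [← flowH_eq] at cH
    simp only [Nat.zero_add, Nat.cast_zero, zero_mul, add_zero, FF_col hk, mul_zero, sub_zero,
      mul_one] at cG cH
    have lq : lastq J (flowH hH k xH 0 0) 0 = (nth (0, 0) (J - 1) (flowH hH k xH 0 0)).2 := by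
      obtain ⟨j, rfl⟩ : ∃ j, J = j + 1 := ⟨J - 1, by omega⟩
      rfl
    rw [lq] at cH
    have aq := addq_le (flowH hH k xH 0 0) acc (J - 1)
    have aq' : ((nth 0 (J - 1) (addq (flowH hH k xH 0 0) acc) : ℕ) : ℝ) ≤
        ((nth 0 (J - 1) acc : ℕ) : ℝ) + (nth (0, 0) (J - 1) (flowH hH k xH 0 0)).2 := by
      exact_mod_cast aq
    have et : tab hG hH (m + 1) k xG xH acc =
        (pack (psum (flowG hG k xG 0 0) 0) (addq (flowH hH k xH 0 0) acc)) ::
          tab hG hH m (k + 1) (mpp Prod.fst (flowG hG k xG 0 0))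
            (mpp Prod.fst (flowH hH k xH 0 0)) (addq (flowH hH k xH 0 0) acc) := rfl
    rw [et]
    cases i with
    | zero =>
      rw [nth_zero]
      obtain ⟨g, h, h1, h2, h3⟩ := pack_ex (psum (flowG hG k xG 0 0) 0)
        (addq (flowH hH k xH 0 0) acc) (J - 1)
      refine ⟨g, h, h1, ?_, ?_⟩
      · have h4 := psum_le (flowG hG k xG 0 0) 0 (J - 1)
        have h5 : (g : ℝ) ≤ (nth 0 (J - 1) (psum (flowG hG k xG 0 0) 0) : ℕ) := by
          exact_mod_cast h2
        have e1 : J - 1 + 1 = J := by omega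
        rw [e1, Nat.cast_zero, zero_add] at h4
        have e2 : ws J (mpp Prod.fst (flowG hG k xG 0 0)) (fun _ => 1) =
            ws J (mpp Prod.fst (flowG hG k xG 0 0)) (fun l => FF a b I J (k + 1) l) := by
          unfold ws
          refine Finset.sum_congr rfl fun l hl => ?_
          have e3 : FF a b I J (k + 1) l = 1 := by
            rw [show k + 1 = I by omega]
            exact FF_row l (Finset.mem_range.1 hl) hJ
          simp only [e3]
        linarith
      · have h5 : (h : ℝ) ≤ (nth 0 (J - 1) (addq (flowH hH k xH 0 0) acc) : ℕ) := by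
          exact_mod_cast h3
        have h6 : 0 ≤ ws J (mpp Prod.fst (flowH hH k xH 0 0))
            (fun l => 1 - FF a b I J (k + 1) l) := by
          refine ws_nonneg fun l hl => ?_
          have : k + 1 = I := by omega
          rw [this, FF_row l hl hJ]
          simp
        linarith
    | succ i =>
      rw [nth_succ]
      obtain ⟨g, h, h1, h2, h3⟩ := ih (k + 1) (mpp Prod.fst (flowG hG k xG 0 0))
        (mpp Prod.fst (flowH hH k xH 0 0)) (addq (flowH hH k xH 0 0) acc) i (by omega)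
      refine ⟨g, h, h1, ?_, ?_⟩
      · linarith
      · linarith

lemma ws_init (n J : ℕ) (hJ : 1 ≤ J) (F : ℕ → ℝ) :
    ws J (SS :: List.replicate (n - 1) 0) F = SS * F 0 := by
  obtain ⟨j, rfl⟩ : ∃ j, J = j + 1 := ⟨J - 1, by omega⟩
  rw [ws_cons]
  have : ws j (List.replicate (n - 1) 0) (fun i => F (i + 1)) = 0 := by
    unfold ws
    refine Finset.sum_eq_zero fun i _ => ?_
    have : nth 0 i (List.replicate (n - 1) 0) = 0 := by
      rcases nth_mem 0 (List.replicate (n - 1) 0) i with h | h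
      · exact List.eq_of_mem_replicate h
      · exact h
    rw [this]
    simp
  rw [this, add_zero]

/-- **Soundness of the table.** -/
theorem st0_ok {hG hH : HR} {a b : ℕ} (hokG : hG.ok a b) (hokH : hH.ok b a) (m n : ℕ) :
    TabOK a b 0 0 (st0 hG hH m n).cur := by
  intro i j hi hj
  have ej : 0 + j + 1 - 1 = j := by omega
  obtain ⟨g, h, h1, h2, h3⟩ := tab_sound hokG hokH (I := 0 + i + 1) (J := 0 + j + 1) hi
    (by omega) hj m 0 (SS :: List.replicate (n - 1) 0) (SS :: List.replicate (n - 1) 0)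
    (List.replicate n 0) i (by omega)
  rw [ej] at h1 h3
  refine ⟨g, h, h1, ?_, ?_⟩
  · rw [ws_init n _ (by omega)] at h2
    exact h2
  · rw [ws_init n _ (by omega)] at h3
    have : nth 0 j (List.replicate n 0) = 0 := by
      rcases nth_mem 0 (List.replicate n 0) j with h | h
      · exact List.eq_of_mem_replicate h
      · exact h
    rw [this, Nat.cast_zero, zero_add] at h3
    exact h3

end Pool.Agent.NF
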