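import Mathlib
import Pool.Agent.Helper43.NF.Tabs
import Pool.Agent.Helper73.KS.Cons

/-!
# Exact laws as lists of natural numbers
-/

set_option autoImplicit false

namespace Pool.Agent.NF

open Finset Pool.Agent.Helper73.KS Pool.Agent.Helper73.KS.SPT

lemma nth_ge {α : Type} (d : α) : ∀ (l : List α) (i : ℕ), l.length ≤ i → nth d i l = d := by
  intro l
  induction l with
  | nil => intro i _; exact nth_nil d i
  | cons a t ih =>
    intro i hi
    rw [List.length_cons] at hi
    obtain ⟨j, rfl⟩ : ∃ j, i = j + 1 := ⟨i - 1, by omega⟩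
    rw [nth_succ]
    exact ih j (by omega)

/-- the weights `h` are the entries of `L` divided by `D` -/
def Rep (h : ℕ → ℝ) (L : List ℕ) (D : ℕ) : Prop := ∀ p, h p = ((nth 0 p L : ℕ) : ℝ) / D

/-- elevation -/
noncomputable def ev (L : List ℕ) : ℕ → ℕ → ℕ → List ℕ :=
  @List.rec ℕ (fun _ => ℕ → ℕ → ℕ → List ℕ) (fun _ i prev => [Nat.mul i prev])
    (fun a _ ih c i prev => nseq (Nat.add (Nat.mul c a) (Nat.mul i prev)) fun s =>
      s :: ih (Nat.pred c) (Nat.succ i) a) L

lemma ev_nil (c i prev : ℕ) : ev [] c i prev = [i * prev] := rfl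

lemma ev_cons (a : ℕ) (t : List ℕ) (c i prev : ℕ) :
    ev (a :: t) c i prev = (c * a + i * prev) :: ev t (c - 1) (i + 1) a := by
  have e : ev (a :: t) c i prev = nseq (c * a + i * prev) fun s => s :: ev t (c - 1) (i + 1) a :=
    rfl
  rw [e, nseq_eq]

lemma nth_ev : ∀ (L : List ℕ) (c i prev p : ℕ), nth 0 p (ev L c i prev) =
    (c - p) * nth 0 p L + (i + p) * (if p = 0 then prev else nth 0 (p - 1) L) := by
  intro L
  induction L with
  | nil =>
    intro c i prev p
    rw [ev_nil]
    cases p with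
    | zero => simp
    | succ p => simp
  | cons a t ih =>
    intro c i prev p
    rw [ev_cons]
    cases p with
    | zero => simp
    | succ p =>
      rw [nth_succ, nth_succ, ih, if_neg (Nat.succ_ne_zero p), Nat.add_sub_cancel]
      have e : c - 1 - p = c - (p + 1) := by omega
      rw [e]
      congr 1
      have e2 : i + 1 + p = i + (p + 1) := by ring
      rw [e2]
      congr 1
      cases p with
      | zero => simp
      | succ p => simp

lemma ev_length : ∀ (L : List ℕ) (c i prev : ℕ), (ev L c i prev).length = L.length + 1 := by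
  intro L
  induction L with
  | nil => intro c i prev; rfl
  | cons a t ih => intro c i prev; rw [ev_cons, List.length_cons, ih, List.length_cons]

lemma Rep.elev {h : ℕ → ℝ} {L : List ℕ} {D n : ℕ} (hR : Rep h L D) (hL : L.length ≤ n + 1) :
    Rep (elev n h) (ev L (n + 1) 0 0) (D * (n + 2)) := by
  intro p
  rw [nth_ev]
  unfold Pool.Agent.Helper73.KS.elev
  rw [hR p, hR (p - 1)]
  have h2 : ((n:ℝ) + 1 - p) * ((nth 0 p L : ℕ) : ℝ) = (((n + 1 - p) * nth 0 p L : ℕ) : ℝ) := by
    rcases Nat.lt_or_ge p (n + 1) with h | h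
    · rw [Nat.cast_mul, Nat.cast_sub h.le]
      push_cast
      ring
    · rw [nth_ge 0 L p (by omega)]
      simp
  have h3 : (p : ℝ) * ((nth 0 (p - 1) L : ℕ) : ℝ) =
      (((0 + p) * (if p = 0 then 0 else nth 0 (p - 1) L) : ℕ) : ℝ) := by
    rcases Nat.eq_zero_or_pos p with h | h
    · rw [h]; simp
    · rw [if_neg (by omega), Nat.zero_add, Nat.cast_mul]
  have hn : (n : ℝ) + 2 ≠ 0 := by positivity
  have e : ((n:ℝ) + 1 - p) / (n + 2) * (((nth 0 p L : ℕ) : ℝ) / D) +
      (p : ℝ) / (n + 2) * (((nth 0 (p - 1) L : ℕ) : ℝ) / D) =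
      (((n:ℝ) + 1 - p) * ((nth 0 p L : ℕ) : ℝ) + (p : ℝ) * ((nth 0 (p - 1) L : ℕ) : ℝ)) /
        ((D : ℝ) * (n + 2)) := by
    rw [div_mul_div_comm, div_mul_div_comm, ← add_div, mul_comm ((n:ℝ) + 2) (D : ℝ)]
  rw [e, h2, h3]
  push_cast
  rfl

/-- iterated elevation of lists: `k` times, starting with `n` -/
noncomputable def elK (n : ℕ) (L : List ℕ) (k : ℕ) : List ℕ :=
  @Nat.rec (fun _ => List ℕ) L (fun m ih => ev ih (Nat.succ (Nat.add n m)) 0 0) k

/-- the denominators of iterated elevation -/
noncomputable def dK (n D : ℕ) (k : ℕ) : ℕ :=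
  @Nat.rec (fun _ => ℕ) D (fun m ih => Nat.mul ih (Nat.add (Nat.add n m) 2)) k

lemma elK_length (n : ℕ) (L : List ℕ) (k : ℕ) : (elK n L k).length = L.length + k := by
  induction k with
  | zero => rfl
  | succ k ih =>
    change (ev (elK n L k) (n + k + 1) 0 0).length = _
    rw [ev_length, ih]
    ring

lemma Rep.elK {h : ℕ → ℝ} {L : List ℕ} {D n : ℕ} (hR : Rep h L D) (hL : L.length ≤ n + 1) (k : ℕ) :
    Rep (elevN n h k) (elK n L k) (dK n D k) := by
  induction k with
  | zero => exact hR
  | succ k ih =>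
    have h1 := ih.elev (n := n + k) (by rw [elK_length]; omega)
    exact h1

lemma nth_append_add {α : Type} (d : α) : ∀ (p q : List α) (i : ℕ),
    nth d (p.length + i) (p ++ q) = nth d i q := by
  intro p
  induction p with
  | nil => intro q i; rw [List.length_nil, Nat.zero_add]; rfl
  | cons a t ih =>
    intro q i
    rw [List.length_cons, show t.length + 1 + i = (t.length + i) + 1 by ring, List.cons_append,
      nth_succ]
    exact ih q i

/-- leading zeros -/
noncomputable def zer (k : ℕ) (L : List ℕ) : List ℕ :=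
  @Nat.rec (fun _ => List ℕ) L (fun _ ih => 0 :: ih) k

lemma nth_zer (L : List ℕ) : ∀ (k p : ℕ), nth 0 p (zer k L) = if k ≤ p then nth 0 (p - k) L else 0 := by
  intro k
  induction k with
  | zero => intro p; simp [zer]
  | succ k ih =>
    intro p
    change nth 0 p (0 :: zer k L) = _
    cases p with
    | zero => simp
    | succ p =>
      rw [nth_succ, ih]
      have : (k + 1 ≤ p + 1) ↔ k ≤ p := by omega
      simp only [this]
      congr 2
      omega

lemma zer_length (L : List ℕ) (k : ℕ) : (zer k L).length = L.length + k := by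
  induction k with
  | zero => rfl
  | succ k ih =>
    change (0 :: zer k L).length = _
    rw [List.length_cons, ih]
    ring

lemma shiftN_eq (h : ℕ → ℝ) : ∀ (k p : ℕ), shiftN h k p = if k ≤ p then h (p - k) else 0 := by
  intro k
  induction k with
  | zero => intro p; simp [shiftN]
  | succ k ih =>
    intro p
    change shift (shiftN h k) p = _
    cases p with
    | zero => simp [shift]
    | succ p =>
      rw [shift_succ, ih]
      have : (k + 1 ≤ p + 1) ↔ k ≤ p := by omega
      simp only [this]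
      congr 2
      omega

lemma Rep.shiftN {h : ℕ → ℝ} {L : List ℕ} {D : ℕ} (hR : Rep h L D) (k : ℕ) :
    Rep (shiftN h k) (zer k L) D := by
  intro p
  rw [shiftN_eq, nth_zer]
  split_ifs with hp
  · exact hR _
  · simp

/-- comparison of two vectors with different denominators: `L / D = M / d` -/
noncomputable def eqS (D d : ℕ) (L : List ℕ) : List ℕ → Bool :=
  @List.rec ℕ (fun _ => List ℕ → Bool)
    (fun M => @List.rec ℕ (fun _ => Bool) true (fun b _ ih => @Bool.casesOn (fun _ => Bool)
      (Nat.beq b 0) false ih) M)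
    (fun a _ ih M => @List.casesOn ℕ (fun _ => Bool) M
      (@Bool.casesOn (fun _ => Bool) (Nat.beq a 0) false (ih []))
      (fun b t => @Bool.casesOn (fun _ => Bool) (Nat.beq (Nat.mul a d) (Nat.mul b D)) false
        (ih t))) L

lemma bool_and' {x y : Bool} (h : @Bool.casesOn (fun _ => Bool) x false y = true) :
    x = true ∧ y = true := by
  cases x with
  | false => exact absurd h (by simp)
  | true => exact ⟨rfl, h⟩

lemma eqS_nil (D d : ℕ) : ∀ M : List ℕ, eqS D d [] M = true → ∀ p, nth 0 p M = 0 := by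
  intro M
  induction M with
  | nil => intro _ p; simp
  | cons b M ih =>
    intro h p
    have h' : @Bool.casesOn (fun _ => Bool) (Nat.beq b 0) false (eqS D d [] M) = true := h
    obtain ⟨h1, h2⟩ := bool_and' h'
    cases p with
    | zero => rw [nth_zero]; exact Nat.eq_of_beq_eq_true h1
    | succ p => rw [nth_succ]; exact ih h2 p

lemma eqS_spec (D d : ℕ) : ∀ L M : List ℕ, eqS D d L M = true →
    ∀ p, nth 0 p L * d = nth 0 p M * D := by
  intro L
  induction L with
  | nil =>
    intro M h p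
    rw [eqS_nil D d M h p]
    simp
  | cons a L ih =>
    intro M h p
    cases M with
    | nil =>
      have h' : @Bool.casesOn (fun _ => Bool) (Nat.beq a 0) false (eqS D d L []) = true := h
      obtain ⟨h1, h2⟩ := bool_and' h'
      cases p with
      | zero => rw [nth_zero, Nat.eq_of_beq_eq_true h1]; simp
      | succ p =>
        rw [nth_succ]
        have := ih [] h2 p
        simpa using this
    | cons b M =>
      have h' : @Bool.casesOn (fun _ => Bool) (Nat.beq (a * d) (b * D)) false (eqS D d L M) = true :=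
        h
      obtain ⟨h1, h2⟩ := bool_and' h'
      cases p with
      | zero => rw [nth_zero, nth_zero]; exact Nat.eq_of_beq_eq_true h1
      | succ p => rw [nth_succ, nth_succ]; exact ih M h2 p

lemma Rep.conv {h : ℕ → ℝ} {L M : List ℕ} {D d : ℕ} (hR : Rep h L D) (hD : 0 < D) (hd : 0 < d)
    (he : eqS D d L M = true) : Rep h M d := by
  intro p
  rw [hR p, div_eq_div_iff (by positivity) (by positivity)]
  exact_mod_cast eqS_spec D d L M he p

lemma dK_pos {n D : ℕ} (hD : 0 < D) (k : ℕ) : 0 < dK n D k := by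
  induction k with
  | zero => exact hD
  | succ k ih =>
    change 0 < dK n D k * (n + k + 2)
    positivity

/-! ### exact values of the cross probabilities -/

/-- descending product -/
noncomputable def dsc (n : ℕ) (k : ℕ) : ℕ :=
  @Nat.rec (fun _ => ℕ) 1 (fun m ih => Nat.mul (Nat.sub n m) ih) k

/-- factorials -/
noncomputable def fct (k : ℕ) : ℕ :=
  @Nat.rec (fun _ => ℕ) 1 (fun m ih => Nat.mul (Nat.succ m) ih) k

/-- binomial coefficients for the kernel -/
noncomputable def chK (n k : ℕ) : ℕ := Nat.div (dsc n k) (fct k)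

lemma dsc_eq (n k : ℕ) : dsc n k = n.descFactorial k := by
  induction k with
  | zero => rfl
  | succ k ih =>
    change (n - k) * dsc n k = _
    rw [ih, Nat.descFactorial_succ]

lemma fct_eq (k : ℕ) : fct k = k.factorial := by
  induction k with
  | zero => rfl
  | succ k ih =>
    change (k + 1) * fct k = _
    rw [ih, Nat.factorial_succ]

lemma chK_eq (n k : ℕ) : chK n k = n.choose k := by
  change dsc n k / fct k = _
  rw [dsc_eq, fct_eq, Nat.choose_eq_descFactorial_div_factorial]

/-- sums for the kernel -/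
noncomputable def ksum (n : ℕ) (f : ℕ → ℕ) : ℕ :=
  @Nat.rec (fun _ => ℕ) 0 (fun m ih => Nat.add ih (f m)) n

lemma ksum_eq (n : ℕ) (f : ℕ → ℕ) : ksum n f = ∑ i ∈ range n, f i := by
  induction n with
  | zero => rfl
  | succ n ih =>
    change ksum n f + f n = _
    rw [ih, Finset.sum_range_succ]

/-- the numerator of the probability, for the kernel -/
noncomputable def PnK (a b I J : ℕ) : ℕ :=
  ksum (a + 1 - I) fun i => Nat.mul (chK (I + i + J - 1) (J - 1)) (chK (a - (I + i) + b - J) (b - J))

lemma PnK_eq {a b I J : ℕ} (h1 : 1 ≤ J) (h2 : J ≤ b) : PnK a b I J = Pn a b I J := by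
  unfold PnK Pn
  rw [ksum_eq, Finset.sum_Ico_eq_sum_range]
  refine Finset.sum_congr rfl fun i hi => ?_
  have hi' := Finset.mem_range.1 hi
  change chK (I + i + J - 1) (J - 1) * chK (a - (I + i) + b - J) (b - J) = _
  rw [chK_eq, chK_eq]
  congr 1
  · rw [← Nat.choose_symm (by omega : I + i ≤ I + i + J - 1)]
    congr 1
    omega
  · rw [← Nat.choose_symm (by omega : a - (I + i) ≤ a - (I + i) + b - J)]
    congr 1
    omega

/-- the numerator of a cross probability; `L`, `M` are the weights -/
noncomputable def NK (a b : ℕ) (L M : List ℕ) : ℕ :=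
  (@List.rec ℕ (fun _ => ℕ → ℕ) (fun _ => 0) (fun x _ ih i => Nat.add
    (@Nat.rec (fun _ => ℕ) 0 (fun _ _ => Nat.mul x
      ((@List.rec ℕ (fun _ => ℕ → ℕ) (fun _ => 0) (fun y _ ih' j => Nat.add
        (@Nat.rec (fun _ => ℕ) 0 (fun _ _ => Nat.mul y (PnK a b (Nat.succ i) (Nat.succ j))) y)
        (ih' (Nat.succ j))) M) 0)) x)
    (ih (Nat.succ i))) L) 0

/-- inner part -/
noncomputable def NKi (a b i : ℕ) (M : List ℕ) (j : ℕ) : ℕ :=
  (@List.rec ℕ (fun _ => ℕ → ℕ) (fun _ => 0) (fun y _ ih' j => Nat.add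
        (@Nat.rec (fun _ => ℕ) 0 (fun _ _ => Nat.mul y (PnK a b (Nat.succ i) (Nat.succ j))) y)
        (ih' (Nat.succ j))) M) j

/-- outer part -/
noncomputable def NKo (a b : ℕ) (M : List ℕ) (L : List ℕ) (i : ℕ) : ℕ :=
  (@List.rec ℕ (fun _ => ℕ → ℕ) (fun _ => 0) (fun x _ ih i => Nat.add
    (@Nat.rec (fun _ => ℕ) 0 (fun _ _ => Nat.mul x (NKi a b i M 0)) x) (ih (Nat.succ i))) L) i

lemma NKi_eq (a b i : ℕ) : ∀ (M : List ℕ) (j : ℕ), NKi a b i M j =
    ∑ q ∈ range M.length, nth 0 q M * PnK a b (i + 1) (j + q + 1) := by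
  intro M
  induction M with
  | nil => intro j; rfl
  | cons y M ih =>
    intro j
    have e : NKi a b i (y :: M) j = (@Nat.rec (fun _ => ℕ) 0
      (fun _ _ => y * (PnK a b (i + 1) (j + 1))) y) + NKi a b i M (j + 1) := rfl
    rw [e, ih, List.length_cons, Finset.sum_range_succ', add_comm]
    congr 1
    · refine Finset.sum_congr rfl fun q _ => ?_
      rw [nth_succ, show j + 1 + q + 1 = j + (q + 1) + 1 by ring]
    · cases y with
      | zero => simp
      | succ y => rfl

lemma NKo_eq (a b : ℕ) (M : List ℕ) : ∀ (L : List ℕ) (i : ℕ), NKo a b M L i =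
    ∑ p ∈ range L.length, nth 0 p L * ∑ q ∈ range M.length,
      nth 0 q M * PnK a b (i + p + 1) (q + 1) := by
  intro L
  induction L with
  | nil => intro i; rfl
  | cons x L ih =>
    intro i
    have e : NKo a b M (x :: L) i = (@Nat.rec (fun _ => ℕ) 0
      (fun _ _ => x * NKi a b i M 0) x) + NKo a b M L (i + 1) := rfl
    rw [e, ih, List.length_cons, Finset.sum_range_succ', add_comm]
    congr 1
    · refine Finset.sum_congr rfl fun p _ => ?_
      rw [nth_succ, show i + 1 + p + 1 = i + (p + 1) + 1 by ring]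
    · cases x with
      | zero => simp
      | succ x =>
        change (x + 1) * NKi a b i M 0 = _
        rw [NKi_eq]
        simp

lemma NK_eq (a b : ℕ) (L M : List ℕ) : NK a b L M = ∑ p ∈ range L.length, nth 0 p L *
    ∑ q ∈ range M.length, nth 0 q M * PnK a b (p + 1) (q + 1) := by
  have e : NK a b L M = NKo a b M L 0 := rfl
  rw [e, NKo_eq]
  simp only [Nat.zero_add]

lemma rep_sum {h : ℕ → ℝ} {L : List ℕ} {D N : ℕ} (hR : Rep h L D) (hL : L.length ≤ N)
    (G : ℕ → ℝ) : ∑ p ∈ range N, h p * G p =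
      (∑ p ∈ range L.length, ((nth 0 p L : ℕ) : ℝ) * G p) / D := by
  obtain ⟨d, rfl⟩ : ∃ d, N = L.length + d := ⟨N - L.length, by omega⟩
  rw [Finset.sum_range_add]
  have : ∑ x ∈ range d, h (L.length + x) * G (L.length + x) = 0 := by
    refine Finset.sum_eq_zero fun x _ => ?_
    rw [hR, nth_ge 0 L _ (by omega)]
    simp
  rw [this, add_zero, Finset.sum_div]
  refine Finset.sum_congr rfl fun p _ => ?_
  rw [hR p]
  ring

/-- **Exact value of a cross probability.** -/
theorem E_rep {n m : ℕ} {h g : ℕ → ℝ} {L M : List ℕ} {D d : ℕ} (hh : Rep h L D) (hg : Rep g M d)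
    (hL : L.length ≤ n + 1) (hM : M.length ≤ m + 1) :
    E m g (cdf n h) = (NK (n + 1) (m + 1) L M : ℝ) /
      ((D : ℝ) * d * ((n + 1 + (m + 1)).choose (n + 1) : ℕ)) := by
  rw [E_cdf, rep_sum hh hL]
  have h1 : ∀ p ∈ range L.length, ((nth 0 p L : ℕ) : ℝ) * ∑ j ∈ range (m + 1), g j *
      P (n + 1) (m + 1) (p + 1) (j + 1) = ((nth 0 p L * ∑ q ∈ range M.length, nth 0 q M *
        PnK (n + 1) (m + 1) (p + 1) (q + 1) : ℕ) : ℝ) /
          ((d : ℝ) * ((n + 1 + (m + 1)).choose (n + 1) : ℕ)) := by
    intro p _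
    rw [rep_sum hg hM]
    have h2 : ∑ q ∈ range M.length, ((nth 0 q M : ℕ) : ℝ) * P (n + 1) (m + 1) (p + 1) (q + 1) =
        ((∑ q ∈ range M.length, nth 0 q M * PnK (n + 1) (m + 1) (p + 1) (q + 1) : ℕ) : ℝ) /
          ((n + 1 + (m + 1)).choose (n + 1) : ℕ) := by
      rw [Nat.cast_sum, Finset.sum_div]
      refine Finset.sum_congr rfl fun q hq => ?_
      have hq' := Finset.mem_range.1 hq
      rw [PnK_eq (by omega) (by omega)]
      unfold P
      push_cast
      ring
    rw [h2]
    push_cast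
    rw [div_div, mul_div_assoc']
    congr 1
    ring
  rw [Finset.sum_congr rfl h1, ← Finset.sum_div, div_div, NK_eq]
  push_cast
  congr 1
  ring

end Pool.Agent.NF
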