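import Mathlib
import Pool.Agent.Helper43.NF.Tabs

/-!
# Soundness of the search
-/

set_option autoImplicit false

namespace Pool.Agent.NF

open Finset

/-- number of elements of a word -/
noncomputable def wsz (w : List ℕ) : ℕ := (w.map fun i => (ltr i).sz).sum

/-- the block `i` occurs in `w` at offset `o` -/
def Oc (w : List ℕ) (i o : ℕ) : Prop := ∃ p s, w = p ++ i :: s ∧ wsz p = o

/-- scaled cross probability of two laws -/
noncomputable def SP (a b ox : ℕ) (x : ℕ × List ℕ) (oy : ℕ) (y : ℕ × List ℕ) : ℝ :=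
  ∑ i ∈ range x.2.length, ((nth 0 i x.2 : ℕ) : ℝ) *
    ∑ j ∈ range y.2.length, ((nth 0 j y.2 : ℕ) : ℝ) *
      P a b (ox + x.1 + i + 1) (oy + y.1 + j + 1)

/-- every cross pair has probability outside `[19/45, 26/45]` -/
def UB (a b : ℕ) (u v : List ℕ) : Prop := ∀ i o j o', Oc u i o → Oc v j o' →
  ∀ x ∈ (ltr i).laws, ∀ y ∈ (ltr j).laws,
    ¬ (19 / 45 * (((ltr i).den : ℝ) * (ltr j).den) ≤ SP a b o x o' y ∧
      SP a b o x o' y ≤ 26 / 45 * (((ltr i).den : ℝ) * (ltr j).den))

/-! ### facts about the blocks -/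

/-- sum of a list -/
noncomputable def sumL (x : List ℕ) : ℕ := @List.rec ℕ (fun _ => ℕ) 0 (fun a _ ih => a + ih) x

/-- length of a list -/
noncomputable def lenL {α : Type} (x : List α) : ℕ :=
  @List.rec α (fun _ => ℕ) 0 (fun _ _ ih => Nat.succ ih) x

lemma lenL_eq {α : Type} (x : List α) : lenL x = x.length := by
  induction x with
  | nil => rfl
  | cons a t ih => change Nat.succ (lenL t) = _; rw [ih]; rfl

lemma sumL_eq (x : List ℕ) : sumL x = ∑ i ∈ range x.length, nth 0 i x := by
  induction x with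
  | nil => rfl
  | cons a t ih =>
    change a + sumL t = _
    rw [List.length_cons, Finset.sum_range_succ', ih, add_comm]
    simp

noncomputable def allL {α : Type} (f : α → Bool) (x : List α) : Bool :=
  @List.rec α (fun _ => Bool) true (fun a _ ih => f a && ih) x

lemma allL_mem {α : Type} {f : α → Bool} {x : List α} (h : allL f x = true) :
    ∀ a ∈ x, f a = true := by
  induction x with
  | nil => simp
  | cons b t ih =>
    have h1 : (f b && allL f t) = true := h
    rw [Bool.and_eq_true] at h1
    intro a ha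
    rcases List.mem_cons.1 ha with rfl | ha
    · exact h1.1
    · exact ih h1.2 a ha

/-- test of the laws -/
noncomputable def lawOK (l : Ltr) (x : ℕ × List ℕ) : Bool :=
  Nat.ble (x.1 + lenL x.2) l.sz && Nat.beq (sumL x.2) l.den

noncomputable def ltrOK (l : Ltr) : Bool :=
  Nat.ble 1 l.sz && (Nat.ble 1 l.den && (Nat.ble l.den 65535 && allL (lawOK l) l.laws))

theorem LS_ok : allL ltrOK LS = true := by decide +kernel

lemma ltr_mem (i : ℕ) : ltr i ∈ LS := by
  rcases nth_mem l0 LS i with h | h
  · exact h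
  · unfold ltr
    rw [h]
    simp [LS]

lemma ltr_facts (i : ℕ) : 1 ≤ (ltr i).sz ∧ 1 ≤ (ltr i).den ∧ (ltr i).den ≤ 65535 ∧
    ∀ x ∈ (ltr i).laws, x.1 + x.2.length ≤ (ltr i).sz ∧
      ∑ k ∈ range x.2.length, nth 0 k x.2 = (ltr i).den := by
  have h := allL_mem LS_ok _ (ltr_mem i)
  unfold ltrOK at h
  rw [Bool.and_eq_true, Bool.and_eq_true, Bool.and_eq_true] at h
  obtain ⟨h1, h2, h3, h4⟩ := h
  refine ⟨Nat.le_of_ble_eq_true h1, Nat.le_of_ble_eq_true h2, Nat.le_of_ble_eq_true h3, ?_⟩
  intro x hx
  have h5 := allL_mem h4 x hx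
  unfold lawOK at h5
  rw [Bool.and_eq_true] at h5
  refine ⟨?_, ?_⟩
  · rw [← lenL_eq]; exact Nat.le_of_ble_eq_true h5.1
  · rw [← sumL_eq]; exact Nat.eq_of_beq_eq_true h5.2

/-! ### the bilinear form -/

lemma drp_nil {α : Type} (n : ℕ) : drp n ([] : List α) = [] := by cases n <;> rfl

lemma dot_nil (y : List ℕ) : dot y [] = 0 := by cases y <;> rfl

lemma dot_eq : ∀ (y row : List ℕ), dot y row = ∑ j ∈ range y.length, nth 0 j y * nth 0 j row := by
  intro y
  induction y with
  | nil => intro row; rfl
  | cons a t ih =>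
    intro row
    rw [List.length_cons, Finset.sum_range_succ']
    cases row with
    | nil => rw [dot_nil]; simp
    | cons b r =>
      change a * b + dot t r = _
      rw [ih, add_comm]
      simp

lemma kil_eq (c : ℕ) (y : List ℕ) : ∀ (x : List ℕ) (t : Tb), kil c y x t =
    ∑ i ∈ range x.length, nth 0 i x * dot y (drp c (nth [] i t)) := by
  intro x
  induction x with
  | nil => intro t; rfl
  | cons a s ih =>
    intro t
    rw [List.length_cons, Finset.sum_range_succ']
    cases t with
    | nil =>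
      change 0 = _
      simp [drp_nil, dot_nil]
    | cons r t =>
      change a * dot y (drp c r) + kil c y s t = _
      rw [ih, add_comm]
      simp

lemma val_eq (x y : ℕ × List ℕ) (t : Tb) : val x y t = ∑ i ∈ range x.2.length, nth 0 i x.2 *
    ∑ j ∈ range y.2.length, nth 0 j y.2 * nth 0 (y.1 + j) (nth [] (x.1 + i) t) := by
  unfold val
  rw [kil_eq]
  refine Finset.sum_congr rfl fun i _ => ?_
  rw [dot_eq, nth_drp]
  congr 1
  refine Finset.sum_congr rfl fun j _ => ?_
  rw [nth_drp]

lemma good_iff {z d : ℕ} (h : good z d = true) :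
    19 * d ≤ 45 * (z % BB) ∧ 19 * d ≤ 45 * (z / BB) := by
  unfold good at h
  generalize hb : Nat.ble (Nat.mul (nat_lit 19) d) (Nat.mul (nat_lit 45) (Nat.mod z BB)) = b at h
  cases b with
  | false => exact absurd h (by simp)
  | true => exact ⟨Nat.le_of_ble_eq_true hb, Nat.le_of_ble_eq_true h⟩

lemma SS_pos : 0 < SS := by decide +kernel

lemma BB_pos : 0 < BB := by decide +kernel

lemma SS_BB : SS * (65535 * 65535) < BB := by decide +kernel

attribute [local irreducible] BB SS

/-- **Soundness of the test.** -/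
theorem good_sound {a b ox oy dx dy : ℕ} {x y : ℕ × List ℕ} {t : Tb} (ht : TabOK a b ox oy t)
    (hx : ox + (x.1 + x.2.length) ≤ a) (hy : oy + (y.1 + y.2.length) ≤ b)
    (sx : ∑ k ∈ range x.2.length, nth 0 k x.2 = dx) (sy : ∑ k ∈ range y.2.length, nth 0 k y.2 = dy)
    (bx : dx ≤ 65535) (bY : dy ≤ 65535)
    (hg : good (val x y t) (dx * dy * SS) = true) :
    19 / 45 * ((dx : ℝ) * dy) ≤ SP a b ox x oy y ∧ SP a b ox x oy y ≤ 26 / 45 * ((dx : ℝ) * dy) := by
  have h1 : ∀ i j : ℕ, ∃ gh : ℕ × ℕ, i < x.2.length → j < y.2.length →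
      nth 0 (y.1 + j) (nth [] (x.1 + i) t) = gh.1 + BB * gh.2 ∧
      (gh.1 : ℝ) ≤ SS * P a b (ox + x.1 + i + 1) (oy + y.1 + j + 1) ∧
      (gh.2 : ℝ) ≤ SS * (1 - P a b (ox + x.1 + i + 1) (oy + y.1 + j + 1)) := by
    intro i j
    by_cases hi : i < x.2.length
    · by_cases hj : j < y.2.length
      · obtain ⟨g, h, h2, h3, h4⟩ := ht (x.1 + i) (y.1 + j) (by omega) (by omega)
        refine ⟨(g, h), fun _ _ => ⟨h2, ?_, ?_⟩⟩
        · rw [show ox + x.1 + i + 1 = ox + (x.1 + i) + 1 by ring,
            show oy + y.1 + j + 1 = oy + (y.1 + j) + 1 by ring]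
          exact h3
        · rw [show ox + x.1 + i + 1 = ox + (x.1 + i) + 1 by ring,
            show oy + y.1 + j + 1 = oy + (y.1 + j) + 1 by ring]
          exact h4
      · exact ⟨(0, 0), fun _ h => absurd h hj⟩
    · exact ⟨(0, 0), fun h _ => absurd h hi⟩
  choose gh hgh using h1
  set G : ℕ := ∑ i ∈ range x.2.length, nth 0 i x.2 *
    ∑ j ∈ range y.2.length, nth 0 j y.2 * (gh i j).1 with hG
  set H : ℕ := ∑ i ∈ range x.2.length, nth 0 i x.2 *
    ∑ j ∈ range y.2.length, nth 0 j y.2 * (gh i j).2 with hH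
  have e1 : val x y t = G + BB * H := by
    rw [val_eq, hG, hH, Finset.mul_sum, ← Finset.sum_add_distrib]
    refine Finset.sum_congr rfl fun i hi => ?_
    have e2 : ∑ j ∈ range y.2.length, nth 0 j y.2 * nth 0 (y.1 + j) (nth [] (x.1 + i) t) =
        ∑ j ∈ range y.2.length, nth 0 j y.2 * (gh i j).1 +
          BB * ∑ j ∈ range y.2.length, nth 0 j y.2 * (gh i j).2 := by
      rw [Finset.mul_sum, ← Finset.sum_add_distrib]
      refine Finset.sum_congr rfl fun j hj => ?_
      rw [(hgh i j (Finset.mem_range.1 hi) (Finset.mem_range.1 hj)).1]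
      ring
    rw [e2]
    ring
  have hSS : (0:ℝ) < SS := by exact_mod_cast SS_pos
  have sx' : ∑ k ∈ range x.2.length, ((nth 0 k x.2 : ℕ) : ℝ) = dx := by
    rw [← sx]; push_cast; rfl
  have sy' : ∑ k ∈ range y.2.length, ((nth 0 k y.2 : ℕ) : ℝ) = dy := by
    rw [← sy]; push_cast; rfl
  have bG : (G : ℝ) ≤ SS * SP a b ox x oy y := by
    rw [hG]
    push_cast
    unfold SP
    rw [Finset.mul_sum]
    refine Finset.sum_le_sum fun i hi => ?_
    rw [mul_left_comm]
    refine mul_le_mul_of_nonneg_left ?_ (Nat.cast_nonneg _)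
    rw [Finset.mul_sum]
    refine Finset.sum_le_sum fun j hj => ?_
    rw [mul_left_comm]
    exact mul_le_mul_of_nonneg_left
      (hgh i j (Finset.mem_range.1 hi) (Finset.mem_range.1 hj)).2.1 (Nat.cast_nonneg _)
  have e3 : ∑ i ∈ range x.2.length, ((nth 0 i x.2 : ℕ) : ℝ) *
      ∑ j ∈ range y.2.length, ((nth 0 j y.2 : ℕ) : ℝ) *
        (1 - P a b (ox + x.1 + i + 1) (oy + y.1 + j + 1)) =
      (dx : ℝ) * dy - SP a b ox x oy y := by
    unfold SP
    rw [← sx', ← sy', Finset.sum_mul, ← Finset.sum_sub_distrib]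
    refine Finset.sum_congr rfl fun i _ => ?_
    rw [← mul_sub, ← Finset.sum_sub_distrib]
    congr 1
    refine Finset.sum_congr rfl fun j _ => ?_
    ring
  have bH : (H : ℝ) ≤ SS * ((dx : ℝ) * dy - SP a b ox x oy y) := by
    rw [hH, ← e3]
    push_cast
    rw [Finset.mul_sum]
    refine Finset.sum_le_sum fun i hi => ?_
    rw [mul_left_comm]
    refine mul_le_mul_of_nonneg_left ?_ (Nat.cast_nonneg _)
    rw [Finset.mul_sum]
    refine Finset.sum_le_sum fun j hj => ?_
    rw [mul_left_comm]
    exact mul_le_mul_of_nonneg_left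
      (hgh i j (Finset.mem_range.1 hi) (Finset.mem_range.1 hj)).2.2 (Nat.cast_nonneg _)
  have hH0 : (0:ℝ) ≤ H := Nat.cast_nonneg _
  have hSP : SP a b ox x oy y ≤ (dx : ℝ) * dy := by
    by_contra hc
    push Not at hc
    have : (SS : ℝ) * ((dx : ℝ) * dy - SP a b ox x oy y) < 0 :=
      mul_neg_of_pos_of_neg hSS (by linarith)
    linarith
  have hGlt : G < BB := by
    have h2 : (G : ℝ) ≤ SS * ((dx : ℝ) * dy) := bG.trans (mul_le_mul_of_nonneg_left hSP hSS.le)
    have h3 : G ≤ SS * (dx * dy) := by exact_mod_cast h2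
    have h4 : dx * dy ≤ 65535 * 65535 := Nat.mul_le_mul bx bY
    exact lt_of_le_of_lt (h3.trans (Nat.mul_le_mul_left _ h4)) SS_BB
  have m1 : val x y t % BB = G := by
    rw [e1, Nat.add_mul_mod_self_left, Nat.mod_eq_of_lt hGlt]
  have m2 : val x y t / BB = H := by
    rw [e1, Nat.add_mul_div_left _ _ BB_pos, Nat.div_eq_of_lt hGlt, Nat.zero_add]
  have hg' := good_iff hg
  rw [m1, m2] at hg'
  obtain ⟨k1, k2⟩ := hg'
  have k1' : 19 * ((dx : ℝ) * dy * SS) ≤ 45 * G := by exact_mod_cast k1
  have k2' : 19 * ((dx : ℝ) * dy * SS) ≤ 45 * H := by exact_mod_cast k2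
  constructor
  · have : (SS : ℝ) * (19 / 45 * ((dx : ℝ) * dy)) ≤ SS * SP a b ox x oy y := by linarith
    exact le_of_mul_le_mul_left this hSS
  · have : (SS : ℝ) * SP a b ox x oy y ≤ SS * (26 / 45 * ((dx : ℝ) * dy)) := by linarith
    exact le_of_mul_le_mul_left this hSS

/-! ### states -/

lemma wsz_nil : wsz [] = 0 := rfl

lemma wsz_append (p q : List ℕ) : wsz (p ++ q) = wsz p + wsz q := by simp [wsz]

lemma wsz_cons (i : ℕ) (q : List ℕ) : wsz (i :: q) = (ltr i).sz + wsz q := by simp [wsz]

lemma Oc.le {w : List ℕ} {i o : ℕ} (h : Oc w i o) : o + (ltr i).sz ≤ wsz w := by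
  obtain ⟨p, s, rfl, rfl⟩ := h
  rw [wsz_append, wsz_cons]
  omega

/-- invariant of the prefix of the first word -/
def InvX (a b sy : ℕ) : List (ℕ × Tb) → ℕ → Prop
  | [], s => s = 0
  | e :: rest, s => ∃ o, s = o + (ltr e.1).sz ∧ TabOK a b o sy e.2 ∧ InvX a b sy rest o

/-- invariant of the prefix of the second word -/
def InvY (a b sx : ℕ) : List (ℕ × Tb) → ℕ → Prop
  | [], s => s = 0
  | e :: rest, s => ∃ o, s = o + (ltr e.1).sz ∧ TabOK a b sx o e.2 ∧ InvY a b sx rest o

/-- the word of a prefix -/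
def wd (X : List (ℕ × Tb)) : List ℕ := (X.map Prod.fst).reverse

lemma wd_cons (e : ℕ × Tb) (X : List (ℕ × Tb)) : wd (e :: X) = wd X ++ [e.1] := by
  simp [wd]

lemma InvX.wsz {a b sy : ℕ} : ∀ {X : List (ℕ × Tb)} {s : ℕ}, InvX a b sy X s →
    NF.wsz (wd X) = s := by
  intro X
  induction X with
  | nil => intro s h; exact h.symm
  | cons e X ih =>
    rintro s ⟨o, h1, -, h3⟩
    rw [wd_cons, wsz_append, ih h3, wsz_cons, wsz_nil, h1, add_zero]

lemma InvY.wsz {a b sx : ℕ} : ∀ {X : List (ℕ × Tb)} {s : ℕ}, InvY a b sx X s →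
    NF.wsz (wd X) = s := by
  intro X
  induction X with
  | nil => intro s h; exact h.symm
  | cons e X ih =>
    rintro s ⟨o, h1, -, h3⟩
    rw [wd_cons, wsz_append, ih h3, wsz_cons, wsz_nil, h1, add_zero]

lemma InvX.mem {a b sy : ℕ} : ∀ {X : List (ℕ × Tb)} {s : ℕ}, InvX a b sy X s →
    ∀ e ∈ X, ∃ o, Oc (wd X) e.1 o ∧ TabOK a b o sy e.2 := by
  intro X
  induction X with
  | nil => intro s _ e he; simp at he
  | cons e X ih =>
    rintro s ⟨o, h1, h2, h3⟩ e' he'
    rcases List.mem_cons.1 he' with rfl | he'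
    · refine ⟨o, ⟨wd X, [], ?_, h3.wsz⟩, h2⟩
      rw [wd_cons]
    · obtain ⟨o', ⟨p, q, h4, h5⟩, h6⟩ := ih h3 e' he'
      refine ⟨o', ⟨p, q ++ [e.1], ?_, h5⟩, h6⟩
      rw [wd_cons, h4]
      simp

lemma InvY.mem {a b sx : ℕ} : ∀ {X : List (ℕ × Tb)} {s : ℕ}, InvY a b sx X s →
    ∀ e ∈ X, ∃ o, Oc (wd X) e.1 o ∧ TabOK a b sx o e.2 := by
  intro X
  induction X with
  | nil => intro s _ e he; simp at he
  | cons e X ih =>
    rintro s ⟨o, h1, h2, h3⟩ e' he'
    rcases List.mem_cons.1 he' with rfl | he'
    · refine ⟨o, ⟨wd X, [], ?_, h3.wsz⟩, h2⟩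
      rw [wd_cons]
    · obtain ⟨o', ⟨p, q, h4, h5⟩, h6⟩ := ih h3 e' he'
      refine ⟨o', ⟨p, q ++ [e.1], ?_, h5⟩, h6⟩
      rw [wd_cons, h4]
      simp

lemma Oc.append {w : List ℕ} {i o : ℕ} (h : Oc w i o) (q : List ℕ) : Oc (w ++ q) i o := by
  obtain ⟨p, s, rfl, h2⟩ := h
  exact ⟨p, s ++ q, by simp, h2⟩

lemma TabOK.dropx {a b ox oy : ℕ} {t : Tb} (h : TabOK a b ox oy t) (n : ℕ) :
    TabOK a b (ox + n) oy (drp n t) := by
  intro i j hi hj
  obtain ⟨g, k, h1, h2, h3⟩ := h (n + i) j (by omega) hj
  refine ⟨g, k, ?_, ?_, ?_⟩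
  · rw [nth_drp]; exact h1
  · rw [show ox + n + i + 1 = ox + (n + i) + 1 by ring]; exact h2
  · rw [show ox + n + i + 1 = ox + (n + i) + 1 by ring]; exact h3

lemma TabOK.dropy {a b ox oy : ℕ} {t : Tb} (h : TabOK a b ox oy t) (n : ℕ) :
    TabOK a b ox (oy + n) (mpp (drp n) t) := by
  intro i j hi hj
  obtain ⟨g, k, h1, h2, h3⟩ := h i (n + j) hi (by omega)
  refine ⟨g, k, ?_, ?_, ?_⟩
  · have e : nth [] i (mpp (drp n) t) = drp n (nth [] i t) := by
      have := nth_mpp (drp n) ([] : List ℕ) t i
      rwa [drp_nil] at this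
    rw [e, nth_drp]; exact h1
  · rw [show oy + n + j + 1 = oy + (n + j) + 1 by ring]; exact h2
  · rw [show oy + n + j + 1 = oy + (n + j) + 1 by ring]; exact h3

lemma InvX.step {a b sy n : ℕ} : ∀ {X : List (ℕ × Tb)} {s : ℕ}, InvX a b sy X s →
    InvX a b (sy + n) (mpp (fun e => (e.1, mpp (drp n) e.2)) X) s := by
  intro X
  induction X with
  | nil => intro s h; exact h
  | cons e X ih =>
    rintro s ⟨o, h1, h2, h3⟩
    exact ⟨o, h1, h2.dropy n, ih h3⟩

lemma InvY.step {a b sx n : ℕ} : ∀ {X : List (ℕ × Tb)} {s : ℕ}, InvY a b sx X s →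
    InvY a b (sx + n) (mpp (fun e => (e.1, drp n e.2)) X) s := by
  intro X
  induction X with
  | nil => intro s h; exact h
  | cons e X ih =>
    rintro s ⟨o, h1, h2, h3⟩
    exact ⟨o, h1, h2.dropx n, ih h3⟩

lemma wd_mpp {f : Tb → Tb} (X : List (ℕ × Tb)) : wd (mpp (fun e => (e.1, f e.2)) X) = wd X := by
  induction X with
  | nil => rfl
  | cons e X ih =>
    change wd ((e.1, f e.2) :: mpp (fun e => (e.1, f e.2)) X) = _
    rw [wd_cons, ih, wd_cons]

/-- invariant of a state -/
def Inv (a b : ℕ) (s : St) : Prop :=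
  TabOK a b s.sx s.sy s.cur ∧ InvX a b s.sy s.X s.sx ∧ InvY a b s.sx s.Y s.sy

lemma Inv.extX {a b : ℕ} {s : St} (h : Inv a b s) (i : ℕ) : Inv a b (s.extX i (ltr i).sz) :=
  ⟨h.1.dropx _, ⟨s.sx, rfl, h.1, h.2.1⟩, h.2.2.step⟩

lemma Inv.extY {a b : ℕ} {s : St} (h : Inv a b s) (i : ℕ) : Inv a b (s.extY i (ltr i).sz) :=
  ⟨h.1.dropy _, h.2.1.step, ⟨s.sy, rfl, h.1, h.2.2⟩⟩

/-- conclusion of the search -/
def Sol (u v : List ℕ) : Prop := ∃ k, (u.reverse, v.reverse, k) ∈ SolR

/-- what the search proves for a state -/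
def Claim (a b : ℕ) (s : St) : Prop := ∀ u v, UB a b u v → wsz u = a → wsz v = b →
  (∀ i ∈ u, i < 17) → (∀ i ∈ v, i < 17) → (∃ u', u = wd s.X ++ u') → (∃ v', v = wd s.Y ++ v') →
  Sol u v

lemma getlaw {l : Ltr} (c : ℕ) :
    nth (0, []) c l.laws ∈ l.laws ∨ (nth (0, []) c l.laws : ℕ × List ℕ) = (0, []) :=
  nth_mem _ _ _

lemma val_nil_left (y : ℕ × List ℕ) (t : Tb) : val (0, []) y t = 0 := by
  rw [val_eq]; simp

lemma val_nil_right (x : ℕ × List ℕ) (t : Tb) : val x (0, []) t = 0 := by
  rw [val_eq]; simp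

lemma val_nil_tab (x y : ℕ × List ℕ) : val x y [] = 0 := by
  rw [val_eq]; simp

lemma good_zero {d : ℕ} (hd : 0 < d) : good 0 d ≠ true := by
  intro h
  have := (good_iff h).1
  rw [Nat.zero_mod] at this
  omega

lemma killX_sound {a b : ℕ} {s : St} {k c : ℕ} {u v : List ℕ} (hI : Inv a b s)
    (hk : killX (ltr k) s.Y c = true) (hu : Oc u k s.sx) (hwu : wsz u = a) (hwv : wsz v = b)
    (hv : ∃ v', v = wd s.Y ++ v') (hUB : UB a b u v) : False := by
  have hk' : good (val (nth (0, []) (c % 32) (ltr k).laws)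
    (nth (0, []) (c / 32 % 32) (ltr (nth (0, []) (c / 1024) s.Y).1).laws)
      (nth (0, []) (c / 1024) s.Y).2)
    ((ltr k).den * (ltr (nth (0, []) (c / 1024) s.Y).1).den * SS) = true := hk
  clear hk
  set e := (nth (0, []) (c / 1024) s.Y : ℕ × Tb) with he
  obtain ⟨k1, k2, k3, k4⟩ := ltr_facts k
  obtain ⟨e1, e2, e3, e4⟩ := ltr_facts e.1
  have hpos : 0 < (ltr k).den * (ltr e.1).den * SS := by
    have := SS_pos
    positivity
  rcases nth_mem (0, []) s.Y (c / 1024) with h1 | h1
  · rw [← he] at h1
    obtain ⟨o, h2, h3⟩ := hI.2.2.mem e h1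
    obtain ⟨v', rfl⟩ := hv
    have h4 : Oc (wd s.Y ++ v') e.1 o := h2.append v'
    rcases getlaw (l := ltr k) (c % 32) with h5 | h5
    · rcases getlaw (l := ltr e.1) (c / 32 % 32) with h6 | h6
      · have h7 := hu.le
        have h8 := h4.le
        have h9 := k4 _ h5
        have h10 := e4 _ h6
        exact hUB k s.sx e.1 o hu h4 _ h5 _ h6 (good_sound h3 (by omega) (by omega) h9.2 h10.2
          k3 e3 hk')
      · rw [h6, val_nil_right] at hk'
        exact good_zero hpos hk'
    · rw [h5, val_nil_left] at hk'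
      exact good_zero hpos hk'
  · rw [← he] at h1
    have h2 : e.2 = [] := by rw [h1]
    rw [h2, val_nil_tab] at hk'
    exact good_zero hpos hk'

lemma killY_sound {a b : ℕ} {s : St} {k c : ℕ} {u v : List ℕ} (hI : Inv a b s)
    (hk : killY (ltr k) s.X c = true) (hv : Oc v k s.sy) (hwu : wsz u = a) (hwv : wsz v = b)
    (hu : ∃ u', u = wd s.X ++ u') (hUB : UB a b u v) : False := by
  have hk' : good (val (nth (0, []) (c / 32 % 32) (ltr (nth (0, []) (c / 1024) s.X).1).laws)
    (nth (0, []) (c % 32) (ltr k).laws) (nth (0, []) (c / 1024) s.X).2)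
    ((ltr (nth (0, []) (c / 1024) s.X).1).den * (ltr k).den * SS) = true := hk
  clear hk
  set e := (nth (0, []) (c / 1024) s.X : ℕ × Tb) with he
  obtain ⟨k1, k2, k3, k4⟩ := ltr_facts k
  obtain ⟨e1, e2, e3, e4⟩ := ltr_facts e.1
  have hpos : 0 < (ltr e.1).den * (ltr k).den * SS := by
    have := SS_pos
    positivity
  rcases nth_mem (0, []) s.X (c / 1024) with h1 | h1
  · rw [← he] at h1
    obtain ⟨o, h2, h3⟩ := hI.2.1.mem e h1
    obtain ⟨u', rfl⟩ := hu
    have h4 : Oc (wd s.X ++ u') e.1 o := h2.append u'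
    rcases getlaw (l := ltr k) (c % 32) with h5 | h5
    · rcases getlaw (l := ltr e.1) (c / 32 % 32) with h6 | h6
      · have h7 := hv.le
        have h8 := h4.le
        have h9 := k4 _ h5
        have h10 := e4 _ h6
        exact hUB e.1 o k s.sy h4 hv _ h6 _ h5 (good_sound h3 (by omega) (by omega) h10.2 h9.2
          e3 k3 hk')
      · rw [h6, val_nil_left] at hk'
        exact good_zero hpos hk'
    · rw [h5, val_nil_right] at hk'
      exact good_zero hpos hk'
  · rw [← he] at h1
    have h2 : e.2 = [] := by rw [h1]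
    rw [h2, val_nil_tab] at hk'
    exact good_zero hpos hk'

/-! ### the loops over the blocks -/

lemma bool_and {x y : Bool} (h : @Bool.casesOn (fun _ => Bool) x false y = true) :
    x = true ∧ y = true := by
  cases x with
  | false => exact absurd h (by simp)
  | true => exact ⟨rfl, h⟩

lemma okX_spec {B : Bd} {s : St} {acc : List St} : ∀ (ls : List Ltr) (i c : ℕ),
    okX B s ls c = true → ∀ k < ls.length,
      s.extX (i + k) (nth l0 k ls).sz ∈ chX s acc ls i c ∨
      (B.amax + 1 ≤ s.sx + (nth l0 k ls).sz ∧ 1 ≤ B.amax) ∨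
      ∃ m, killX (nth l0 k ls) s.Y m = true := by
  intro ls
  induction ls with
  | nil => intro i c _ k hk; simp at hk
  | cons l ls ih =>
    intro i c h k hk
    have h' : @Bool.casesOn (fun _ => Bool) (@Nat.rec (fun _ => Bool) true
      (fun m _ => @Nat.rec (fun _ => Bool)
        (@Bool.casesOn (fun _ => Bool) (Nat.ble (Nat.succ B.amax) (Nat.add s.sx l.sz)) false
          (Nat.ble 1 B.amax))
        (fun m _ => killX l s.Y m) m) (c % 32768)) false
        (okX B s ls (c / 32768)) = true := h
    obtain ⟨h1, h2⟩ := bool_and h'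
    have e : chX s acc (l :: ls) i c = @Nat.rec (fun _ => List St)
      (s.extX i l.sz :: chX s acc ls (i + 1) (c / 32768))
      (fun _ _ => chX s acc ls (i + 1) (c / 32768)) (c % 32768) := rfl
    rw [e]
    cases k with
    | zero =>
      rw [nth_zero]
      generalize c % 32768 = d at h1
      cases d with
      | zero => left; simp
      | succ d =>
        cases d with
        | zero =>
          right; left
          obtain ⟨h3, h4⟩ := bool_and h1
          exact ⟨Nat.le_of_ble_eq_true h3, Nat.le_of_ble_eq_true h4⟩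
        | succ d =>
          right; right
          exact ⟨d, h1⟩
    | succ k =>
      rw [nth_succ]
      have h3 := ih (i + 1) (c / 32768) h2 k (by simpa using hk)
      rw [show i + (k + 1) = i + 1 + k by ring]
      rcases h3 with h3 | h3 | h3
      · left
        generalize c % 32768 = d
        cases d with
        | zero => exact List.mem_cons_of_mem _ h3
        | succ d => exact h3
      · right; left; exact h3
      · right; right; exact h3

lemma okY_spec {B : Bd} {s : St} {acc : List St} : ∀ (ls : List Ltr) (i c : ℕ),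
    okY B s ls c = true → ∀ k < ls.length,
      s.extY (i + k) (nth l0 k ls).sz ∈ chY s acc ls i c ∨
      (B.bmax + 1 ≤ s.sy + (nth l0 k ls).sz ∧ 1 ≤ B.bmax) ∨
      ∃ m, killY (nth l0 k ls) s.X m = true := by
  intro ls
  induction ls with
  | nil => intro i c _ k hk; simp at hk
  | cons l ls ih =>
    intro i c h k hk
    have h' : @Bool.casesOn (fun _ => Bool) (@Nat.rec (fun _ => Bool) true
      (fun m _ => @Nat.rec (fun _ => Bool)
        (@Bool.casesOn (fun _ => Bool) (Nat.ble (Nat.succ B.bmax) (Nat.add s.sy l.sz)) false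
          (Nat.ble 1 B.bmax))
        (fun m _ => killY l s.X m) m) (c % 32768)) false
        (okY B s ls (c / 32768)) = true := h
    obtain ⟨h1, h2⟩ := bool_and h'
    have e : chY s acc (l :: ls) i c = @Nat.rec (fun _ => List St)
      (s.extY i l.sz :: chY s acc ls (i + 1) (c / 32768))
      (fun _ _ => chY s acc ls (i + 1) (c / 32768)) (c % 32768) := rfl
    rw [e]
    cases k with
    | zero =>
      rw [nth_zero]
      generalize c % 32768 = d at h1
      cases d with
      | zero => left; simp
      | succ d =>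
        cases d with
        | zero =>
          right; left
          obtain ⟨h3, h4⟩ := bool_and h1
          exact ⟨Nat.le_of_ble_eq_true h3, Nat.le_of_ble_eq_true h4⟩
        | succ d =>
          right; right
          exact ⟨d, h1⟩
    | succ k =>
      rw [nth_succ]
      have h3 := ih (i + 1) (c / 32768) h2 k (by simpa using hk)
      rw [show i + (k + 1) = i + 1 + k by ring]
      rcases h3 with h3 | h3 | h3
      · left
        generalize c % 32768 = d
        cases d with
        | zero => exact List.mem_cons_of_mem _ h3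
        | succ d => exact h3
      · right; left; exact h3
      · right; right; exact h3

lemma chX_acc {s : St} {acc : List St} : ∀ (ls : List Ltr) (i c : ℕ), ∀ e ∈ acc,
    e ∈ chX s acc ls i c := by
  intro ls
  induction ls with
  | nil => intro i c e he; exact he
  | cons l ls ih =>
    intro i c e he
    have h := ih (i + 1) (c / 32768) e he
    have e1 : chX s acc (l :: ls) i c = @Nat.rec (fun _ => List St)
      (s.extX i l.sz :: chX s acc ls (i + 1) (c / 32768))
      (fun _ _ => chX s acc ls (i + 1) (c / 32768)) (c % 32768) := rfl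
    rw [e1]
    generalize c % 32768 = d
    cases d with
    | zero => exact List.mem_cons_of_mem _ h
    | succ d => exact h

lemma chY_acc {s : St} {acc : List St} : ∀ (ls : List Ltr) (i c : ℕ), ∀ e ∈ acc,
    e ∈ chY s acc ls i c := by
  intro ls
  induction ls with
  | nil => intro i c e he; exact he
  | cons l ls ih =>
    intro i c e he
    have h := ih (i + 1) (c / 32768) e he
    have e1 : chY s acc (l :: ls) i c = @Nat.rec (fun _ => List St)
      (s.extY i l.sz :: chY s acc ls (i + 1) (c / 32768))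
      (fun _ _ => chY s acc ls (i + 1) (c / 32768)) (c % 32768) := rfl
    rw [e1]
    generalize c % 32768 = d
    cases d with
    | zero => exact List.mem_cons_of_mem _ h
    | succ d => exact h

lemma eqL_spec : ∀ (x y : List ℕ), eqL x y = true → x = y := by
  intro x
  induction x with
  | nil =>
    intro y h
    cases y with
    | nil => rfl
    | cons b t => exact absurd h (by simp [eqL])
  | cons a s ih =>
    intro y h
    cases y with
    | nil => exact absurd h (by simp [eqL])
    | cons b t =>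
      have h' : @Bool.casesOn (fun _ => Bool) (Nat.beq a b) false (eqL s t) = true := h
      obtain ⟨h1, h2⟩ := bool_and h'
      rw [Nat.eq_of_beq_eq_true h1, ih t h2]

lemma memS_spec (x y : List ℕ) : ∀ (l : List (List ℕ × List ℕ × ℕ)), memS x y l = true →
    ∃ k, (x, y, k) ∈ l := by
  intro l
  induction l with
  | nil => intro h; exact absurd h (by simp [memS])
  | cons p l ih =>
    intro h
    have h' : @Bool.casesOn (fun _ => Bool)
      (@Bool.casesOn (fun _ => Bool) (eqL x p.1) false (eqL y p.2.1)) (memS x y l) true = true := h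
    cases hb : @Bool.casesOn (fun _ => Bool) (eqL x p.1) false (eqL y p.2.1) with
    | false =>
      rw [hb] at h'
      obtain ⟨k, hk⟩ := ih h'
      exact ⟨k, List.mem_cons_of_mem _ hk⟩
    | true =>
      obtain ⟨h1, h2⟩ := bool_and hb
      refine ⟨p.2.2, ?_⟩
      rw [eqL_spec _ _ h1, eqL_spec _ _ h2]
      exact List.mem_cons_self

lemma ltr_eq (k : ℕ) : nth l0 k LS = ltr k := rfl

/-- **Soundness of the search.** -/
theorem run_sound {B : Bd} {a b : ℕ} (ha : B.amin ≤ a) (hb : B.bmin ≤ b)
    (ha' : B.amax = 0 ∨ a ≤ B.amax) (hb' : B.bmax = 0 ∨ b ≤ B.bmax) :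
    ∀ (cs : List ℕ) (st : List St), run B cs st = true → ∀ s ∈ st, Inv a b s → Claim a b s := by
  intro cs
  induction cs with
  | nil =>
    intro st h s hs
    cases st with
    | nil => simp at hs
    | cons s' rest => exact absurd h (by simp [run])
  | cons c cs ih =>
    intro st h s hs hI
    cases st with
    | nil => simp at hs
    | cons s' rest =>
      have h' : @Nat.rec (fun _ => Bool)
        (@Bool.casesOn (fun _ => Bool) (Nat.ble (Nat.succ s'.sx) B.amin) false
          (@Bool.casesOn (fun _ => Bool) (okX B s' LS (c / 4)) false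
            (run B cs (chX s' rest LS 0 (c / 4)))))
        (fun m _ => @Nat.rec (fun _ => Bool)
          (@Bool.casesOn (fun _ => Bool) (Nat.ble (Nat.succ s'.sy) B.bmin) false
            (@Bool.casesOn (fun _ => Bool) (okY B s' LS (c / 4)) false
              (run B cs (chY s' rest LS 0 (c / 4)))))
          (fun _ _ => @Bool.casesOn (fun _ => Bool) (Nat.ble B.amax s'.sx) false
            (@Bool.casesOn (fun _ => Bool) (Nat.ble B.bmax s'.sy) false
            (@Bool.casesOn (fun _ => Bool) (Nat.ble 1 B.amax) false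
            (@Bool.casesOn (fun _ => Bool) (Nat.ble 1 B.bmax) false
            (@Bool.casesOn (fun _ => Bool) (memS (mpp Prod.fst s'.X) (mpp Prod.fst s'.Y) SolR)
              false (run B cs rest)))))) m) (c % 4) = true := h
      clear h
      generalize c % 4 = d at h'
      cases d with
      | zero =>
        obtain ⟨h1, h2⟩ := bool_and h'
        obtain ⟨h2, h3⟩ := bool_and h2
        have ih' := ih _ h3
        rcases List.mem_cons.1 hs with rfl | hs
        · intro u v hUB hu hv hu17 hv17 ⟨u', hu'⟩ hv'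
          have h1' := Nat.le_of_ble_eq_true h1
          have hws := hI.2.1.wsz
          cases u' with
          | nil =>
            rw [hu', List.append_nil, hws] at hu
            omega
          | cons k u'' =>
            have hk : k < 17 := hu17 k (by rw [hu']; simp)
            have hoc : Oc u k s.sx := ⟨wd s.X, u'', hu', hws⟩
            rcases okX_spec (acc := rest) LS 0 (c / 4) h2 k (by simpa [LS] using hk) with h4 | h4 | h4
            · rw [ltr_eq, Nat.zero_add] at h4
              refine ih' _ h4 (hI.extX k) u v hUB hu hv hu17 hv17 ⟨u'', ?_⟩ ?_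
              · have : wd (s.extX k (ltr k).sz).X = wd s.X ++ [k] := wd_cons _ _
                rw [this, hu']
                simp
              · have : wd (s.extX k (ltr k).sz).Y = wd s.Y := wd_mpp (f := drp (ltr k).sz) s.Y
                rw [this]
                exact hv'
            · rw [ltr_eq] at h4
              have := hoc.le
              omega
            · obtain ⟨m, hm⟩ := h4
              exact (killX_sound hI hm hoc hu hv hv' hUB).elim
        · exact ih' s (chX_acc _ _ _ s hs) hI
      | succ d =>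
        cases d with
        | zero =>
          obtain ⟨h1, h2⟩ := bool_and h'
          obtain ⟨h2, h3⟩ := bool_and h2
          have ih' := ih _ h3
          rcases List.mem_cons.1 hs with rfl | hs
          · intro u v hUB hu hv hu17 hv17 hu' ⟨v', hv'⟩
            have h1' := Nat.le_of_ble_eq_true h1
            have hws := hI.2.2.wsz
            cases v' with
            | nil =>
              rw [hv', List.append_nil, hws] at hv
              omega
            | cons k v'' =>
              have hk : k < 17 := hv17 k (by rw [hv']; simp)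
              have hoc : Oc v k s.sy := ⟨wd s.Y, v'', hv', hws⟩
              rcases okY_spec (acc := rest) LS 0 (c / 4) h2 k (by simpa [LS] using hk) with
                h4 | h4 | h4
              · rw [ltr_eq, Nat.zero_add] at h4
                refine ih' _ h4 (hI.extY k) u v hUB hu hv hu17 hv17 ?_ ⟨v'', ?_⟩
                · have : wd (s.extY k (ltr k).sz).X = wd s.X :=
                    wd_mpp (f := mpp (drp (ltr k).sz)) s.X
                  rw [this]
                  exact hu'
                · have : wd (s.extY k (ltr k).sz).Y = wd s.Y ++ [k] := wd_cons _ _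
                  rw [this, hv']
                  simp
              · rw [ltr_eq] at h4
                have := hoc.le
                omega
              · obtain ⟨m, hm⟩ := h4
                exact (killY_sound hI hm hoc hu hv hu' hUB).elim
          · exact ih' s (chY_acc _ _ _ s hs) hI
        | succ d =>
          obtain ⟨h1, g1⟩ := bool_and h'
          obtain ⟨h2, g2⟩ := bool_and g1
          obtain ⟨h3, g3⟩ := bool_and g2
          obtain ⟨h4, g4⟩ := bool_and g3
          obtain ⟨h5, h6⟩ := bool_and g4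
          rcases List.mem_cons.1 hs with rfl | hs
          · intro u v hUB hu hv hu17 hv17 ⟨u', hu'⟩ ⟨v', hv'⟩
            have h1' := Nat.le_of_ble_eq_true h1
            have h2' := Nat.le_of_ble_eq_true h2
            have h3' := Nat.le_of_ble_eq_true h3
            have h4' := Nat.le_of_ble_eq_true h4
            have hwx := hI.2.1.wsz
            have hwy := hI.2.2.wsz
            have e1 : u' = [] := by
              cases u' with
              | nil => rfl
              | cons k u'' =>
                rw [hu', wsz_append, wsz_cons, hwx] at hu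
                have := (ltr_facts k).1
                omega
            have e2 : v' = [] := by
              cases v' with
              | nil => rfl
              | cons k u'' =>
                rw [hv', wsz_append, wsz_cons, hwy] at hv
                have := (ltr_facts k).1
                omega
            rw [e1, List.append_nil] at hu'
            rw [e2, List.append_nil] at hv'
            obtain ⟨k, hk⟩ := memS_spec _ _ _ h5
            rw [mpp_eq, mpp_eq] at hk
            refine ⟨k, ?_⟩
            rw [hu', hv']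
            simpa [wd] using hk
          · exact ih _ h6 s hs hI

/-- **A region.** -/
theorem region {hG hH : HR} {B : Bd} {cs : List ℕ} {m n : ℕ}
    (hrun : run B cs [st0 hG hH m n] = true) {a b : ℕ} (hokG : hG.ok a b) (hokH : hH.ok b a)
    (ha : B.amin ≤ a) (hb : B.bmin ≤ b) (ha' : B.amax = 0 ∨ a ≤ B.amax)
    (hb' : B.bmax = 0 ∨ b ≤ B.bmax) {u v : List ℕ} (hUB : UB a b u v) (hu : wsz u = a)
    (hv : wsz v = b) (hu17 : ∀ i ∈ u, i < 17) (hv17 : ∀ i ∈ v, i < 17) : Sol u v :=
  run_sound ha hb ha' hb' cs _ hrun _ (List.mem_singleton.2 rfl)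
    ⟨st0_ok hokG hokH m n, rfl, rfl⟩ u v hUB hu hv hu17 hv17 ⟨u, rfl⟩ ⟨v, rfl⟩

end Pool.Agent.NF
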