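import Mathlib
import Pool.Agent.Helper43.NF.Run
import Pool.Agent.Helper43.NF.Rep

/-!
# The blocks are blocks: kernel checks
-/

set_option autoImplicit false

namespace Pool.Agent.NF

open Finset Pool.Agent.Helper73.KS Pool.Agent.Helper73.KS.SPT

/-- exists in a list -/
noncomputable def anyL {α : Type} (f : α → Bool) (x : List α) : Bool :=
  @List.rec α (fun _ => Bool) false (fun a _ ih => @Bool.casesOn (fun _ => Bool) (f a) ih true) x

lemma anyL_spec {α : Type} {f : α → Bool} {x : List α} (h : anyL f x = true) :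
    ∃ a ∈ x, f a = true := by
  induction x with
  | nil => exact absurd h (by simp [anyL])
  | cons b t ih =>
    have h1 : @Bool.casesOn (fun _ => Bool) (f b) (anyL f t) true = true := h
    cases hb : f b with
    | true => exact ⟨b, List.mem_cons_self, hb⟩
    | false =>
      rw [hb] at h1
      obtain ⟨a, ha, ha'⟩ := ih h1
      exact ⟨a, List.mem_cons_of_mem _ ha, ha'⟩

/-- concatenation for the kernel -/
noncomputable def cat {α : Type} (x y : List α) : List α :=
  @List.rec α (fun _ => List α) y (fun a _ ih => a :: ih) x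

lemma cat_eq {α : Type} (x y : List α) : cat x y = x ++ y := by
  induction x with
  | nil => rfl
  | cons a t ih =>
    change a :: cat t y = _
    rw [ih]
    rfl

/-- the vectors of the laws of a word -/
noncomputable def vecs (w : List ℕ) : ℕ → List (List ℕ × ℕ) :=
  @List.rec ℕ (fun _ => ℕ → List (List ℕ × ℕ)) (fun _ => [])
    (fun i _ ih o => cat (mpp (fun x : ℕ × List ℕ => (zer (Nat.add o x.1) x.2, (ltr i).den))
      (ltr i).laws) (ih (Nat.add o (ltr i).sz))) w

lemma mem_mpp {α β : Type} {f : α → β} {l : List α} {b : β} (h : b ∈ mpp f l) :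
    ∃ a ∈ l, f a = b := by
  rw [mpp_eq] at h
  exact List.mem_map.1 h

lemma mem_vecs : ∀ (w : List ℕ) (s : ℕ) (p : List ℕ × ℕ), p ∈ vecs w s →
    ∃ i o x, Oc w i o ∧ x ∈ (ltr i).laws ∧ p = (zer (s + o + x.1) x.2, (ltr i).den) := by
  intro w
  induction w with
  | nil => intro s p hp; exact absurd hp (by simp [vecs])
  | cons i w ih =>
    intro s p hp
    have hp' : p ∈ cat (mpp (fun x : ℕ × List ℕ => (zer (s + x.1) x.2, (ltr i).den))
      (ltr i).laws) (vecs w (s + (ltr i).sz)) := hp
    rw [cat_eq, List.mem_append] at hp'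
    rcases hp' with h | h
    · obtain ⟨x, hx, rfl⟩ := mem_mpp h
      exact ⟨i, 0, x, ⟨[], w, rfl, rfl⟩, hx, by rw [Nat.add_zero]⟩
    · obtain ⟨j, o, x, ⟨p', q', h1, h2⟩, hx, rfl⟩ := ih _ _ h
      refine ⟨j, (ltr i).sz + o, x, ⟨i :: p', q', by rw [h1]; rfl, by rw [wsz_cons, h2]⟩, hx, ?_⟩
      rw [show s + (ltr i).sz + o = s + ((ltr i).sz + o) by ring]

/-- elevated vectors -/
noncomputable def elv (n k : ℕ) (p : List ℕ × ℕ) : List ℕ × ℕ := (elK n p.1 k, dK n p.2 k)

/-- the laws of a block occur -/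
noncomputable def lawsOK (us vs : List (List ℕ × ℕ)) (den : ℕ) (ls : List (ℕ × List ℕ)) : Bool :=
  allL (fun y => @Bool.casesOn (fun _ => Bool)
    (anyL (fun p => eqS p.2 den p.1 (zer y.1 y.2)) us)
    (anyL (fun p => eqS p.2 den p.1 (zer y.1 y.2)) vs) true) ls

/-- the balance test -/
noncomputable def balT (a b bn bd : ℕ) (p q : List ℕ × ℕ) : Bool :=
  nseq (NK a b p.1 q.1) fun N => nseq (p.2 * q.2 * chK (a + b) a) fun dd =>
    Nat.ble (bn * dd) (bd * N) && Nat.ble (bn * dd) (bd * (dd - N))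

/-- the balance constant occurs -/
noncomputable def balOK (a b bn bd : ℕ) (us vs : List (List ℕ × ℕ)) : Bool :=
  anyL (fun p => anyL (fun q => balT a b bn bd p q) vs) us

/-- maximal width of the blocks of a word -/
noncomputable def mwd (w : List ℕ) : ℕ :=
  @List.rec ℕ (fun _ => ℕ) 0 (fun i _ ih => max (ltr i).wd ih) w

/-- test of one cross pair: `min (E, 1 - E) ≤ n / d` -/
noncomputable def prT (a b n d : ℕ) (p q : List ℕ × ℕ) : Bool :=
  nseq (NK a b p.1 q.1) fun N => nseq (p.2 * q.2 * chK (a + b) a) fun dd =>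
    @Bool.casesOn (fun _ => Bool) (Nat.ble (d * N) (n * dd)) (Nat.ble (d * (dd - N)) (n * dd)) true

/-- every vector is a law of the block -/
noncomputable def cmpOK (us : List (List ℕ × ℕ)) (den : ℕ) (ls : List (ℕ × List ℕ)) : Bool :=
  allL (fun p => anyL (fun y => eqS p.2 den p.1 (zer y.1 y.2)) ls) us

/-- the balance constants of the parts are not larger -/
noncomputable def innOK (w : List ℕ) (bn bd : ℕ) : Bool :=
  allL (fun i => Nat.ble ((ltr i).bn * bd) (bn * (ltr i).bd)) w

/-- all conditions for a block -/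
noncomputable def solOK (u v : List ℕ) (k : ℕ) : Bool :=
  Nat.beq (wsz u + wsz v) (ltr k).sz && (Nat.ble 1 k && (Nat.ble (k + 1) 17 &&
    (Nat.beq (mwd u + mwd v) (ltr k).wd &&
    (lawsOK (mpp (elv (wsz u - 1) (wsz v)) (vecs u 0)) (mpp (elv (wsz v - 1) (wsz u)) (vecs v 0))
      (ltr k).den (ltr k).laws &&
    (balOK (wsz u) (wsz v) (ltr k).bn (ltr k).bd (vecs u 0) (vecs v 0) &&
    (cmpOK (mpp (elv (wsz u - 1) (wsz v)) (vecs u 0)) (ltr k).den (ltr k).laws &&
    (cmpOK (mpp (elv (wsz v - 1) (wsz u)) (vecs v 0)) (ltr k).den (ltr k).laws &&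
    (innOK u (ltr k).bn (ltr k).bd && (innOK v (ltr k).bn (ltr k).bd &&
    (allL (fun p => allL (fun q => prT (wsz u) (wsz v) (ltr k).bn (ltr k).bd p q) (vecs v 0))
      (vecs u 0) && Nat.ble (ltr k).sz 17))))))))))

theorem sol_all : allL (fun p : List ℕ × List ℕ × ℕ => solOK p.1.reverse p.2.1.reverse p.2.2) SolR =
    true := by decide +kernel

lemma cat_mem_left {α : Type} {x y : List α} {a : α} (h : a ∈ x) : a ∈ cat x y := by
  rw [cat_eq]; exact List.mem_append_left _ h

lemma cat_mem_right {α : Type} {x y : List α} {a : α} (h : a ∈ y) : a ∈ cat x y := by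
  rw [cat_eq]; exact List.mem_append_right _ h

lemma mpp_mem {α β : Type} {f : α → β} {l : List α} {a : α} (h : a ∈ l) : f a ∈ mpp f l := by
  rw [mpp_eq]; exact List.mem_map.2 ⟨a, h, rfl⟩

lemma vecs_mem : ∀ (w : List ℕ) (s i o : ℕ) (x : ℕ × List ℕ), Oc w i o → x ∈ (ltr i).laws →
    ((zer (s + o + x.1) x.2, (ltr i).den) : List ℕ × ℕ) ∈ vecs w s := by
  intro w
  induction w with
  | nil =>
    rintro s i o x ⟨p, q, h1, -⟩ _
    simp at h1
  | cons j w ih =>
    rintro s i o x ⟨p, q, h1, h2⟩ hx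
    have e : vecs (j :: w) s = cat (mpp (fun x : ℕ × List ℕ => (zer (s + x.1) x.2, (ltr j).den))
      (ltr j).laws) (vecs w (s + (ltr j).sz)) := rfl
    rw [e]
    cases p with
    | nil =>
      simp only [List.nil_append, List.cons.injEq] at h1
      obtain ⟨rfl, rfl⟩ := h1
      rw [wsz_nil] at h2
      subst h2
      refine cat_mem_left ?_
      rw [Nat.add_zero]
      exact mpp_mem (f := fun x : ℕ × List ℕ => (zer (s + x.1) x.2, (ltr j).den)) hx
    | cons a p =>
      simp only [List.cons_append, List.cons.injEq] at h1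
      obtain ⟨rfl, h1⟩ := h1
      rw [wsz_cons] at h2
      refine cat_mem_right ?_
      have := ih (s + (ltr j).sz) i (wsz p) x ⟨p, q, h1, rfl⟩ hx
      rw [show s + (ltr j).sz + wsz p = s + o by omega] at this
      exact this

end Pool.Agent.NF
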