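import Mathlib
import Pool.Agent.Helper1.BalanceDefs
import Pool.Agent.Helper73.KS.Cons

/-!
# Width of series-parallel trees
-/

set_option autoImplicit false

namespace Pool.Agent.NF

open Finset Pool.Agent.Helper73.KS Pool.Agent.Helper73.KS.SPT

/-- the width -/
def Wd : SPT → ℕ
  | leaf => 1
  | ser A B => max (Wd A) (Wd B)
  | par A B => Wd A + Wd B

/-- antichains of a tree -/
def AntiT (T : SPT) (s : Finset (El T)) : Prop := ∀ a ∈ s, ∀ b ∈ s, a ≠ b → ¬ le T a b

lemma anti_le : ∀ (T : SPT) (s : Finset (El T)), AntiT T s → s.card ≤ Wd T := by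
  intro T
  induction T with
  | leaf =>
    intro s _
    exact (Finset.card_le_univ s).trans (le_of_eq (by rfl))
  | ser A B ihA ihB =>
    intro s hs
    have hc := Finset.card_toLeft_add_card_toRight (u := (s : Finset (El A ⊕ El B)))
    have hL : AntiT A (Finset.toLeft (s : Finset (El A ⊕ El B))) := by
      intro a ha b hb hab
      have ha' := Finset.mem_toLeft.1 ha
      have hb' := Finset.mem_toLeft.1 hb
      exact hs (sl a) ha' (sl b) hb' (fun h => hab (Sum.inl.inj h))
    have hR : AntiT B (Finset.toRight (s : Finset (El A ⊕ El B))) := by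
      intro a ha b hb hab
      have ha' := Finset.mem_toRight.1 ha
      have hb' := Finset.mem_toRight.1 hb
      exact hs (sr a) ha' (sr b) hb' (fun h => hab (Sum.inr.inj h))
    have h1 := ihA _ hL
    have h2 := ihB _ hR
    change s.card ≤ max (Wd A) (Wd B)
    have hc' : (Finset.toLeft (s : Finset (El A ⊕ El B))).card +
      (Finset.toRight (s : Finset (El A ⊕ El B))).card = s.card := hc
    rcases (Finset.toLeft (s : Finset (El A ⊕ El B))).eq_empty_or_nonempty with h | ⟨a, ha⟩
    · rw [h, Finset.card_empty] at hc'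
      omega
    · rcases (Finset.toRight (s : Finset (El A ⊕ El B))).eq_empty_or_nonempty with h' | ⟨b, hb⟩
      · rw [h', Finset.card_empty] at hc'
        omega
      · exfalso
        have ha' := Finset.mem_toLeft.1 ha
        have hb' := Finset.mem_toRight.1 hb
        refine hs (sl a) ha' (sr b) hb' (fun h => ?_) trivial
        exact Sum.inl_ne_inr h
  | par A B ihA ihB =>
    intro s hs
    have hc := Finset.card_toLeft_add_card_toRight (u := (s : Finset (El A ⊕ El B)))
    have hL : AntiT A (Finset.toLeft (s : Finset (El A ⊕ El B))) := by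
      intro a ha b hb hab
      have ha' := Finset.mem_toLeft.1 ha
      have hb' := Finset.mem_toLeft.1 hb
      exact hs (pl a) ha' (pl b) hb' (fun h => hab (Sum.inl.inj h))
    have hR : AntiT B (Finset.toRight (s : Finset (El A ⊕ El B))) := by
      intro a ha b hb hab
      have ha' := Finset.mem_toRight.1 ha
      have hb' := Finset.mem_toRight.1 hb
      exact hs (pr a) ha' (pr b) hb' (fun h => hab (Sum.inr.inj h))
    have h1 := ihA _ hL
    have h2 := ihB _ hR
    have hc' : (Finset.toLeft (s : Finset (El A ⊕ El B))).card +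
      (Finset.toRight (s : Finset (El A ⊕ El B))).card = s.card := hc
    change s.card ≤ Wd A + Wd B
    omega

lemma anti_ex : ∀ T : SPT, ∃ s : Finset (El T), s.card = Wd T ∧ AntiT T s := by
  intro T
  induction T with
  | leaf =>
    refine ⟨Finset.univ, rfl, ?_⟩
    intro a _ b _ hab
    exact absurd (Subsingleton.elim (α := Unit) a b) hab
  | ser A B ihA ihB =>
    rcases le_total (Wd A) (Wd B) with h | h
    · obtain ⟨s, hs1, hs2⟩ := ihB
      refine ⟨(s.map ⟨Sum.inr, Sum.inr_injective⟩ : Finset (El A ⊕ El B)), ?_, ?_⟩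
      · have : (s.map (⟨Sum.inr, Sum.inr_injective⟩ : El B ↪ El A ⊕ El B)).card = s.card :=
          Finset.card_map _
        change (s.map (⟨Sum.inr, Sum.inr_injective⟩ : El B ↪ El A ⊕ El B)).card = max (Wd A) (Wd B)
        rw [this, hs1, max_eq_right h]
      · intro a ha b hb hab
        obtain ⟨a', ha', rfl⟩ := Finset.mem_map.1 ha
        obtain ⟨b', hb', rfl⟩ := Finset.mem_map.1 hb
        exact hs2 a' ha' b' hb' (fun h => hab (by rw [h]))
    · obtain ⟨s, hs1, hs2⟩ := ihA
      refine ⟨(s.map ⟨Sum.inl, Sum.inl_injective⟩ : Finset (El A ⊕ El B)), ?_, ?_⟩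
      · have : (s.map (⟨Sum.inl, Sum.inl_injective⟩ : El A ↪ El A ⊕ El B)).card = s.card :=
          Finset.card_map _
        change (s.map (⟨Sum.inl, Sum.inl_injective⟩ : El A ↪ El A ⊕ El B)).card = max (Wd A) (Wd B)
        rw [this, hs1, max_eq_left h]
      · intro a ha b hb hab
        obtain ⟨a', ha', rfl⟩ := Finset.mem_map.1 ha
        obtain ⟨b', hb', rfl⟩ := Finset.mem_map.1 hb
        exact hs2 a' ha' b' hb' (fun h => hab (by rw [h]))
  | par A B ihA ihB =>
    obtain ⟨s, hs1, hs2⟩ := ihA
    obtain ⟨t, ht1, ht2⟩ := ihB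
    refine ⟨(Finset.disjSum s t : Finset (El A ⊕ El B)), ?_, ?_⟩
    · have : (Finset.disjSum s t).card = s.card + t.card := Finset.card_disjSum _ _
      change (Finset.disjSum s t).card = Wd A + Wd B
      rw [this, hs1, ht1]
    · intro a ha b hb hab
      rcases Finset.mem_disjSum.1 ha with ⟨a', ha', rfl⟩ | ⟨a', ha', rfl⟩
      · rcases Finset.mem_disjSum.1 hb with ⟨b', hb', rfl⟩ | ⟨b', hb', rfl⟩
        · exact hs2 a' ha' b' hb' (fun h => hab (by rw [h]))
        · exact fun h => h
      · rcases Finset.mem_disjSum.1 hb with ⟨b', hb', rfl⟩ | ⟨b', hb', rfl⟩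
        · exact fun h => h
        · exact ht2 a' ha' b' hb' (fun h => hab (by rw [h]))

open Pool.Agent.Helper1.Balance in
lemma has_width {n : ℕ} {r : Fin n → Fin n → Prop} {T : SPT} (e : Fin n ≃ El T)
    (he : ∀ a b, r a b ↔ le T (e a) (e b)) : HasWidth r (Wd T) := by
  constructor
  · obtain ⟨s, hs1, hs2⟩ := anti_ex T
    refine ⟨s.map e.symm.toEmbedding, by rw [Finset.card_map, hs1], ?_⟩
    intro a ha b hb hab
    obtain ⟨a', ha', rfl⟩ := Finset.mem_map.1 ha
    obtain ⟨b', hb', rfl⟩ := Finset.mem_map.1 hb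
    rw [he]
    have h1 : e (e.symm.toEmbedding a') = a' := e.apply_symm_apply a'
    have h2 : e (e.symm.toEmbedding b') = b' := e.apply_symm_apply b'
    rw [h1, h2]
    exact hs2 a' ha' b' hb' (fun h => hab (by rw [h]))
  · intro s hs
    rw [← Finset.card_map e.toEmbedding]
    refine anti_le T _ ?_
    intro a ha b hb hab
    obtain ⟨a', ha', rfl⟩ := Finset.mem_map.1 ha
    obtain ⟨b', hb', rfl⟩ := Finset.mem_map.1 hb
    have := hs a' ha' b' hb' (fun h => hab (by rw [h]))
    rw [he] at this
    exact this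

open Pool.Agent.Helper1.Balance in
lemma width_unique {n : ℕ} {r : Fin n → Fin n → Prop} {w w' : ℕ} (h : HasWidth r w)
    (h' : HasWidth r w') : w = w' := by
  obtain ⟨⟨s, hs, hsa⟩, h1⟩ := h
  obtain ⟨⟨s', hs', hsa'⟩, h1'⟩ := h'
  have := h1' s hsa
  have := h1 s' hsa'
  omega

end Pool.Agent.NF
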