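import Mathlib
import Pool.Agent.Helper43.NF.Gap
import Pool.Agent.Helper43.NF.SolK
import Pool.Agent.Helper43.NF.Wid

/-!
# Unbalanced series-parallel trees are words
-/

set_option autoImplicit false

namespace Pool.Agent.NF

open Finset Pool.Agent.Helper73.KS Pool.Agent.Helper73.KS.SPT

/-- the tree `T` realises the word `w` -/
structure Has (T : SPT) (w : List ℕ) : Prop where
  sz : lv T + 1 = wsz w
  lt : ∀ i ∈ w, i < 17
  law : ∀ i o, Oc w i o → ∀ x ∈ (ltr i).laws, ∃ z : El T,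
    Rep (co T z) (zer (o + x.1) x.2) (ltr i).den
  cmp : ∀ z : El T, ∃ i o, Oc w i o ∧ ∃ x ∈ (ltr i).laws,
    Rep (co T z) (zer (o + x.1) x.2) (ltr i).den
  bal : ∀ i ∈ w, i ≠ 0 → ∃ z z' : El T, ¬ le T z z' ∧ ¬ le T z' z ∧
    ((ltr i).bn : ℝ) / (ltr i).bd ≤ pv T z z' ∧ ((ltr i).bn : ℝ) / (ltr i).bd ≤ pv T z' z
  ub : ∀ z z' : El T, ¬ le T z z' → ¬ le T z' z → ∃ i ∈ w, i ≠ 0 ∧
    min (pv T z z') (pv T z' z) ≤ ((ltr i).bn : ℝ) / (ltr i).bd
  wd : Wd T = mwd w
  blk : Blk 17 T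

/-- `T` is the parallel composition of `A` and `B`, up to order -/
structure PT (A B T : SPT) : Prop where
  lv : lv T = lv A + lv B + 1
  left : ∀ x : El A, ∃ z : El T, co T z = elevN (SPT.lv A) (co A x) (SPT.lv B + 1)
  right : ∀ y : El B, ∃ z : El T, co T z = elevN (SPT.lv B) (co B y) (SPT.lv A + 1)
  cs : ∀ z : El T, (∃ x : El A, co T z = elevN (SPT.lv A) (co A x) (SPT.lv B + 1)) ∨
    ∃ y : El B, co T z = elevN (SPT.lv B) (co B y) (SPT.lv A + 1)
  cross : ∀ (x : El A) (y : El B), ∃ z z' : El T, ¬ le T z z' ∧ ¬ le T z' z ∧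
    pv T z z' = E (SPT.lv B) (co B y) (cdf (SPT.lv A) (co A x)) ∧
    pv T z' z = E (SPT.lv A) (co A x) (cdf (SPT.lv B) (co B y))
  prs : ∀ z z' : El T, ¬ le T z z' → ¬ le T z' z →
    (∃ x x' : El A, ¬ le A x x' ∧ ¬ le A x' x ∧
      min (pv T z z') (pv T z' z) = min (pv A x x') (pv A x' x)) ∨
    (∃ y y' : El B, ¬ le B y y' ∧ ¬ le B y' y ∧
      min (pv T z z') (pv T z' z) = min (pv B y y') (pv B y' y)) ∨
    ∃ (x : El A) (y : El B), min (pv T z z') (pv T z' z) =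
      min (E (SPT.lv B) (co B y) (cdf (SPT.lv A) (co A x)))
        (E (SPT.lv A) (co A x) (cdf (SPT.lv B) (co B y)))
  wd : Wd T = Wd A + Wd B
  blk : ∀ N, SPT.lv A + SPT.lv B + 2 ≤ N → Blk N T

lemma pv_cross' {A B : SPT} (x : El A) (y : El B) : pv (par A B) (pr y) (pl x) =
    E (lv A) (co A x) (cdf (lv B) (co B y)) := by
  have h1 := pv_cross x y
  have h2 := pv_symm (par A B) (x := pl x) (y := pr y) (fun h => Sum.inl_ne_inr h)
  have h3 := E_symm (co_Pr A x) (co_Pr B y)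
  linarith

lemma PT_par (A B : SPT) : PT A B (par A B) where
  lv := rfl
  left := fun x => ⟨pl x, rfl⟩
  right := fun y => ⟨pr y, rfl⟩
  cs := by
    intro z
    rcases par_cases z with ⟨a, rfl⟩ | ⟨b, rfl⟩
    · exact Or.inl ⟨a, rfl⟩
    · exact Or.inr ⟨b, rfl⟩
  cross := fun x y => ⟨pl x, pr y, fun h => h, fun h => h, pv_cross x y, pv_cross' x y⟩
  prs := by
    intro z z' h1 h2
    rcases par_cases z with ⟨a, rfl⟩ | ⟨b, rfl⟩ <;> rcases par_cases z' with ⟨a', rfl⟩ | ⟨b', rfl⟩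
    · exact Or.inl ⟨a, a', h1, h2, by rw [pv_pl, pv_pl]⟩
    · exact Or.inr (Or.inr ⟨a, b', by rw [pv_cross, pv_cross']⟩)
    · exact Or.inr (Or.inr ⟨a', b, by rw [pv_cross, pv_cross', min_comm]⟩)
    · exact Or.inr (Or.inl ⟨b, b', h1, h2, by rw [pv_pr, pv_pr]⟩)
  wd := rfl
  blk := fun _ h => h

lemma PT_par' (A B : SPT) : PT B A (par A B) where
  lv := by simp only [SPT.lv]; ring
  left := fun y => ⟨pr y, rfl⟩
  right := fun x => ⟨pl x, rfl⟩
  cs := by
    intro z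
    rcases par_cases z with ⟨a, rfl⟩ | ⟨b, rfl⟩
    · exact Or.inr ⟨a, rfl⟩
    · exact Or.inl ⟨b, rfl⟩
  cross := fun y x => ⟨pr y, pl x, fun h => h, fun h => h, pv_cross' x y, pv_cross x y⟩
  prs := by
    intro z z' h1 h2
    rcases par_cases z with ⟨a, rfl⟩ | ⟨b, rfl⟩ <;> rcases par_cases z' with ⟨a', rfl⟩ | ⟨b', rfl⟩
    · exact Or.inr (Or.inl ⟨a, a', h1, h2, by rw [pv_pl, pv_pl]⟩)
    · exact Or.inr (Or.inr ⟨b', a, by rw [pv_cross, pv_cross', min_comm]⟩)
    · exact Or.inr (Or.inr ⟨b, a', by rw [pv_cross, pv_cross']⟩)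
    · exact Or.inl ⟨b, b', h1, h2, by rw [pv_pr, pv_pr]⟩
  wd := by change Wd A + Wd B = _; omega
  blk := fun N h => by change SPT.lv A + SPT.lv B + 2 ≤ N; omega

lemma vec_real {A : SPT} {u : List ℕ} (hA : Has A u) {p : List ℕ × ℕ} (hp : p ∈ vecs u 0) :
    ∃ z : El A, Rep (co A z) p.1 p.2 ∧ p.1.length ≤ lv A + 1 ∧ 0 < p.2 := by
  obtain ⟨i, o, x, ho, hx, rfl⟩ := mem_vecs u 0 p hp
  obtain ⟨z, hz⟩ := hA.law i o ho x hx
  obtain ⟨i1, i2, i3, i4⟩ := ltr_facts i
  have h1 := (i4 x hx).1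
  have h2 := ho.le
  refine ⟨z, ?_, ?_, i2⟩
  · simp only [Nat.zero_add]
    exact hz
  · simp only [Nat.zero_add]
    rw [zer_length, hA.sz]
    omega

theorem bd_pos : allL (fun l : Ltr => Nat.ble 1 l.bd) LS = true := by decide +kernel

lemma Oc_single {k i o : ℕ} (h : Oc [k] i o) : i = k ∧ o = 0 := by
  obtain ⟨p, s, h1, h2⟩ := h
  cases p with
  | nil =>
    simp only [List.nil_append, List.cons.injEq] at h1
    exact ⟨h1.1.symm, h2.symm⟩
  | cons a p => simp at h1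

lemma vec_all {A : SPT} {u : List ℕ} (hA : Has A u) (z : El A) :
    ∃ p ∈ vecs u 0, Rep (co A z) p.1 p.2 ∧ p.1.length ≤ lv A + 1 ∧ 0 < p.2 := by
  obtain ⟨i, o, ho, x, hx, hz⟩ := hA.cmp z
  obtain ⟨i1, i2, i3, i4⟩ := ltr_facts i
  have h1 := (i4 x hx).1
  have h2 := ho.le
  have h3 := vecs_mem u 0 i o x ho hx
  rw [Nat.zero_add] at h3
  refine ⟨_, h3, hz, ?_, i2⟩
  simp only
  rw [zer_length, hA.sz]
  omega

/-- **A matched pair forms a block.** -/
theorem sol_has {A B T : SPT} (hT : PT A B T) {u v : List ℕ} (hA : Has A u) (hB : Has B v) {k : ℕ}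
    (hk : solOK u v k = true) : Has T [k] := by
  unfold solOK at hk
  simp only [Bool.and_eq_true] at hk
  obtain ⟨k1, k2, k3, k4, k5, k6, k7, k8, k9, k10, k11, k12⟩ := hk
  have k1' := Nat.eq_of_beq_eq_true k1
  have k2' := Nat.le_of_ble_eq_true k2
  have k3' := Nat.le_of_ble_eq_true k3
  have k4' := Nat.eq_of_beq_eq_true k4
  have k12' := Nat.le_of_ble_eq_true k12
  obtain ⟨t1, t2, t3, t4⟩ := ltr_facts k
  have hu := hA.sz
  have hv := hB.sz
  have eu : wsz u - 1 = lv A := by omega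
  have ev' : wsz v - 1 = lv B := by omega
  have hbd := Nat.le_of_ble_eq_true (allL_mem bd_pos _ (ltr_mem k))
  have hbd' : (0:ℝ) < (ltr k).bd := by exact_mod_cast hbd
  have inner : ∀ (w : List ℕ), innOK w (ltr k).bn (ltr k).bd = true → ∀ i ∈ w,
      ((ltr i).bn : ℝ) / (ltr i).bd ≤ ((ltr k).bn : ℝ) / (ltr k).bd := by
    intro w hw i hi
    have h1 := Nat.le_of_ble_eq_true (allL_mem hw i hi)
    have h2 := Nat.le_of_ble_eq_true (allL_mem bd_pos _ (ltr_mem i))
    have h2' : (0:ℝ) < (ltr i).bd := by exact_mod_cast h2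
    rw [div_le_div_iff₀ h2' hbd']
    exact_mod_cast h1
  refine ⟨?_, ?_, ?_, ?_, ?_, ?_, ?_, ?_⟩
  · rw [hT.lv, wsz_cons, wsz_nil, Nat.add_zero, ← k1', ← hu, ← hv]
    ring
  · intro i hi
    rw [List.mem_singleton] at hi
    omega
  · intro i o ho y hy
    obtain ⟨rfl, rfl⟩ := Oc_single ho
    have h1 := allL_mem k5 y hy
    rw [Nat.zero_add]
    cases hb : anyL (fun p => eqS p.2 (ltr i).den p.1 (zer y.1 y.2))
        (mpp (elv (wsz u - 1) (wsz v)) (vecs u 0)) with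
    | true =>
      obtain ⟨p', hp', h2⟩ := anyL_spec hb
      obtain ⟨p, hp, rfl⟩ := mem_mpp hp'
      obtain ⟨z, hz1, hz2, hz3⟩ := vec_real hA hp
      obtain ⟨z', hz'⟩ := hT.left z
      refine ⟨z', ?_⟩
      rw [hz']
      have h3 := (hz1.elK hz2 (lv B + 1)).conv (dK_pos hz3 _) t2 (M := zer y.1 y.2) (by
        rw [eu, ← hv] at h2
        exact h2)
      exact h3
    | false =>
      rw [hb] at h1
      obtain ⟨p', hp', h2⟩ := anyL_spec h1
      obtain ⟨p, hp, rfl⟩ := mem_mpp hp'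
      obtain ⟨z, hz1, hz2, hz3⟩ := vec_real hB hp
      obtain ⟨z', hz'⟩ := hT.right z
      refine ⟨z', ?_⟩
      rw [hz']
      have h3 := (hz1.elK hz2 (lv A + 1)).conv (dK_pos hz3 _) t2 (M := zer y.1 y.2) (by
        rw [ev', ← hu] at h2
        exact h2)
      exact h3
  · intro z
    refine ⟨k, 0, ⟨[], [], rfl, rfl⟩, ?_⟩
    rcases hT.cs z with ⟨x, hx⟩ | ⟨y, hy⟩
    · obtain ⟨p, hp, h1, h2, h3⟩ := vec_all hA x
      obtain ⟨y, hy, h4⟩ := anyL_spec (allL_mem k7 _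
        (mpp_mem (f := elv (wsz u - 1) (wsz v)) hp))
      refine ⟨y, hy, ?_⟩
      rw [hx, Nat.zero_add]
      have h5 := (h1.elK h2 (lv B + 1)).conv (dK_pos h3 _) t2 (M := zer y.1 y.2) (by
        rw [eu, ← hv] at h4
        exact h4)
      exact h5
    · obtain ⟨p, hp, h1, h2, h3⟩ := vec_all hB y
      obtain ⟨x, hx, h4⟩ := anyL_spec (allL_mem k8 _
        (mpp_mem (f := elv (wsz v - 1) (wsz u)) hp))
      refine ⟨x, hx, ?_⟩
      rw [hy, Nat.zero_add]
      have h5 := (h1.elK h2 (lv A + 1)).conv (dK_pos h3 _) t2 (M := zer x.1 x.2) (by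
        rw [ev', ← hu] at h4
        exact h4)
      exact h5
  · intro i hi _
    rw [List.mem_singleton] at hi
    subst hi
    obtain ⟨p, hp, h1⟩ := anyL_spec k6
    obtain ⟨q, hq, h2⟩ := anyL_spec h1
    obtain ⟨x, hx1, hx2, hx3⟩ := vec_real hA hp
    obtain ⟨y, hy1, hy2, hy3⟩ := vec_real hB hq
    obtain ⟨z, z', hz1, hz2, hz3, hz4⟩ := hT.cross x y
    refine ⟨z, z', hz1, hz2, ?_⟩
    have hE := E_rep hx1 hy1 hx2 hy2
    have hE' := E_rep hy1 hx1 hy2 hx2
    have hS := E_symm (co_Pr A x) (co_Pr B y)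
    unfold balT at h2
    rw [nseq_eq, nseq_eq, Bool.and_eq_true, chK_eq, ← hu, ← hv] at h2
    obtain ⟨g1, g2⟩ := h2
    have g1' := Nat.le_of_ble_eq_true g1
    have g2' := Nat.le_of_ble_eq_true g2
    rw [hz3, hz4]
    set N := NK (lv A + 1) (lv B + 1) p.1 q.1 with hN
    set C := (lv A + 1 + (lv B + 1)).choose (lv A + 1) with hC
    have hCpos : 0 < C := Nat.choose_pos (by omega)
    have hdd : (0:ℝ) < (p.2 : ℝ) * q.2 * C := by positivity
    have hE'0 : 0 ≤ E (lv A) (co A x) (cdf (lv B) (co B y)) := by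
      rw [hE']
      positivity
    have hle : (N : ℝ) ≤ (p.2 : ℝ) * q.2 * C := by
      have : (N : ℝ) / ((p.2 : ℝ) * q.2 * C) ≤ 1 := by rw [← hE]; linarith
      rwa [div_le_one hdd] at this
    have hle' : N ≤ p.2 * q.2 * C := by exact_mod_cast hle
    constructor
    · rw [hE, div_le_div_iff₀ hbd' hdd]
      have : (((ltr i).bn * (p.2 * q.2 * C) : ℕ) : ℝ) ≤ (((ltr i).bd * N : ℕ) : ℝ) := by
        exact_mod_cast g1'
      push_cast at this
      linarith
    · have e1 : E (lv A) (co A x) (cdf (lv B) (co B y)) =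
          ((p.2 : ℝ) * q.2 * C - N) / ((p.2 : ℝ) * q.2 * C) := by
        rw [sub_div, div_self hdd.ne', ← hE]
        linarith
      rw [e1, div_le_div_iff₀ hbd' hdd]
      have e2 : ((p.2 * q.2 * C - N : ℕ) : ℝ) = (p.2 : ℝ) * q.2 * C - N := by
        rw [Nat.cast_sub hle']
        push_cast
        ring
      have h7 : (((ltr i).bn * (p.2 * q.2 * C) : ℕ) : ℝ) ≤
          (((ltr i).bd * (p.2 * q.2 * C - N) : ℕ) : ℝ) := by exact_mod_cast g2'
      rw [Nat.cast_mul (ltr i).bd, e2] at h7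
      push_cast at h7
      linarith
  · intro z z' h1 h2
    refine ⟨k, List.mem_singleton.2 rfl, by omega, ?_⟩
    rcases hT.prs z z' h1 h2 with ⟨x, x', g1, g2, g3⟩ | ⟨y, y', g1, g2, g3⟩ | ⟨x, y, g3⟩
    · rw [g3]
      obtain ⟨i, hi, -, h3⟩ := hA.ub x x' g1 g2
      exact h3.trans (inner u k9 i hi)
    · rw [g3]
      obtain ⟨i, hi, -, h3⟩ := hB.ub y y' g1 g2
      exact h3.trans (inner v k10 i hi)
    · rw [g3]
      obtain ⟨p, hp, p1, p2, p3⟩ := vec_all hA x
      obtain ⟨q, hq, q1, q2, q3⟩ := vec_all hB y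
      have h4 := allL_mem (allL_mem k11 p hp) q hq
      unfold prT at h4
      rw [nseq_eq, nseq_eq, chK_eq, ← hu, ← hv] at h4
      have hE := E_rep p1 q1 p2 q2
      have hS := E_symm (co_Pr A x) (co_Pr B y)
      set N := NK (lv A + 1) (lv B + 1) p.1 q.1 with hN
      set C := (lv A + 1 + (lv B + 1)).choose (lv A + 1) with hC
      have hCpos : 0 < C := Nat.choose_pos (by omega)
      have hdd : (0:ℝ) < (p.2 : ℝ) * q.2 * C := by positivity
      cases hb : Nat.ble ((ltr k).bd * N) ((ltr k).bn * (p.2 * q.2 * C)) with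
      | true =>
        have h5 := Nat.le_of_ble_eq_true hb
        refine (min_le_left _ _).trans ?_
        rw [hE, div_le_div_iff₀ hdd hbd']
        have : (((ltr k).bd * N : ℕ) : ℝ) ≤ (((ltr k).bn * (p.2 * q.2 * C) : ℕ) : ℝ) := by
          exact_mod_cast h5
        push_cast at this
        linarith
      | false =>
        rw [hb] at h4
        have h5 : (ltr k).bd * (p.2 * q.2 * C - N) ≤ (ltr k).bn * (p.2 * q.2 * C) :=
          Nat.le_of_ble_eq_true h4
        refine (min_le_right _ _).trans ?_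
        have e : E (lv A) (co A x) (cdf (lv B) (co B y)) =
            ((p.2 : ℝ) * q.2 * C - N) / ((p.2 : ℝ) * q.2 * C) := by
          rw [sub_div, div_self hdd.ne', ← hE]
          linarith
        rw [e, div_le_div_iff₀ hdd hbd']
        have h7 : (((ltr k).bd * (p.2 * q.2 * C - N) : ℕ) : ℝ) ≤
            (((ltr k).bn * (p.2 * q.2 * C) : ℕ) : ℝ) := by exact_mod_cast h5
        have h8 : (p.2 : ℝ) * q.2 * C - N ≤ ((p.2 * q.2 * C - N : ℕ) : ℝ) := by
          rw [sub_le_iff_le_add]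
          have : p.2 * q.2 * C ≤ (p.2 * q.2 * C - N) + N := by omega
          exact_mod_cast this
        have h9 := mul_le_mul_of_nonneg_left h8 hbd'.le
        push_cast at h7
        linarith
  · have h1 := hT.wd
    have h2 := hA.wd
    have h3 := hB.wd
    have h4 : mwd [k] = max (ltr k).wd 0 := rfl
    rw [h4]
    omega
  · refine hT.blk 17 ?_
    omega

/-! ### from unbalanced trees to unbalanced pairs of words -/

lemma zer_sum (k : ℕ) (w : List ℕ) (G : ℕ → ℝ) :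
    ∑ p ∈ range (zer k w).length, ((nth 0 p (zer k w) : ℕ) : ℝ) * G p =
      ∑ i ∈ range w.length, ((nth 0 i w : ℕ) : ℝ) * G (k + i) := by
  rw [zer_length, add_comm, Finset.sum_range_add]
  have h1 : ∑ p ∈ range k, ((nth 0 p (zer k w) : ℕ) : ℝ) * G p = 0 := by
    refine Finset.sum_eq_zero fun p hp => ?_
    have hp' := Finset.mem_range.1 hp
    rw [nth_zer, if_neg (by omega)]
    simp
  rw [h1, zero_add]
  refine Finset.sum_congr rfl fun i _ => ?_
  rw [nth_zer, if_pos (by omega), Nat.add_sub_cancel_left]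

lemma E_SP {n m o o' : ℕ} {h g : ℕ → ℝ} {x y : ℕ × List ℕ} {D d : ℕ}
    (hh : Rep h (zer (o + x.1) x.2) D) (hg : Rep g (zer (o' + y.1) y.2) d)
    (hx : o + (x.1 + x.2.length) ≤ n + 1) (hy : o' + (y.1 + y.2.length) ≤ m + 1) :
    E m g (cdf n h) = SP (n + 1) (m + 1) o x o' y / ((D : ℝ) * d) := by
  rw [E_cdf, rep_sum hh (by rw [zer_length]; omega), zer_sum]
  unfold SP
  have h1 : ∀ i ∈ range x.2.length, ((nth 0 i x.2 : ℕ) : ℝ) * ∑ j ∈ range (m + 1), g j *
      P (n + 1) (m + 1) (o + x.1 + i + 1) (j + 1) = (((nth 0 i x.2 : ℕ) : ℝ) *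
        ∑ j ∈ range y.2.length, ((nth 0 j y.2 : ℕ) : ℝ) *
          P (n + 1) (m + 1) (o + x.1 + i + 1) (o' + y.1 + j + 1)) / d := by
    intro i _
    rw [rep_sum hg (by rw [zer_length]; omega), zer_sum]
    ring
  rw [Finset.sum_congr rfl h1, ← Finset.sum_div, div_div]
  congr 1
  ring

lemma UB_of {A B : SPT} {u v : List ℕ} (hA : Has A u) (hB : Has B v) {ε : ℝ} (hε : 7 / 90 < ε)
    (hU : ∀ (x : El A) (y : El B), ε ≤ |E (lv B) (co B y) (cdf (lv A) (co A x)) - 1 / 2|) :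
    UB (lv A + 1) (lv B + 1) u v := by
  intro i o j o' hi hj x hx y hy ⟨h1, h2⟩
  obtain ⟨z, hz⟩ := hA.law i o hi x hx
  obtain ⟨z', hz'⟩ := hB.law j o' hj y hy
  obtain ⟨i1, i2, i3, i4⟩ := ltr_facts i
  obtain ⟨j1, j2, j3, j4⟩ := ltr_facts j
  have a1 := (i4 x hx).1
  have a2 := (j4 y hy).1
  have b1 := hi.le
  have b2 := hj.le
  have c1 := hA.sz
  have c2 := hB.sz
  have h3 := E_SP hz hz' (n := lv A) (m := lv B) (by omega) (by omega)
  have h4 := hU z z'
  rw [h3] at h4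
  have i2' : (0:ℝ) < (ltr i).den := by exact_mod_cast i2
  have j2' : (0:ℝ) < (ltr j).den := by exact_mod_cast j2
  have hd : (0:ℝ) < ((ltr i).den : ℝ) * (ltr j).den := mul_pos i2' j2'
  have h5 : 19 / 45 ≤ SP (lv A + 1) (lv B + 1) o x o' y / (((ltr i).den : ℝ) * (ltr j).den) := by
    rw [le_div_iff₀ hd]
    exact h1
  have h6 : SP (lv A + 1) (lv B + 1) o x o' y / (((ltr i).den : ℝ) * (ltr j).den) ≤ 26 / 45 := by
    rw [div_le_iff₀ hd]
    exact h2
  have h7 : |SP (lv A + 1) (lv B + 1) o x o' y / (((ltr i).den : ℝ) * (ltr j).den) - 1 / 2| ≤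
      7 / 90 := by
    rw [abs_le]
    constructor <;> linarith
  linarith

lemma Sol_ok {u v : List ℕ} (h : Sol u v) : ∃ k, solOK u v k = true := by
  obtain ⟨k, hk⟩ := h
  refine ⟨k, ?_⟩
  have := allL_mem sol_all _ hk
  simpa using this

lemma Oc_append {u v : List ℕ} {i o : ℕ} (h : Oc (u ++ v) i o) :
    Oc u i o ∨ ∃ o', o = wsz u + o' ∧ Oc v i o' := by
  obtain ⟨p, s, h1, h2⟩ := h
  rcases List.append_eq_append_iff.1 h1 with ⟨a, rfl, h3⟩ | ⟨a, h3, h4⟩
  · right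
    refine ⟨wsz a, ?_, ⟨a, s, h3, rfl⟩⟩
    rw [← h2, wsz_append]
  · cases a with
    | nil =>
      right
      refine ⟨0, ?_, ⟨[], s, ?_, rfl⟩⟩
      · rw [← h2, h3, List.append_nil, Nat.add_zero]
      · simpa using h4.symm
    | cons b a =>
      left
      simp only [List.cons_append, List.cons.injEq] at h4
      refine ⟨p, a, ?_, h2⟩
      rw [h3, h4.1]

lemma mwd_append (u v : List ℕ) : mwd (u ++ v) = max (mwd u) (mwd v) := by
  induction u with
  | nil =>
    change mwd v = max 0 (mwd v)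
    omega
  | cons i u ih =>
    change max (ltr i).wd (mwd (u ++ v)) = max (max (ltr i).wd (mwd u)) (mwd v)
    rw [ih]
    omega

lemma zer_zer (a b : ℕ) (L : List ℕ) : zer a (zer b L) = zer (a + b) L := by
  induction a with
  | zero => rw [Nat.zero_add]; rfl
  | succ a ih =>
    rw [show a + 1 + b = (a + b) + 1 by ring]
    change 0 :: zer a (zer b L) = 0 :: zer (a + b) L
    rw [ih]

/-- the one point tree -/
theorem has_leaf : Has leaf [0] := by
  have hrep : Rep (co leaf (() : Unit)) (zer (0 + 0) [1]) 1 := by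
    intro p
    cases p with
    | zero => change (1:ℝ) = ((1:ℕ):ℝ) / ((1:ℕ):ℝ); simp
    | succ p =>
      change (if p + 1 = 0 then (1:ℝ) else 0) = ((nth 0 (p + 1) [1] : ℕ) : ℝ) / ((1:ℕ):ℝ)
      simp
  refine ⟨rfl, ?_, ?_, ?_, ?_, ?_, rfl, trivial⟩
  · intro i hi
    rw [List.mem_singleton] at hi
    omega
  · intro i o ho x hx
    obtain ⟨rfl, rfl⟩ := Oc_single ho
    have hx' : x = (0, [1]) := List.mem_singleton.1 hx
    subst hx'
    exact ⟨(() : Unit), hrep⟩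
  · intro z
    exact ⟨0, 0, ⟨[], [], rfl, rfl⟩, (0, [1]), List.mem_singleton.2 rfl, hrep⟩
  · intro i hi hi0
    rw [List.mem_singleton] at hi
    exact absurd hi hi0
  · intro z z' h _
    exact absurd trivial h

/-- ordinal sums are concatenations -/
theorem has_ser {A B : SPT} {u v : List ℕ} (hA : Has A u) (hB : Has B v) :
    Has (ser A B) (u ++ v) := by
  have ez : ∀ (o' : ℕ) (x : ℕ × List ℕ), zer (lv A + 1) (zer (o' + x.1) x.2) =
      zer (wsz u + o' + x.1) x.2 := by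
    intro o' x
    rw [zer_zer, hA.sz, ← add_assoc]
  refine ⟨?_, ?_, ?_, ?_, ?_, ?_, ?_, ⟨hA.blk, hB.blk⟩⟩
  · rw [wsz_append, ← hA.sz, ← hB.sz]
    simp only [lv]
    ring
  · intro i hi
    rcases List.mem_append.1 hi with h | h
    · exact hA.lt i h
    · exact hB.lt i h
  · intro i o ho x hx
    rcases Oc_append ho with h | ⟨o', rfl, h⟩
    · obtain ⟨z, hz⟩ := hA.law i o h x hx
      exact ⟨sl z, hz⟩
    · obtain ⟨z, hz⟩ := hB.law i o' h x hx
      refine ⟨sr z, ?_⟩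
      have h1 := hz.shiftN (lv A + 1)
      rw [← ez]
      exact h1
  · intro z
    rcases ser_cases z with ⟨a, rfl⟩ | ⟨b, rfl⟩
    · obtain ⟨i, o, ho, x, hx, hz⟩ := hA.cmp a
      exact ⟨i, o, ho.append v, x, hx, hz⟩
    · obtain ⟨i, o', ⟨p, s, h1, h2⟩, x, hx, hz⟩ := hB.cmp b
      refine ⟨i, wsz u + o', ⟨u ++ p, s, by rw [h1, List.append_assoc], by rw [wsz_append, h2]⟩, x,
        hx, ?_⟩
      have h3 := hz.shiftN (lv A + 1)
      rw [← ez]
      exact h3
  · intro i hi hi0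
    rcases List.mem_append.1 hi with h | h
    · obtain ⟨z, z', h1, h2, h3, h4⟩ := hA.bal i h hi0
      exact ⟨sl z, sl z', h1, h2, by rw [pv_sl]; exact h3, by rw [pv_sl]; exact h4⟩
    · obtain ⟨z, z', h1, h2, h3, h4⟩ := hB.bal i h hi0
      exact ⟨sr z, sr z', h1, h2, by rw [pv_sr]; exact h3, by rw [pv_sr]; exact h4⟩
  · intro z z' h1 h2
    rcases ser_cases z with ⟨a, rfl⟩ | ⟨b, rfl⟩ <;> rcases ser_cases z' with ⟨a', rfl⟩ | ⟨b', rfl⟩
    · obtain ⟨i, hi, hi0, h3⟩ := hA.ub a a' h1 h2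
      exact ⟨i, List.mem_append_left _ hi, hi0, by rw [pv_sl, pv_sl]; exact h3⟩
    · exact absurd trivial h1
    · exact absurd trivial h2
    · obtain ⟨i, hi, hi0, h3⟩ := hB.ub b b' h1 h2
      exact ⟨i, List.mem_append_right _ hi, hi0, by rw [pv_sr, pv_sr]; exact h3⟩
  · rw [mwd_append]
    change max (Wd A) (Wd B) = _
    rw [hA.wd, hB.wd]

/-- **Unbalanced trees are words.** -/
theorem has_word {ε : ℝ} (hε : 7 / 90 < ε) : ∀ T : SPT, Unb ε T → ∃ w, Has T w := by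
  intro T
  induction T with
  | leaf => intro _; exact ⟨[0], has_leaf⟩
  | ser A B ihA ihB =>
    intro hU
    obtain ⟨u, hA⟩ := ihA hU.1
    obtain ⟨v, hB⟩ := ihB hU.2
    exact ⟨u ++ v, has_ser hA hB⟩
  | par A B ihA ihB =>
    intro hU
    obtain ⟨u, hA⟩ := ihA hU.1
    obtain ⟨v, hB⟩ := ihB hU.2.1
    have hc := hU.2.2
    have su := hA.sz
    have sv := hB.sz
    rcases Nat.le_total (wsz v) (wsz u) with h | h
    · have h1 := UB_of hA hB hε hc
      rw [su, sv] at h1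
      have h2 := classify (a := wsz u) (b := wsz v) (by omega) h u v h1 rfl rfl hA.lt hB.lt
      obtain ⟨k, hk⟩ := Sol_ok h2
      exact ⟨[k], sol_has (PT_par A B) hA hB hk⟩
    · have hc' : ∀ (y : El B) (x : El A),
          ε ≤ |E (lv A) (co A x) (cdf (lv B) (co B y)) - 1 / 2| := by
        intro y x
        have h3 := hc x y
        have h4 := E_symm (co_Pr A x) (co_Pr B y)
        have h5 : E (lv A) (co A x) (cdf (lv B) (co B y)) - 1 / 2 =
            -(E (lv B) (co B y) (cdf (lv A) (co A x)) - 1 / 2) := by linarith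
        rw [h5, abs_neg]
        exact h3
      have h1 := UB_of hB hA hε hc'
      rw [su, sv] at h1
      have h2 := classify (a := wsz v) (b := wsz u) (by omega) h v u h1 rfl rfl hB.lt hA.lt
      obtain ⟨k, hk⟩ := Sol_ok h2
      exact ⟨[k], sol_has (PT_par' A B) hB hA hk⟩

/-! ### every word is realised -/

/-- words over realised letters -/
lemma exists_of {w : List ℕ} (hne : w ≠ []) (h : ∀ i ∈ w, ∃ T, Has T [i]) : ∃ T, Has T w := by
  induction w with
  | nil => exact absurd rfl hne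
  | cons i w ih =>
    obtain ⟨A, hA⟩ := h i List.mem_cons_self
    cases w with
    | nil => exact ⟨A, hA⟩
    | cons j w =>
      obtain ⟨B, hB⟩ := ih (by simp) (fun k hk => h k (List.mem_cons_of_mem _ hk))
      exact ⟨ser A B, has_ser hA hB⟩

lemma below : ∀ k < 17, 1 ≤ k → ∃ p ∈ SolR, p.2.2 = k ∧ p.1 ≠ [] ∧ p.2.1 ≠ [] ∧
    (∀ i ∈ p.1, i < k) ∧ (∀ i ∈ p.2.1, i < k) := by decide +kernel

theorem exists_block : ∀ k : ℕ, k < 17 → ∃ T, Has T [k] := by
  intro k
  induction k using Nat.strong_induction_on with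
  | _ k ih =>
    intro hk
    rcases Nat.eq_zero_or_pos k with h0 | h0
    · rw [h0]; exact ⟨leaf, has_leaf⟩
    · obtain ⟨p, hp, h1, h2, h3, h4, h5⟩ := below k hk h0
      obtain ⟨A, hA⟩ := exists_of (w := p.1.reverse) (by simpa using h2)
        (fun i hi => ih i (h4 i (by simpa using hi)) (lt_trans (h4 i (by simpa using hi)) hk))
      obtain ⟨B, hB⟩ := exists_of (w := p.2.1.reverse) (by simpa using h3)
        (fun i hi => ih i (h5 i (by simpa using hi)) (lt_trans (h5 i (by simpa using hi)) hk))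
      have h6 := allL_mem sol_all _ hp
      rw [h1] at h6
      exact ⟨par A B, sol_has (PT_par A B) hA hB h6⟩

/-- **Every nonempty word is realised.** -/
theorem exists_word {w : List ℕ} (hne : w ≠ []) (h : ∀ i ∈ w, i < 17) : ∃ T, Has T w :=
  exists_of hne fun i hi => exists_block i (h i hi)

end Pool.Agent.NF
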