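import Mathlib
import Pool.Agent.Helper1.BalanceProof
import Pool.Agent.Helper43.NF.SolK
import Pool.Agent.Helper43.NF.Wid

/-!
# Exact balance constants of concrete trees
-/

set_option autoImplicit false

namespace Pool.Agent.NF

open Finset Pool.Agent.Helper73.KS Pool.Agent.Helper73.KS.SPT

/-- number of elements minus one, for the kernel -/
noncomputable def lvK (T : SPT) : ℕ :=
  @SPT.rec (fun _ => ℕ) 0 (fun _ _ a b => Nat.succ (Nat.add a b)) (fun _ _ a b => Nat.succ (Nat.add a b)) T

lemma lvK_eq (T : SPT) : lvK T = lv T := by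
  induction T with
  | leaf => rfl
  | ser A B ihA ihB =>
    change lvK A + lvK B + 1 = lv A + lv B + 1
    rw [ihA, ihB]
  | par A B ihA ihB =>
    change lvK A + lvK B + 1 = lv A + lv B + 1
    rw [ihA, ihB]

/-- the laws of all elements of a tree -/
noncomputable def lws (T : SPT) : List (List ℕ × ℕ) :=
  @SPT.rec (fun _ => List (List ℕ × ℕ)) [([1], 1)]
    (fun A _ a b => cat a (mpp (fun p => (zer (lvK A + 1) p.1, p.2)) b))
    (fun A B a b => cat (mpp (elv (lvK A) (lvK B + 1)) a) (mpp (elv (lvK B) (lvK A + 1)) b)) T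

lemma lws_spec : ∀ (T : SPT) (z : El T), ∃ p ∈ lws T, Rep (co T z) p.1 p.2 ∧
    p.1.length ≤ lv T + 1 ∧ 0 < p.2 := by
  intro T
  induction T with
  | leaf =>
    intro z
    refine ⟨([1], 1), List.mem_singleton.2 rfl, fun p => ?_, le_rfl, Nat.one_pos⟩
    cases p with
    | zero => change (1:ℝ) = ((1:ℕ):ℝ) / ((1:ℕ):ℝ); simp
    | succ p =>
      change (if p + 1 = 0 then (1:ℝ) else 0) = ((nth 0 (p + 1) [1] : ℕ) : ℝ) / ((1:ℕ):ℝ)
      simp
  | ser A B ihA ihB =>
    intro z
    have e : lws (ser A B) = lws A ++ mpp (fun p => (zer (lvK A + 1) p.1, p.2)) (lws B) := by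
      rw [← cat_eq]; rfl
    rw [e]
    rcases ser_cases z with ⟨a, rfl⟩ | ⟨b, rfl⟩
    · obtain ⟨p, hp, h1, h2, h3⟩ := ihA a
      refine ⟨p, List.mem_append_left _ hp, h1, ?_, h3⟩
      simp only [lv]
      omega
    · obtain ⟨p, hp, h1, h2, h3⟩ := ihB b
      refine ⟨(zer (lvK A + 1) p.1, p.2), List.mem_append_right _ ?_, ?_, ?_, h3⟩
      · rw [mpp_eq]
        exact List.mem_map.2 ⟨p, hp, rfl⟩
      · have := h1.shiftN (lv A + 1)
        rw [lvK_eq]
        exact this
      · rw [zer_length, lvK_eq]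
        simp only [lv]
        omega
  | par A B ihA ihB =>
    intro z
    have e : lws (par A B) = mpp (elv (lvK A) (lvK B + 1)) (lws A) ++
        mpp (elv (lvK B) (lvK A + 1)) (lws B) := by
      rw [← cat_eq]; rfl
    rw [e]
    rcases par_cases z with ⟨a, rfl⟩ | ⟨b, rfl⟩
    · obtain ⟨p, hp, h1, h2, h3⟩ := ihA a
      refine ⟨elv (lvK A) (lvK B + 1) p, List.mem_append_left _ ?_, ?_, ?_,
        (dK_pos h3 _ : 0 < dK (lvK A) p.2 (lvK B + 1))⟩
      · rw [mpp_eq]
        exact List.mem_map.2 ⟨p, hp, rfl⟩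
      · rw [lvK_eq, lvK_eq]
        exact h1.elK h2 (lv B + 1)
      · change (elK (lvK A) p.1 (lvK B + 1)).length ≤ _
        rw [elK_length, lvK_eq]
        simp only [lv]
        omega
    · obtain ⟨p, hp, h1, h2, h3⟩ := ihB b
      refine ⟨elv (lvK B) (lvK A + 1) p, List.mem_append_right _ ?_, ?_, ?_,
        (dK_pos h3 _ : 0 < dK (lvK B) p.2 (lvK A + 1))⟩
      · rw [mpp_eq]
        exact List.mem_map.2 ⟨p, hp, rfl⟩
      · rw [lvK_eq, lvK_eq]
        exact h1.elK h2 (lv A + 1)
      · change (elK (lvK B) p.1 (lvK A + 1)).length ≤ _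
        rw [elK_length, lvK_eq]
        simp only [lv]
        omega

/-- test of all cross pairs of a tree -/
noncomputable def unbK (n d : ℕ) (T : SPT) : Bool :=
  @SPT.rec (fun _ => Bool) true (fun _ _ a b => a && b)
    (fun A B a b => a && (b && allL (fun p => allL (fun q => prT (lvK A + 1) (lvK B + 1) n d p q)
      (lws B)) (lws A))) T

lemma unbK_spec {n d : ℕ} (hd : 0 < d) : ∀ T : SPT, unbK n d T = true →
    Unb (1 / 2 - (n : ℝ) / d) T := by
  intro T
  have hd' : (0:ℝ) < d := by exact_mod_cast hd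
  induction T with
  | leaf => intro _; trivial
  | ser A B ihA ihB =>
    intro h
    have h' : (unbK n d A && unbK n d B) = true := h
    rw [Bool.and_eq_true] at h'
    exact ⟨ihA h'.1, ihB h'.2⟩
  | par A B ihA ihB =>
    intro h
    have h' : (unbK n d A && (unbK n d B && allL (fun p => allL (fun q =>
      prT (lvK A + 1) (lvK B + 1) n d p q) (lws B)) (lws A))) = true := h
    rw [Bool.and_eq_true, Bool.and_eq_true] at h'
    obtain ⟨h1, h2, h3⟩ := h'
    refine ⟨ihA h1, ihB h2, fun x y => ?_⟩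
    obtain ⟨p, hp, p1, p2, p3⟩ := lws_spec A x
    obtain ⟨q, hq, q1, q2, q3⟩ := lws_spec B y
    have h4 := allL_mem (allL_mem h3 p hp) q hq
    unfold prT at h4
    rw [nseq_eq, nseq_eq, chK_eq, lvK_eq, lvK_eq] at h4
    have hE := E_rep p1 q1 p2 q2
    set N := NK (lv A + 1) (lv B + 1) p.1 q.1 with hN
    set C := (lv A + 1 + (lv B + 1)).choose (lv A + 1) with hC
    have hCpos : 0 < C := Nat.choose_pos (by omega)
    have hdd : (0:ℝ) < (p.2 : ℝ) * q.2 * C := by positivity
    rw [hE]
    cases hb : Nat.ble (d * N) (n * (p.2 * q.2 * C)) with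
    | true =>
      have h5 := Nat.le_of_ble_eq_true hb
      have h6 : (N : ℝ) / ((p.2 : ℝ) * q.2 * C) ≤ n / d := by
        rw [div_le_div_iff₀ hdd hd']
        have : ((d * N : ℕ) : ℝ) ≤ ((n * (p.2 * q.2 * C) : ℕ) : ℝ) := by exact_mod_cast h5
        push_cast at this
        linarith
      rw [le_abs]
      right
      linarith
    | false =>
      rw [hb] at h4
      have h5 : d * (p.2 * q.2 * C - N) ≤ n * (p.2 * q.2 * C) := Nat.le_of_ble_eq_true h4
      have h6 : 1 - (N : ℝ) / ((p.2 : ℝ) * q.2 * C) ≤ n / d := by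
        have e : 1 - (N : ℝ) / ((p.2 : ℝ) * q.2 * C) =
            ((p.2 : ℝ) * q.2 * C - N) / ((p.2 : ℝ) * q.2 * C) := by
          rw [sub_div, div_self hdd.ne']
        rw [e, div_le_div_iff₀ hdd hd']
        have h7 : ((d * (p.2 * q.2 * C - N) : ℕ) : ℝ) ≤ ((n * (p.2 * q.2 * C) : ℕ) : ℝ) := by
          exact_mod_cast h5
        have h8 : (p.2 : ℝ) * q.2 * C - N ≤ ((p.2 * q.2 * C - N : ℕ) : ℝ) := by
          rw [sub_le_iff_le_add]
          have : p.2 * q.2 * C ≤ (p.2 * q.2 * C - N) + N := by omega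
          exact_mod_cast this
        push_cast at h7
        nlinarith
      rw [le_abs]
      left
      linarith

/-- all incomparable pairs of an unbalanced tree -/
lemma pairs_le {ε : ℝ} : ∀ T : SPT, Unb ε T → ∀ x y : El T, ¬ le T x y → ¬ le T y x →
    min (pv T x y) (pv T y x) ≤ 1 / 2 - ε := by
  intro T
  induction T with
  | leaf => intro _ x y h; exact absurd trivial h
  | ser A B ihA ihB =>
    intro hU x y h1 h2
    rcases ser_cases x with ⟨a, rfl⟩ | ⟨b, rfl⟩ <;> rcases ser_cases y with ⟨a', rfl⟩ | ⟨b', rfl⟩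
    · rw [pv_sl, pv_sl]; exact ihA hU.1 a a' h1 h2
    · exact absurd trivial h1
    · exact absurd trivial h2
    · rw [pv_sr, pv_sr]; exact ihB hU.2 b b' h1 h2
  | par A B ihA ihB =>
    intro hU x y h1 h2
    have key : ∀ (a : El A) (b : El B),
        min (pv (par A B) (pl a) (pr b)) (pv (par A B) (pr b) (pl a)) ≤ 1 / 2 - ε := by
      intro a b
      have h3 := pv_symm (par A B) (x := pl a) (y := pr b) (fun h => Sum.inl_ne_inr h)
      have h4 := hU.2.2 a b
      rw [← pv_cross a b] at h4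
      rw [le_abs] at h4
      rcases h4 with h4 | h4
      · exact (min_le_right _ _).trans (by linarith)
      · exact (min_le_left _ _).trans (by linarith)
    rcases par_cases x with ⟨a, rfl⟩ | ⟨b, rfl⟩ <;> rcases par_cases y with ⟨a', rfl⟩ | ⟨b', rfl⟩
    · rw [pv_pl, pv_pl]; exact ihA hU.1 a a' h1 h2
    · exact key a b'
    · rw [min_comm]; exact key a' b
    · rw [pv_pr, pv_pr]; exact ihB hU.2.1 b b' h1 h2

/-! ### trees are N-free orders -/

lemma le_refl' : ∀ (T : SPT) (a : El T), le T a a := by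
  intro T
  induction T with
  | leaf => intro _; trivial
  | ser A B ihA ihB =>
    intro x
    rcases ser_cases x with ⟨a, rfl⟩ | ⟨b, rfl⟩
    · exact ihA a
    · exact ihB b
  | par A B ihA ihB =>
    intro x
    rcases par_cases x with ⟨a, rfl⟩ | ⟨b, rfl⟩
    · exact ihA a
    · exact ihB b

lemma le_trans' : ∀ (T : SPT) (a b c : El T), le T a b → le T b c → le T a c := by
  intro T
  induction T with
  | leaf => intro _ _ _ _ _; trivial
  | ser A B ihA ihB =>
    intro x y z h1 h2
    rcases ser_cases x with ⟨a, rfl⟩ | ⟨a, rfl⟩ <;> rcases ser_cases y with ⟨b, rfl⟩ | ⟨b, rfl⟩ <;>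
      rcases ser_cases z with ⟨c, rfl⟩ | ⟨c, rfl⟩ <;>
      first
        | exact ihA a b c h1 h2
        | exact ihB a b c h1 h2
        | trivial
  | par A B ihA ihB =>
    intro x y z h1 h2
    rcases par_cases x with ⟨a, rfl⟩ | ⟨a, rfl⟩ <;> rcases par_cases y with ⟨b, rfl⟩ | ⟨b, rfl⟩ <;>
      rcases par_cases z with ⟨c, rfl⟩ | ⟨c, rfl⟩ <;>
      first
        | exact ihA a b c h1 h2
        | exact ihB a b c h1 h2
        | exact (h1 : False).elim
        | exact (h2 : False).elim

lemma le_anti' : ∀ (T : SPT) (a b : El T), le T a b → le T b a → a = b := by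
  intro T
  induction T with
  | leaf => intro a b _ _; exact Subsingleton.elim (α := Unit) a b
  | ser A B ihA ihB =>
    intro x y h1 h2
    rcases ser_cases x with ⟨a, rfl⟩ | ⟨a, rfl⟩ <;> rcases ser_cases y with ⟨b, rfl⟩ | ⟨b, rfl⟩ <;>
      first
        | exact congrArg sl (ihA a b h1 h2)
        | exact congrArg sr (ihB a b h1 h2)
        | exact (h1 : False).elim
        | exact (h2 : False).elim
  | par A B ihA ihB =>
    intro x y h1 h2
    rcases par_cases x with ⟨a, rfl⟩ | ⟨a, rfl⟩ <;> rcases par_cases y with ⟨b, rfl⟩ | ⟨b, rfl⟩ <;>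
      first
        | exact congrArg pl (ihA a b h1 h2)
        | exact congrArg pr (ihB a b h1 h2)
        | exact (h1 : False).elim

lemma NF_tree : ∀ T : SPT, Pool.Agent.Helper73.KS.NF (le T) := by
  intro T
  induction T with
  | leaf => intro _ _ _ _ _ _ _; exact Or.inl (Or.inl trivial)
  | ser A B ihA ihB =>
    intro x y z t h1 h2 h3
    rcases ser_cases x with ⟨a, rfl⟩ | ⟨a, rfl⟩ <;> rcases ser_cases y with ⟨b, rfl⟩ | ⟨b, rfl⟩ <;>
      rcases ser_cases z with ⟨c, rfl⟩ | ⟨c, rfl⟩ <;> rcases ser_cases t with ⟨d, rfl⟩ | ⟨d, rfl⟩ <;>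
      first
        | exact ihA a b c d h1 h2 h3
        | exact ihB a b c d h1 h2 h3
        | exact Or.inl (Or.inl trivial)
        | exact Or.inl (Or.inr trivial)
        | exact Or.inr (Or.inl (Or.inl trivial))
        | exact Or.inr (Or.inl (Or.inr trivial))
        | exact Or.inr (Or.inr (Or.inl trivial))
        | exact Or.inr (Or.inr (Or.inr trivial))
  | par A B ihA ihB =>
    intro x y z t h1 h2 h3
    rcases par_cases x with ⟨a, rfl⟩ | ⟨a, rfl⟩ <;> rcases par_cases y with ⟨b, rfl⟩ | ⟨b, rfl⟩ <;>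
      rcases par_cases z with ⟨c, rfl⟩ | ⟨c, rfl⟩ <;> rcases par_cases t with ⟨d, rfl⟩ | ⟨d, rfl⟩ <;>
      first
        | exact ihA a b c d h1 h2 h3
        | exact ihB a b c d h1 h2 h3
        | exact (h1 : False).elim
        | exact (h2 : False).elim
        | exact (h3 : False).elim

/-! ### the witnesses -/

/-- the chain with two elements -/
def c2 : SPT := ser leaf leaf
/-- `V` -/
def V : SPT := par c2 leaf
/-- the witness of width five: `(V ⊕ 1) + (1 ⊕ V) + c2` -/
def B10 : SPT := par (par (ser V leaf) (ser leaf V)) c2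
/-- the witness of width six: `1 + (B10 ⊕ B10)` -/
def w6 : SPT := par leaf (ser B10 B10)

theorem u5 : unbK 19 45 B10 = true := by decide +kernel
theorem u6 : unbK 19 45 w6 = true := by decide +kernel

end Pool.Agent.NF
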