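import Mathlib
import Pool.Agent.Helper43.NF.TreeK
import Pool.Agent.Helper43.NF.Wit

/-!
# Balance constants of series-parallel orders on `Fin n`
-/

set_option autoImplicit false

namespace Pool.Agent.NF

open Finset Pool.Agent.Helper73.KS Pool.Agent.Helper73.KS.SPT Pool.Agent.Helper1.Balance

/-- the balance constant of a block -/
noncomputable def bc (i : ℕ) : ℝ := ((ltr i).bn : ℝ) / (ltr i).bd

lemma bc_nonneg (i : ℕ) : 0 ≤ bc i := by unfold bc; positivity

lemma bal_le_of {n : ℕ} {r : Fin n → Fin n → Prop} {T : SPT} (e : Fin n ≃ El T)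
    (he : ∀ a b, r a b ↔ le T (e a) (e b)) {c : ℝ} (hc : 0 ≤ c)
    (h : ∀ x y : El T, ¬ le T x y → ¬ le T y x → min (pv T x y) (pv T y x) ≤ c) :
    balance r ≤ c := by
  unfold balance
  refine Real.sSup_le ?_ hc
  rintro t ⟨x, y, h1, h2, rfl⟩
  rw [he] at h1 h2
  rw [prob_tree r T e he, prob_tree r T e he]
  exact h _ _ h1 h2

lemma bal_ge_of {n : ℕ} {r : Fin n → Fin n → Prop} {T : SPT} (e : Fin n ≃ El T)
    (he : ∀ a b, r a b ↔ le T (e a) (e b)) {x y : El T} (h1 : ¬ le T x y) (h2 : ¬ le T y x) :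
    min (pv T x y) (pv T y x) ≤ balance r := by
  have h3 : min (pv T x y) (pv T y x) ∈ bset r := by
    refine ⟨e.symm x, e.symm y, ?_, ?_, ?_⟩
    · rw [he]; simpa using h1
    · rw [he]; simpa using h2
    · rw [prob_tree r T e he, prob_tree r T e he]
      simp
  exact le_csSup (bset_finite r).bddAbove h3

/-- the balance constant of a word -/
theorem bal_eq {n : ℕ} {r : Fin n → Fin n → Prop} {T : SPT} (e : Fin n ≃ El T)
    (he : ∀ a b, r a b ↔ le T (e a) (e b)) {w : List ℕ} (h : Has T w) {k : ℕ} (hk : k ∈ w)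
    (hmax : ∀ i ∈ w, bc i ≤ bc k) : balance r = bc k := by
  apply le_antisymm
  · refine bal_le_of e he (bc_nonneg k) fun x y h1 h2 => ?_
    obtain ⟨i, hi, -, h3⟩ := h.ub x y h1 h2
    exact h3.trans (hmax i hi)
  · rcases Nat.eq_zero_or_pos k with h0 | h0
    · have : bc k = 0 := by rw [h0]; unfold bc; simp [ltr, LS, l0]
      rw [this]
      exact balance_nonneg r
    · obtain ⟨z, z', h1, h2, h3, h4⟩ := h.bal k hk (by omega)
      exact le_trans (le_min h3 h4) (bal_ge_of e he h1 h2)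

/-- a tree as an order on `Fin n` -/
theorem order_of (T : SPT) : ∃ (n : ℕ) (r : Fin n → Fin n → Prop) (e : Fin n ≃ El T),
    (∀ a b, r a b ↔ le T (e a) (e b)) ∧ IsPoset r ∧ Pool.Agent.Helper73.KS.NF r := by
  refine ⟨lv T + 1, fun a b => le T ((Fintype.equivFinOfCardEq (card_El T)).symm a)
    ((Fintype.equivFinOfCardEq (card_El T)).symm b), (Fintype.equivFinOfCardEq (card_El T)).symm,
    fun _ _ => Iff.rfl, ⟨fun a => le_refl' T _, fun a b c h1 h2 => le_trans' T _ _ _ h1 h2,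
    fun a b h1 h2 => ?_⟩, fun a b c d h1 h2 h3 => NF_tree T _ _ _ _ h1 h2 h3⟩
  exact (Fintype.equivFinOfCardEq (card_El T)).symm.injective (le_anti' T _ _ h1 h2)

/-- the largest width is attained by a letter -/
lemma mwd_mem : ∀ {w : List ℕ}, w ≠ [] → ∃ j ∈ w, (ltr j).wd = mwd w := by
  intro w
  induction w with
  | nil => intro h; exact absurd rfl h
  | cons i w ih =>
    intro _
    have e : mwd (i :: w) = max (ltr i).wd (mwd w) := rfl
    rw [e]
    rcases Nat.le_total (mwd w) (ltr i).wd with h | h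
    · exact ⟨i, List.mem_cons_self, by omega⟩
    · cases w with
      | nil =>
        refine ⟨i, List.mem_cons_self, ?_⟩
        have : mwd [] = 0 := rfl
        rw [this] at h ⊢
        omega
      | cons j w =>
        obtain ⟨k, hk, hk'⟩ := ih (by simp)
        exact ⟨k, List.mem_cons_of_mem _ hk, by omega⟩

lemma le_mwd : ∀ {w : List ℕ} {i : ℕ}, i ∈ w → (ltr i).wd ≤ mwd w := by
  intro w
  induction w with
  | nil => intro i h; simp at h
  | cons j w ih =>
    intro i hi
    have e : mwd (j :: w) = max (ltr j).wd (mwd w) := rfl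
    rw [e]
    rcases List.mem_cons.1 hi with rfl | h
    · exact le_max_left _ _
    · exact (ih h).trans (le_max_right _ _)

/-- **Orders with small balance constant.** -/
theorem small_bal {n : ℕ} {r : Fin n → Fin n → Prop} (hP : IsPoset r)
    (hN : Pool.Agent.Helper73.KS.NF r) (hn : 0 < n) (hb : balance r < 19 / 45) :
    ∃ (T : SPT) (e : Fin n ≃ El T) (w : List ℕ), (∀ a b, r a b ↔ le T (e a) (e b)) ∧ Has T w := by
  obtain ⟨T, e, he⟩ := exists_tree n (Fin n) r (Fintype.card_fin n) hn ⟨hP.1, hP.2.1, hP.2.2⟩ hN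
  have hU : Unb (1 / 2 - balance r) T := by
    refine unb_of T fun x y h1 h2 => ?_
    have := bal_ge_of e he h1 h2
    linarith
  obtain ⟨w, hw⟩ := has_word (ε := 1 / 2 - balance r) (by linarith) T hU
  exact ⟨T, e, w, he, hw⟩

lemma has_ne {T : SPT} {w : List ℕ} (h : Has T w) : w ≠ [] := by
  intro h0
  have := h.sz
  rw [h0, wsz_nil] at this
  omega

/-- the data of an order with small balance constant -/
theorem small_data {n : ℕ} {r : Fin n → Fin n → Prop} (hP : IsPoset r)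
    (hN : Pool.Agent.Helper73.KS.NF r) (hn : 0 < n) (hb : balance r < 19 / 45) {w : ℕ}
    (hw : HasWidth r w) : ∃ j < 17, ∃ k < 17, (ltr j).wd = w ∧ (ltr k).wd ≤ w ∧ bc j ≤ bc k ∧
      balance r = bc k := by
  obtain ⟨T, e, v, he, hT⟩ := small_bal hP hN hn hb
  have hne := has_ne hT
  have hwd : w = mwd v := by rw [← hT.wd]; exact width_unique hw (has_width e he)
  obtain ⟨j, hj, hj'⟩ := mwd_mem hne
  obtain ⟨k, hk, hk'⟩ := Finset.exists_max_image v.toFinset bc
    (List.toFinset_nonempty_iff v |>.2 hne)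
  rw [List.mem_toFinset] at hk
  refine ⟨j, hT.lt j hj, k, hT.lt k hk, by rw [hj', hwd], by rw [hwd]; exact le_mwd hk,
    hk' j (by rwa [List.mem_toFinset]), bal_eq e he hT hk fun i hi => hk' i
      (by rwa [List.mem_toFinset])⟩

/-- words give orders -/
theorem word_order {v : List ℕ} (hlt : ∀ i ∈ v, i < 17) {k : ℕ} (hk : k ∈ v)
    (hmax : ∀ i ∈ v, bc i ≤ bc k) : ∃ (n : ℕ) (r : Fin n → Fin n → Prop), IsPoset r ∧
      Pool.Agent.Helper73.KS.NF r ∧ HasWidth r (mwd v) ∧ bc k = balance r := by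
  obtain ⟨T, hT⟩ := exists_word (w := v) (by intro h; rw [h] at hk; simp at hk) hlt
  obtain ⟨n, r, e, he, h1, h2⟩ := order_of T
  exact ⟨n, r, h1, h2, by rw [← hT.wd]; exact has_width e he, (bal_eq e he hT hk hmax).symm⟩

/-- trees with balance at most `n / d` -/
theorem tree_order {p q : ℕ} (hq : 0 < q) {T : SPT} (hT : unbK p q T = true) :
    ∃ (n : ℕ) (r : Fin n → Fin n → Prop), IsPoset r ∧
      Pool.Agent.Helper73.KS.NF r ∧ HasWidth r (Wd T) ∧ balance r ≤ (p : ℝ) / q := by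
  obtain ⟨n, r, e, he, h1, h2⟩ := order_of T
  refine ⟨n, r, h1, h2, has_width e he, bal_le_of e he (by positivity) fun x y g1 g2 => ?_⟩
  have := pairs_le T (unbK_spec hq T hT) x y g1 g2
  linarith

theorem sum_of_blocks {n : ℕ} {r : Fin n → Fin n → Prop} (hP : IsPoset r)
    (hN : Pool.Agent.Helper73.KS.NF r) (hb : balance r < 19 / 45) :
    ∃ f : Fin n → ℕ, (∀ a b, f a < f b → r a b) ∧
      ∀ i, (Finset.univ.filter fun a => f a = i).card ≤ 17 := by
  rcases Nat.eq_zero_or_pos n with h0 | h0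
  · subst h0
    exact ⟨fun _ => 0, fun a => a.elim0, fun i => by
      refine (Finset.card_le_univ _).trans ?_
      rw [Fintype.card_fin]
      omega⟩
  · obtain ⟨T, e, v, he, hT⟩ := small_bal hP hN h0 hb
    obtain ⟨f, m, -, hf2, hf3⟩ := blk_fun T hT.blk
    refine ⟨fun a => f (e a), fun a b hab => (he a b).2 (hf2 _ _ hab), fun i => ?_⟩
    refine le_trans (le_of_eq ?_) (hf3 i)
    rw [← Finset.card_map e.toEmbedding]
    congr 1
    ext x
    rw [Finset.mem_map, Finset.mem_filter]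
    constructor
    · rintro ⟨a, ha, rfl⟩
      exact ⟨Finset.mem_univ _, (Finset.mem_filter.1 ha).2⟩
    · rintro ⟨-, hx⟩
      exact ⟨e.symm x, Finset.mem_filter.2 ⟨Finset.mem_univ _, by simpa using hx⟩, by simp⟩

/-! ### finite checks -/

/-- comparison of the balance constants -/
lemma bc_le_iff {i j : ℕ} : bc i ≤ bc j ↔ (ltr i).bn * (ltr j).bd ≤ (ltr j).bn * (ltr i).bd := by
  have h1 := Nat.le_of_ble_eq_true (allL_mem bd_pos _ (ltr_mem i))
  have h2 := Nat.le_of_ble_eq_true (allL_mem bd_pos _ (ltr_mem j))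
  have h1' : (0:ℝ) < (ltr i).bd := by exact_mod_cast h1
  have h2' : (0:ℝ) < (ltr j).bd := by exact_mod_cast h2
  unfold bc
  rw [div_le_div_iff₀ h1' h2']
  exact_mod_cast Iff.rfl

lemma wd_le_four : ∀ j < 17, (ltr j).wd ≤ 4 := by decide +kernel

/-- test of a list of values -/
noncomputable def caseK (w : ℕ) (l : List (ℕ × ℕ)) : Bool :=
  allL (fun x : Ltr => allL (fun y : Ltr => !(Nat.beq x.wd w) || (!(Nat.ble y.wd w) ||
    (!(Nat.ble (x.bn * y.bd) (y.bn * x.bd)) ||
      anyL (fun p : ℕ × ℕ => Nat.beq p.1 y.bn && Nat.beq p.2 y.bd) l))) LS) LS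

lemma caseK_spec {w : ℕ} {l : List (ℕ × ℕ)} (h : caseK w l = true) {j k : ℕ}
    (h1 : (ltr j).wd = w) (h2 : (ltr k).wd ≤ w) (h3 : bc j ≤ bc k) :
    ∃ p ∈ l, bc k = (p.1 : ℝ) / p.2 := by
  have h4 := allL_mem (allL_mem h _ (ltr_mem j)) _ (ltr_mem k)
  rw [bc_le_iff] at h3
  simp only [Bool.or_eq_true, Bool.not_eq_true'] at h4
  rcases h4 with h4 | h4 | h4 | h4
  · rw [h1] at h4
    exact absurd h4 (by simp)
  · rw [Nat.ble_eq_true_of_le h2] at h4
    exact absurd h4 (by simp)
  · rw [Nat.ble_eq_true_of_le h3] at h4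
    exact absurd h4 (by simp)
  · obtain ⟨p, hp, h5⟩ := anyL_spec h4
    rw [Bool.and_eq_true] at h5
    refine ⟨p, hp, ?_⟩
    unfold bc
    rw [Nat.eq_of_beq_eq_true h5.1, Nat.eq_of_beq_eq_true h5.2]

theorem case_two : caseK 2 [(1, 3), (2, 5), (5, 12)] = true := by decide +kernel

theorem case_three : caseK 3 [(8, 21), (2, 5), (11, 27), (9, 22), (107, 260), (26, 63), (5, 12),
      (287, 680)] = true := by decide +kernel

theorem case_four : caseK 4 [(178, 429), (5, 12), (263, 630), (287, 680)] = true := by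
  decide +kernel

end Pool.Agent.NF
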