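import Mathlib
import Pool.Agent.Helper43.NF.Run

/-!
# Regions and their splitting
-/

set_option autoImplicit false

namespace Pool.Agent.NF

/-- the pairs of words with sizes `a`, `b` are settled -/
def Cls (a b : ℕ) : Prop := ∀ u v, UB a b u v → wsz u = a → wsz v = b →
  (∀ i ∈ u, i < 17) → (∀ i ∈ v, i < 17) → Sol u v

/-- a box of sizes -/
def Box (a₁ a₂ b₁ b₂ : ℕ) : Prop := ∀ a b, a₁ ≤ a → a ≤ a₂ → b₁ ≤ b → b ≤ b₂ → Cls a b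

/-- a bounded cone of sizes -/
def Cone (n₁ n₂ N₁ N₂ : ℕ) : Prop := ∀ a b, 19 ≤ b → n₁ * (a + b) ≤ 51200 * a →
  51200 * a ≤ n₂ * (a + b) → N₁ ≤ a + b → a + b ≤ N₂ → Cls a b

/-- an unbounded cone of sizes -/
def Cone' (n₁ n₂ N₁ : ℕ) : Prop := ∀ a b, 19 ≤ b → n₁ * (a + b) ≤ 51200 * a →
  51200 * a ≤ n₂ * (a + b) → N₁ ≤ a + b → Cls a b

theorem Box.split {a₁ m a₂ b₁ b₂ : ℕ} (h1 : Box a₁ m b₁ b₂) (h2 : Box (m + 1) a₂ b₁ b₂) :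
    Box a₁ a₂ b₁ b₂ := by
  intro a b h3 h4 h5 h6
  rcases Nat.lt_or_ge m a with h | h
  · exact h2 a b h h4 h5 h6
  · exact h1 a b h3 h h5 h6

theorem Cone.splitN {n₁ n₂ N₁ m N₂ : ℕ} (h1 : Cone n₁ n₂ N₁ m) (h2 : Cone n₁ n₂ (m + 1) N₂) :
    Cone n₁ n₂ N₁ N₂ := by
  intro a b h3 h4 h5 h6 h7
  rcases Nat.lt_or_ge m (a + b) with h | h
  · exact h2 a b h3 h4 h5 h h7
  · exact h1 a b h3 h4 h5 h6 h

theorem Cone.splitR {n₁ m n₂ N₁ N₂ : ℕ} (h1 : Cone n₁ m N₁ N₂) (h2 : Cone m n₂ N₁ N₂) :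
    Cone n₁ n₂ N₁ N₂ := by
  intro a b h3 h4 h5 h6 h7
  rcases Nat.le_total (m * (a + b)) (51200 * a) with h | h
  · exact h2 a b h3 h h5 h6 h7
  · exact h1 a b h3 h4 h h6 h7

theorem Cone'.splitR {n₁ m n₂ N₁ : ℕ} (h1 : Cone' n₁ m N₁) (h2 : Cone' m n₂ N₁) :
    Cone' n₁ n₂ N₁ := by
  intro a b h3 h4 h5 h6
  rcases Nat.le_total (m * (a + b)) (51200 * a) with h | h
  · exact h2 a b h3 h h5 h6
  · exact h1 a b h3 h4 h h6

theorem Cone.vac {n₁ n₂ N₁ N₂ : ℕ} (h : 51200 * N₂ < 51200 * 19 + n₁ * N₂) :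
    Cone n₁ n₂ N₁ N₂ := by
  intro a b h3 h4 h5 h6 h7
  exfalso
  zify at h h3 h4 h7
  have hb : (0:ℤ) ≤ a + b := by positivity
  have h8 : (51200 : ℤ) * b ≤ (51200 - n₁) * (a + b) := by linarith
  rcases le_total (0 : ℤ) (51200 - n₁) with h9 | h9
  · have := mul_le_mul_of_nonneg_left h7 h9
    linarith
  · have := mul_nonneg (neg_nonneg.2 h9) hb
    linarith

theorem box_cls {a₁ a₂ b₁ b₂ : ℕ} (cs : List ℕ) (m n : ℕ)
    (hrun : run ⟨a₁, a₂, b₁, b₂⟩ cs [st0 (HR.box a₁ b₂) (HR.box b₁ a₂) m n] = true)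
    (_h : 1 ≤ a₁ ∧ 1 ≤ b₁) : Box a₁ a₂ b₁ b₂ := by
  intro a b h1 h2 h3 h4 u v hUB hu hv hu17 hv17
  exact region hrun ⟨h1, h4⟩ ⟨h3, h2⟩ h1 h3 (Or.inr h2) (Or.inr h4) hUB hu hv hu17 hv17

/-- the cone conditions for the second size -/
lemma cone_swap {n₂ a b : ℕ} (h : 51200 * a ≤ n₂ * (a + b)) :
    (51200 - n₂) * (b + a) ≤ 51200 * b := by
  rcases Nat.le_total n₂ 51200 with h1 | h1
  · obtain ⟨d, hd⟩ : ∃ d, 51200 = n₂ + d := ⟨51200 - n₂, by omega⟩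
    rw [hd] at h ⊢
    rw [Nat.add_sub_cancel_left]
    nlinarith
  · rw [Nat.sub_eq_zero_of_le h1]
    simp

theorem cone_cls {n₁ n₂ N₁ N₂ : ℕ} (cs : List ℕ) (m n amin bmin : ℕ)
    (hrun : run ⟨amin, 0, bmin, 0⟩ cs [st0 (HR.cone n₁ 51200 N₁ N₂)
      (HR.cone (51200 - n₂) 51200 N₁ N₂) m n] = true)
    (h : 51200 * amin < n₁ * N₁ + 51200 ∧
      (bmin ≤ 19 ∨ 51200 * bmin < (51200 - n₂) * N₁ + 51200)) : Cone n₁ n₂ N₁ N₂ := by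
  intro a b h1 h2 h3 h4 h5 u v hUB hu hv hu17 hv17
  have h6 := cone_swap h3
  have ha : amin ≤ a := by
    have h7 : n₁ * N₁ ≤ n₁ * (a + b) := Nat.mul_le_mul_left _ h4
    omega
  have hb : bmin ≤ b := by
    rcases h.2 with h8 | h8
    · omega
    · have h7 : (51200 - n₂) * N₁ ≤ (51200 - n₂) * (b + a) := Nat.mul_le_mul_left _ (by omega)
      omega
  exact region hrun ⟨h2, h4, h5⟩ ⟨h6, by omega, by omega⟩ ha hb (Or.inl rfl) (Or.inl rfl) hUB hu hv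
    hu17 hv17

theorem cone_cls' {n₁ n₂ N₁ : ℕ} (cs : List ℕ) (m n amin bmin : ℕ)
    (hrun : run ⟨amin, 0, bmin, 0⟩ cs [st0 (HR.cone' n₁ 51200 N₁)
      (HR.cone' (51200 - n₂) 51200 N₁) m n] = true)
    (h : 51200 * amin < n₁ * N₁ + 51200 ∧
      (bmin ≤ 19 ∨ 51200 * bmin < (51200 - n₂) * N₁ + 51200)) : Cone' n₁ n₂ N₁ := by
  intro a b h1 h2 h3 h4 u v hUB hu hv hu17 hv17
  have h6 := cone_swap h3
  have ha : amin ≤ a := by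
    have h7 : n₁ * N₁ ≤ n₁ * (a + b) := Nat.mul_le_mul_left _ h4
    omega
  have hb : bmin ≤ b := by
    rcases h.2 with h8 | h8
    · omega
    · have h7 : (51200 - n₂) * N₁ ≤ (51200 - n₂) * (b + a) := Nat.mul_le_mul_left _ (by omega)
      omega
  exact region hrun ⟨h2, h4⟩ ⟨h6, by omega⟩ ha hb (Or.inl rfl) (Or.inl rfl) hUB hu hv
    hu17 hv17

end Pool.Agent.NF
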